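import Mathlib
import Pool.Agent.SWT93.Stmts

/-!
# Cherries: the exchange of two legs at a vertex

If the legs `i`, `j` end at the same vertex then their exchange changes the sign of every functional
that is invariant under isomorphisms and satisfies AS. The sum `I - J + X` of an IHX triple changes
its sign as well, for some pair of legs, if one of the three graphs has a cherry.
-/

set_option autoImplicit false

namespace Pool.Agent.SWT36

open Equiv Pool.Agent.SWT80 Pool.Agent.SWT93

variable {V M : Type} {n : ℕ} [AddCommGroup M]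

/-- The graph with the vertices moved by `τ`; the edges and the legs are the same. -/
def cj (G : Gr V n) (τ : Perm V) (h : ∀ i, τ (G.leg i) = G.leg i) : Gr V n where
  e := G.e
  r := (τ.symm.trans G.r).trans τ
  leg := G.leg
  e2 := G.e2
  e1 := G.e1
  r3 v := by simp [G.r3]
  inj := G.inj
  fix v := by
    have h1 : ((τ.symm.trans G.r).trans τ) v = v ↔ G.r (τ.symm v) = τ.symm v := by
      rw [Equiv.eq_symm_apply]
      rfl
    rw [h1, G.fix]
    constructor
    · rintro ⟨i, hi⟩
      exact ⟨i, by rw [← h i, hi, Equiv.apply_symm_apply]⟩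
    · rintro ⟨i, hi⟩
      exact ⟨i, by rw [← hi, Equiv.eq_symm_apply, h]⟩

theorem cj_r (G : Gr V n) (τ : Perm V) (h : ∀ i, τ (G.leg i) = G.leg i) (v : V) :
    (cj G τ h).r (τ v) = τ (G.r v) := by
  show τ (G.r (τ.symm (τ v))) = _
  rw [Equiv.symm_apply_apply]

open Classical in
theorem swap_comm_apply {r : Perm V} {a b : V} (v : V) :
    r (swap a b v) = swap (r a) (r b) (r v) := by
  have := Equiv.mul_swap_eq_swap_mul r a b
  exact DFunLike.congr_fun this v

theorem leg_ne_of {G : Gr V n} {u : V} (h : G.r u ≠ u) (i : Fin n) : G.leg i ≠ u := fun h' =>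
  h (h' ▸ G.r_leg i)

open Classical in
theorem swap_leg {G : Gr V n} {u w : V} (hu : G.r u ≠ u) (hw : G.r w ≠ w) (i : Fin n) :
    swap u w (G.leg i) = G.leg i :=
  swap_apply_of_ne_of_ne (leg_ne_of hu i) (leg_ne_of hw i)

open Classical in
/-- The exchange of two legs is the exchange of their ends at the vertices. -/
theorem swap_smul {G : Gr V n} {i j : Fin n} {u w : V} (hi : G.e (G.leg i) = u)
    (hj : G.e (G.leg j) = w) (hu : G.r u ≠ u) (hw : G.r w ≠ w) :
    (cj G (swap u w) (swap_leg hu hw)).map (swap (G.leg i) (G.leg j) * swap u w) =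
      swap i j • G := by
  have hc : ∀ v, swap u w (swap (G.leg i) (G.leg j) v) =
      swap (G.leg i) (G.leg j) (swap u w v) := by
    intro v
    rw [swap_comm_apply, swap_leg hu hw, swap_leg hu hw]
  refine Gr.map_eq (fun v => ?_) (fun v => ?_) (fun k => ?_)
  · show G.e (swap (G.leg i) (G.leg j) (swap u w v)) =
      swap (G.leg i) (G.leg j) (swap u w (G.e v))
    rw [swap_comm_apply, hi, hj, swap_comm_apply, ← hi, ← hj, G.e2, G.e2, hi, hj, hc]
  · show G.r (swap (G.leg i) (G.leg j) (swap u w v)) =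
      swap (G.leg i) (G.leg j) (swap u w ((cj G (swap u w) (swap_leg hu hw)).r v))
    rw [swap_comm_apply, G.r_leg, G.r_leg]
    congr 1
    have h1 := cj_r G (swap u w) (swap_leg hu hw) (swap u w v)
    rw [swap_apply_self] at h1
    rw [h1, swap_apply_self]
  · rw [Gr.smul_leg, swap_inv]
    show _ = swap (G.leg i) (G.leg j) (swap u w (G.leg k))
    rw [swap_leg hu hw]
    by_cases h1 : k = i
    · subst h1
      rw [swap_apply_left, swap_apply_left]
    by_cases h2 : k = j
    · subst h2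
      rw [swap_apply_right, swap_apply_right]
    rw [swap_apply_of_ne_of_ne h1 h2, swap_apply_of_ne_of_ne (G.leg_ne h1) (G.leg_ne h2)]

open Classical in
/-- Exchange of two half-edges at the same vertex. -/
theorem cj_flip {G : Gr V n} {u w : V} (h : G.r u = w) (hu : G.r u ≠ u) (hw : G.r w ≠ w) :
    cj G (swap u w) (swap_leg hu hw) = G.flip u := by
  have hr3 : G.r (G.r w) = u := by rw [← h, G.r3]
  have huw : u ≠ w := fun h' => hu (h.trans h'.symm)
  have hcu : G.r w ≠ u := fun h' => by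
    apply hu
    rw [← h] at h'
    exact G.r2 h'
  refine Gr.ext rfl (Equiv.ext fun z => ?_) rfl
  obtain ⟨v, rfl⟩ : ∃ v, swap u w v = z := ⟨swap u w z, swap_apply_self _ _ _⟩
  rw [cj_r, Gr.flip_r]
  by_cases h1 : v = u
  · subst h1
    rw [swap_apply_left, h, swap_apply_right, Gr.fr_pos (Or.inr (Or.inl h.symm)), hr3]
  by_cases h2 : v = w
  · subst h2
    rw [swap_apply_right, swap_apply_of_ne_of_ne hcu hw, Gr.fr_pos (Or.inl rfl), h]
  rw [swap_apply_of_ne_of_ne h1 h2]
  by_cases h3 : v = G.r w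
  · subst h3
    rw [hr3, swap_apply_left, Gr.fr_pos (Or.inr (Or.inr (by rw [h]))), hr3, h]
  rw [Gr.fr_neg, swap_apply_of_ne_of_ne]
  · intro h4
    exact h3 (G.r_inj (h4.trans hr3.symm))
  · intro h4
    exact h1 (G.r_inj (h4.trans h.symm))
  · rintro (h4 | h4 | h4)
    · exact h1 h4
    · exact h2 (h4.trans h)
    · exact h3 (h4.trans (by rw [h]))

theorem cherry_in {G : Gr V n} {i j : Fin n} (h : Cherry G i j) :
    G.r (G.e (G.leg i)) ≠ G.e (G.leg i) ∧ G.r (G.e (G.leg j)) ≠ G.e (G.leg j) := by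
  have h1 : G.r (G.e (G.leg i)) ≠ G.e (G.leg i) := fun h' => by
    rw [h.2] at h'
    exact G.leg_ne h.1 (G.e_inj h').symm
  refine ⟨h1, fun h' => ?_⟩
  apply h1
  rw [← h.2] at h'
  exact G.r_inj h'

/-! ### Graphs which differ at the two ends of an edge only -/

/-- The graph `G` has the edges `e0`, the legs `l0`, the vertices `(x, p, q)`, `(y, s, t)` and the
vertices of `r0` outside `D = {x, y, p, q, s, t}`. -/
structure Sh (r0 : V → V) (D : V → Prop) (e0 : Perm V) (l0 : Fin n → V) (x y : V) (G : Gr V n)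
    (p q s t : V) : Prop where
  e : G.e = e0
  l : G.leg = l0
  h1 : G.r x = p
  h2 : G.r p = q
  h3 : G.r y = s
  h4 : G.r s = t
  nd : [x, y, p, q, s, t].Nodup
  m : ∀ v, D v ↔ (v = x ∨ v = y ∨ v = p ∨ v = q ∨ v = s ∨ v = t)
  o : ∀ v, ¬ D v → G.r v = r0 v

namespace Sh

variable {r0 : V → V} {D : V → Prop} {e0 : Perm V} {l0 : Fin n → V} {x y : V} {G G' : Gr V n}
  {p q s t : V}

theorem h5 (h : Sh r0 D e0 l0 x y G p q s t) : G.r q = x := by
  rw [← h.h2, ← h.h1, G.r3]

theorem h6 (h : Sh r0 D e0 l0 x y G p q s t) : G.r t = y := by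
  rw [← h.h4, ← h.h3, G.r3]

theorem uniq (h : Sh r0 D e0 l0 x y G p q s t) (h' : Sh r0 D e0 l0 x y G' p q s t) : G = G' := by
  refine Gr.ext (h.e.trans h'.e.symm) (Equiv.ext fun v => ?_) (h.l.trans h'.l.symm)
  by_cases hv : D v
  · rcases (h.m v).1 hv with rfl | rfl | rfl | rfl | rfl | rfl
    · rw [h.h1, h'.h1]
    · rw [h.h3, h'.h3]
    · rw [h.h2, h'.h2]
    · rw [h.h5, h'.h5]
    · rw [h.h4, h'.h4]
    · rw [h.h6, h'.h6]
  · rw [h.o v hv, h'.o v hv]

theorem flip_x (h : Sh r0 D e0 l0 x y G p q s t) : Sh r0 D e0 l0 x y (G.flip x) q p s t := by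
  have hnd := h.nd
  have hvt : ∀ v, G.vt x v ↔ v = x ∨ v = p ∨ v = q := fun v => by
    unfold Gr.vt
    rw [h.h1, h.h2]
  simp only [List.nodup_cons, List.mem_cons, List.not_mem_nil, or_false, not_or,
    not_false_eq_true, and_true, List.nodup_nil] at hnd
  obtain ⟨⟨n1, n2, n3, n4, n5⟩, ⟨n6, n7, n8, n9⟩, ⟨n10, n11, n12⟩, ⟨n13, n14⟩, n15⟩ := hnd
  constructor
  · exact h.e
  · exact h.l
  · rw [Gr.flip_r, Gr.fr_pos (Or.inl rfl), h.h1, h.h2]
  · rw [Gr.flip_r, Gr.fr_pos ((hvt _).2 (Or.inr (Or.inr rfl))), h.h5, h.h1]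
  · rw [Gr.flip_r, Gr.fr_neg, h.h3]
    rw [hvt]
    tauto
  · rw [Gr.flip_r, Gr.fr_neg, h.h4]
    rw [hvt]
    tauto
  · simp only [List.nodup_cons, List.mem_cons, List.not_mem_nil, or_false, not_or,
      not_false_eq_true, and_true, List.nodup_nil]
    tauto
  · intro v
    rw [h.m]
    tauto
  · intro v hv
    rw [Gr.flip_r, Gr.fr_neg, h.o v hv]
    rw [hvt]
    rw [h.m] at hv
    tauto

theorem flip_y (h : Sh r0 D e0 l0 x y G p q s t) : Sh r0 D e0 l0 x y (G.flip y) p q t s := by
  have hnd := h.nd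
  have hvt : ∀ v, G.vt y v ↔ v = y ∨ v = s ∨ v = t := fun v => by
    unfold Gr.vt
    rw [h.h3, h.h4]
  simp only [List.nodup_cons, List.mem_cons, List.not_mem_nil, or_false, not_or,
    not_false_eq_true, and_true, List.nodup_nil] at hnd
  obtain ⟨⟨n1, n2, n3, n4, n5⟩, ⟨n6, n7, n8, n9⟩, ⟨n10, n11, n12⟩, ⟨n13, n14⟩, n15⟩ := hnd
  constructor
  · exact h.e
  · exact h.l
  · rw [Gr.flip_r, Gr.fr_neg, h.h1]
    rw [hvt]
    tauto
  · rw [Gr.flip_r, Gr.fr_neg, h.h2]
    rw [hvt]
    tauto
  · rw [Gr.flip_r, Gr.fr_pos (Or.inl rfl), h.h3, h.h4]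
  · rw [Gr.flip_r, Gr.fr_pos ((hvt _).2 (Or.inr (Or.inr rfl))), h.h6, h.h3]
  · simp only [List.nodup_cons, List.mem_cons, List.not_mem_nil, or_false, not_or,
      not_false_eq_true, and_true, List.nodup_nil]
    tauto
  · intro v
    rw [h.m]
    tauto
  · intro v hv
    rw [Gr.flip_r, Gr.fr_neg, h.o v hv]
    rw [hvt]
    rw [h.m] at hv
    tauto

theorem nx (h : Sh r0 D e0 l0 x y G p q s t) : G.r x ≠ x := by
  have := h.nd
  rw [h.h1]
  simp only [List.nodup_cons, List.mem_cons, List.not_mem_nil, or_false, not_or,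
    not_false_eq_true, and_true, List.nodup_nil] at this
  tauto

theorem ny (h : Sh r0 D e0 l0 x y G p q s t) : G.r y ≠ y := by
  have := h.nd
  rw [h.h3]
  simp only [List.nodup_cons, List.mem_cons, List.not_mem_nil, or_false, not_or,
    not_false_eq_true, and_true, List.nodup_nil] at this
  tauto

open Classical in
theorem map_xy (h : Sh r0 D e0 l0 x y G p q s t) (hxy : e0 x = y) :
    Sh r0 D e0 l0 x y (G.map (swap x y)) s t p q := by
  have hnd := h.nd
  have hyx : e0 y = x := by
    rw [← hxy, ← h.e, G.e2]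
  simp only [List.nodup_cons, List.mem_cons, List.not_mem_nil, or_false, not_or,
    not_false_eq_true, and_true, List.nodup_nil] at hnd
  obtain ⟨⟨n1, n2, n3, n4, n5⟩, ⟨n6, n7, n8, n9⟩, ⟨n10, n11, n12⟩, ⟨n13, n14⟩, n15⟩ := hnd
  have sp : swap x y p = p := swap_apply_of_ne_of_ne (Ne.symm n2) (Ne.symm n6)
  have sq : swap x y q = q := swap_apply_of_ne_of_ne (Ne.symm n3) (Ne.symm n7)
  have ss : swap x y s = s := swap_apply_of_ne_of_ne (Ne.symm n4) (Ne.symm n8)
  have st : swap x y t = t := swap_apply_of_ne_of_ne (Ne.symm n5) (Ne.symm n9)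
  constructor
  · refine Equiv.ext fun z => ?_
    obtain ⟨v, rfl⟩ : ∃ v, swap x y v = z := ⟨swap x y z, swap_apply_self _ _ _⟩
    rw [Gr.map_e, swap_comm_apply, h.e, hxy, hyx, swap_comm]
  · funext k
    rw [Gr.map_leg, ← h.l]
    exact swap_leg h.nx h.ny k
  · have := Gr.map_r (swap x y) G y
    rwa [swap_apply_right, h.h3, ss] at this
  · have := Gr.map_r (swap x y) G s
    rwa [ss, h.h4, st] at this
  · have := Gr.map_r (swap x y) G x
    rwa [swap_apply_left, h.h1, sp] at this
  · have := Gr.map_r (swap x y) G p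
    rwa [sp, h.h2, sq] at this
  · simp only [List.nodup_cons, List.mem_cons, List.not_mem_nil, or_false, not_or,
      not_false_eq_true, and_true, List.nodup_nil]
    tauto
  · intro v
    rw [h.m]
    tauto
  · intro v hv
    have hm := hv
    rw [h.m] at hm
    simp only [not_or] at hm
    obtain ⟨m1, m2, m3, m4, m5, m6⟩ := hm
    have := Gr.map_r (swap x y) G v
    rw [swap_apply_of_ne_of_ne m1 m2] at this
    rw [this, swap_apply_of_ne_of_ne, h.o v hv]
    · intro h'
      exact m4 (G.r_inj (h'.trans h.h5.symm))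
    · intro h'
      exact m6 (G.r_inj (h'.trans h.h6.symm))

/-- Motion of the vertices by a permutation which is supported on `D` without `x`, `y`. -/
theorem cj (h : Sh r0 D e0 l0 x y G p q s t) (τ : Perm V) (hτ : ∀ i, τ (G.leg i) = G.leg i)
    (hx : τ x = x) (hy : τ y = y) (hD : ∀ v, D (τ v) ↔ D v) (ho : ∀ v, ¬ D v → τ v = v) :
    Sh r0 D e0 l0 x y (SWT36.cj G τ hτ) (τ p) (τ q) (τ s) (τ t) := by
  have hr : ∀ v, (SWT36.cj G τ hτ).r (τ v) = τ (G.r v) := cj_r G τ hτ
  constructor
  · exact h.e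
  · exact h.l
  · have := hr x
    rwa [hx, h.h1] at this
  · rw [hr, h.h2]
  · have := hr y
    rwa [hy, h.h3] at this
  · rw [hr, h.h4]
  · have h1 : [x, y, τ p, τ q, τ s, τ t] = [x, y, p, q, s, t].map τ := by
      simp only [List.map_cons, List.map_nil, hx, hy]
    rw [h1]
    exact h.nd.map τ.injective
  · intro v
    obtain ⟨w, rfl⟩ := τ.surjective v
    rw [hD, h.m]
    simp only [τ.injective.eq_iff]
    have e1 : τ w = x ↔ w = x := by
      conv_lhs => rw [← hx]
      exact τ.injective.eq_iff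
    have e2 : τ w = y ↔ w = y := by
      conv_lhs => rw [← hy]
      exact τ.injective.eq_iff
    rw [e1, e2]
  · intro v hv
    have h1 := hr v
    rw [ho v hv] at h1
    rw [h1, ho, h.o v hv]
    intro h2
    apply hv
    rcases (h.m _).1 h2 with h' | h' | h' | h' | h' | h'
    · exact (h.m v).2 (Or.inr (Or.inr (Or.inr (Or.inl (G.r_inj (h'.trans h.h5.symm))))))
    · exact (h.m v).2 (Or.inr (Or.inr (Or.inr (Or.inr (Or.inr (G.r_inj (h'.trans h.h6.symm)))))))
    · exact (h.m v).2 (Or.inl (G.r_inj (h'.trans h.h1.symm)))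
    · exact (h.m v).2 (Or.inr (Or.inr (Or.inl (G.r_inj (h'.trans h.h2.symm)))))
    · exact (h.m v).2 (Or.inr (Or.inl (G.r_inj (h'.trans h.h3.symm))))
    · exact (h.m v).2 (Or.inr (Or.inr (Or.inr (Or.inr (Or.inl (G.r_inj (h'.trans h.h4.symm)))))))

theorem r_D (h : Sh r0 D e0 l0 x y G p q s t) {v : V} (hv : D v) : D (G.r v) := by
  rw [h.m]
  rcases (h.m v).1 hv with rfl | rfl | rfl | rfl | rfl | rfl
  · rw [h.h1]; tauto
  · rw [h.h3]; tauto
  · rw [h.h2]; tauto
  · rw [h.h5]; tauto
  · rw [h.h4]; tauto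
  · rw [h.h6]; tauto

theorem r_ne (h : Sh r0 D e0 l0 x y G p q s t) {v : V} (hv : D v) : G.r v ≠ v := by
  have h1 := h.nx
  have h2 := h.ny
  rcases (h.m v).1 hv with rfl | rfl | rfl | rfl | rfl | rfl
  · exact h1
  · exact h2
  · rw [← h.h1]
    exact fun h' => h1 (G.r_inj h')
  · rw [← h.h2, ← h.h1]
    exact fun h' => h1 (G.r_inj (G.r_inj h'))
  · rw [← h.h3]
    exact fun h' => h2 (G.r_inj h')
  · rw [← h.h4, ← h.h3]
    exact fun h' => h2 (G.r_inj (G.r_inj h'))

open Classical in
theorem cj_swap (h : Sh r0 D e0 l0 x y G p q s t) {u w : V} (hu : D u) (hw : D w)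
    (hux : u ≠ x) (huy : u ≠ y) (hwx : w ≠ x) (hwy : w ≠ y) (hi : G.r u ≠ u) (hj : G.r w ≠ w) :
    Sh r0 D e0 l0 x y (SWT36.cj G (swap u w) (swap_leg hi hj)) (swap u w p) (swap u w q)
      (swap u w s) (swap u w t) := by
  refine h.cj _ _ (swap_apply_of_ne_of_ne hux.symm hwx.symm)
    (swap_apply_of_ne_of_ne huy.symm hwy.symm) (fun v => ?_) (fun v hv => ?_)
  · by_cases h1 : v = u
    · subst h1
      rw [swap_apply_left]
      exact ⟨fun _ => hu, fun _ => hw⟩
    by_cases h2 : v = w
    · subst h2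
      rw [swap_apply_right]
      exact ⟨fun _ => hw, fun _ => hu⟩
    rw [swap_apply_of_ne_of_ne h1 h2]
  · refine swap_apply_of_ne_of_ne ?_ ?_
    · rintro rfl
      exact hv hu
    · rintro rfl
      exact hv hw

end Sh

section

variable {F : (V : Type) → Gr V n → M}

open Classical in
omit [AddCommGroup M] in
theorem F_swap (iso : ∀ (V W : Type) [Finite V] (f : V ≃ W) (G : Gr V n), F W (G.map f) = F V G)
    [Finite V] {G : Gr V n} {i j : Fin n} {u w : V} (hi : G.e (G.leg i) = u)
    (hj : G.e (G.leg j) = w) (hu : G.r u ≠ u) (hw : G.r w ≠ w) :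
    F V (swap i j • G) = F V (cj G (swap u w) (swap_leg hu hw)) := by
  rw [← swap_smul hi hj hu hw, iso]

variable
  (iso : ∀ (V W : Type) [Finite V] (f : V ≃ W) (G : Gr V n), F W (G.map f) = F V G)
  (as : ∀ (V : Type) [Finite V] (G : Gr V n) (x : V), G.r x ≠ x → F V (G.flip x) = - F V G)

include iso as

/-- **Cherries.** The exchange of the two legs of a cherry changes the sign. -/
theorem cherry [Finite V] {G : Gr V n} {i j : Fin n} (h : Cherry G i j) :
    F V (swap i j • G) = - F V G := by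
  classical
  obtain ⟨hu, hw⟩ := cherry_in h
  rw [F_swap iso rfl rfl hu hw, cj_flip h.2 hu hw, as V G _ hu]

variable {r0 : V → V} {D : V → Prop} {e0 : Perm V} {l0 : Fin n → V} {x y : V} {p q s t : V}

omit iso in
theorem val_x [Finite V] {m : M} (h : ∀ G, Sh r0 D e0 l0 x y G p q s t → F V G = m) :
    ∀ G, Sh r0 D e0 l0 x y G q p s t → F V G = - m := by
  intro G hG
  rw [← h _ hG.flip_x, as V G x hG.nx, neg_neg]

omit iso in
theorem val_y [Finite V] {m : M} (h : ∀ G, Sh r0 D e0 l0 x y G p q s t → F V G = m) :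
    ∀ G, Sh r0 D e0 l0 x y G p q t s → F V G = - m := by
  intro G hG
  rw [← h _ hG.flip_y, as V G y hG.ny, neg_neg]

omit [AddCommGroup M] as in
theorem val_m [Finite V] (hxy : e0 x = y) {m : M}
    (h : ∀ G, Sh r0 D e0 l0 x y G p q s t → F V G = m) :
    ∀ G, Sh r0 D e0 l0 x y G s t p q → F V G = m := by
  classical
  intro G hG
  rw [← h _ (hG.map_xy hxy), iso]

/-- The sum of the three graphs changes its sign under the transpositions. -/
theorem sum_neg [Finite V] (hxy : e0 x = y) {a b c d : V} {I J X I' J' X' : Gr V n}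
    (hI : Sh r0 D e0 l0 x y I a b c d) (hJ : Sh r0 D e0 l0 x y J b c d a)
    (hX : Sh r0 D e0 l0 x y X a c d b) {a' b' c' d' : V}
    (hI' : Sh r0 D e0 l0 x y I' a' b' c' d') (hJ' : Sh r0 D e0 l0 x y J' b' c' d' a')
    (hX' : Sh r0 D e0 l0 x y X' a' c' d' b')
    (h : (a' = b ∧ b' = a ∧ c' = c ∧ d' = d) ∨ (a' = a ∧ b' = b ∧ c' = d ∧ d' = c) ∨
      (a' = a ∧ b' = c ∧ c' = b ∧ d' = d) ∨ (a' = d ∧ b' = b ∧ c' = c ∧ d' = a) ∨
      (a' = c ∧ b' = b ∧ c' = a ∧ d' = d) ∨ (a' = a ∧ b' = d ∧ c' = c ∧ d' = b)) :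
    F V I' - F V J' + F V X' = -(F V I - F V J + F V X) := by
  have vI : ∀ G, Sh r0 D e0 l0 x y G a b c d → F V G = F V I := fun G hG => by rw [hG.uniq hI]
  have vJ : ∀ G, Sh r0 D e0 l0 x y G b c d a → F V G = F V J := fun G hG => by rw [hG.uniq hJ]
  have vX : ∀ G, Sh r0 D e0 l0 x y G a c d b → F V G = F V X := fun G hG => by rw [hG.uniq hX]
  rcases h with ⟨rfl, rfl, rfl, rfl⟩ | ⟨rfl, rfl, rfl, rfl⟩ | ⟨rfl, rfl, rfl, rfl⟩ |
    ⟨rfl, rfl, rfl, rfl⟩ | ⟨rfl, rfl, rfl, rfl⟩ | ⟨rfl, rfl, rfl, rfl⟩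
  · rw [val_x as vI _ hI', vX _ hJ', vJ _ hX']
    abel
  · rw [val_y as vI _ hI', val_y as (val_x as (val_m iso hxy vX)) _ hJ',
      val_y as (val_x as (val_m iso hxy vJ)) _ hX']
    abel
  · rw [val_y as vX _ hI', val_x as vJ _ hJ', val_y as vI _ hX']
    abel
  · rw [val_y as (val_m iso hxy vX) _ hI', val_y as vJ _ hJ', val_x as (val_m iso hxy vI) _ hX']
    abel
  · rw [val_y as (val_x as vJ) _ hI', val_y as (val_x as vI) _ hJ', val_x as vX _ hX']
    abel
  · rw [val_y as (val_x as (val_m iso hxy vJ)) _ hI',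
      val_y as (val_x as (val_m iso hxy vI)) _ hJ', val_y as vX _ hX']
    abel

omit iso as in
omit [AddCommGroup M] in
theorem loc_nodup {I : Gr V n} {x : V} (h : Gr.Ok I x) :
    [x, I.e x, I.r x, I.r (I.r x), I.r (I.e x), I.r (I.r (I.e x))].Nodup := by
  have h0 : x ≠ I.e x := (I.e1 x).symm
  have h1 := h.ix
  have h2 := h.iy
  have h3 := h.ya
  have h4 := h.yb
  have h5 : x ≠ I.r (I.r x) := fun h' => h1 (I.r2 h'.symm)
  have h6 : x ≠ I.r (I.e x) := fun h' => h4 (by rw [h', I.r3, ← h'])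
  have h7 : x ≠ I.r (I.r (I.e x)) := fun h' => h3 (by
    have := congrArg I.r h'
    rw [I.r3] at this
    exact this.symm)
  have h8 : I.e x ≠ I.r (I.r (I.e x)) := fun h' => h2 (I.r2 h'.symm)
  simp only [List.nodup_cons, List.mem_cons, List.not_mem_nil, or_false, not_or,
    not_false_eq_true, and_true, List.nodup_nil]
  exact ⟨⟨h0, h1.symm, h5, h6, h7⟩, ⟨h3, h4, h2.symm, h8⟩,
    ⟨fun h' => h1 (I.r_inj h').symm, fun h' => h0 (I.r_inj h'), fun h' => h6 (I.r_inj h')⟩,
    ⟨fun h' => h3 (I.r_inj h').symm, fun h' => h0 (I.r_inj (I.r_inj h'))⟩,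
    fun h' => h2 (I.r_inj h').symm⟩

/-- **IHX and cherries.** If one of the graphs of an IHX triple has a cherry then the sum
`I - J + X` changes its sign under the exchange of two legs. -/
theorem loc_cherry [Finite V] {I J X : Gr V n} {x : V} (h : Gr.Loc I J X x)
    (hc : (∃ i j, Cherry I i j) ∨ (∃ i j, Cherry J i j) ∨ (∃ i j, Cherry X i j)) :
    ∃ i j : Fin n, i ≠ j ∧ F V (swap i j • I) - F V (swap i j • J) + F V (swap i j • X) =
      -(F V I - F V J + F V X) := by
  classical
  have nd := loc_nodup h.ok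
  set y := I.e x with hy
  set a := I.r x with ha
  set b := I.r a with hb
  set c := I.r y with hcc
  set d := I.r c with hd
  let D : V → Prop := fun v => v = x ∨ v = y ∨ v = a ∨ v = b ∨ v = c ∨ v = d
  have nd' := nd
  simp only [List.nodup_cons, List.mem_cons, List.not_mem_nil, or_false, not_or,
    not_false_eq_true, and_true, List.nodup_nil] at nd'
  obtain ⟨⟨n1, n2, n3, n4, n5⟩, ⟨n6, n7, n8, n9⟩, ⟨n10, n11, n12⟩, ⟨n13, n14⟩, n15⟩ := nd'
  have hout : ∀ v, ¬ D v → ¬ I.vt x v ∧ ¬ I.vt y v := by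
    intro v hv
    constructor
    · rintro (h' | h' | h')
      · exact hv (Or.inl h')
      · exact hv (Or.inr (Or.inr (Or.inl h')))
      · exact hv (Or.inr (Or.inr (Or.inr (Or.inl h'))))
    · rintro (h' | h' | h')
      · exact hv (Or.inr (Or.inl h'))
      · exact hv (Or.inr (Or.inr (Or.inr (Or.inr (Or.inl h')))))
      · exact hv (Or.inr (Or.inr (Or.inr (Or.inr (Or.inr h')))))
  have sI : Sh I.r D I.e I.leg x y I a b c d :=
    { e := rfl, l := rfl, h1 := rfl, h2 := rfl, h3 := rfl, h4 := rfl, nd := nd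
      m := fun v => Iff.rfl, o := fun v _ => rfl }
  have sJ : Sh I.r D I.e I.leg x y J b c d a :=
    { e := h.eJ, l := h.lJ, h1 := h.j1, h2 := h.j2, h3 := h.j4, h4 := h.j5
      nd := by
        simp only [List.nodup_cons, List.mem_cons, List.not_mem_nil, or_false, not_or,
          not_false_eq_true, and_true, List.nodup_nil]
        exact ⟨⟨n1, n3, n4, n5, n2⟩, ⟨n7, n8, n9, n6⟩, ⟨n13, n14, Ne.symm n10⟩,
          ⟨n15, Ne.symm n11⟩, Ne.symm n12⟩
      m := fun v => by
        show (v = x ∨ v = y ∨ v = a ∨ v = b ∨ v = c ∨ v = d) ↔ _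
        tauto
      o := fun v hv => (h.oth v (hout v hv).1 (hout v hv).2).1 }
  have sX : Sh I.r D I.e I.leg x y X a c d b :=
    { e := h.eX, l := h.lX, h1 := h.x1, h2 := h.x2, h3 := h.x4, h4 := h.x5
      nd := by
        simp only [List.nodup_cons, List.mem_cons, List.not_mem_nil, or_false, not_or,
          not_false_eq_true, and_true, List.nodup_nil]
        exact ⟨⟨n1, n2, n4, n5, n3⟩, ⟨n6, n8, n9, n7⟩, ⟨n11, n12, n10⟩,
          ⟨n15, Ne.symm n13⟩, Ne.symm n14⟩
      m := fun v => by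
        show (v = x ∨ v = y ∨ v = a ∨ v = b ∨ v = c ∨ v = d) ↔ _
        tauto
      o := fun v hv => (h.oth v (hout v hv).1 (hout v hv).2).2 }
  -- the inner ends of the legs of the cherry
  obtain ⟨i, j, hij, A, p, q, s, t, sA, hA⟩ : ∃ i j : Fin n, i ≠ j ∧ ∃ (A : Gr V n) (p q s t : V),
      Sh I.r D I.e I.leg x y A p q s t ∧ A.r (I.e (I.leg i)) = I.e (I.leg j) := by
    rcases hc with ⟨i, j, hij, h1⟩ | ⟨i, j, hij, h1⟩ | ⟨i, j, hij, h1⟩
    · exact ⟨i, j, hij, I, _, _, _, _, sI, h1⟩
    · refine ⟨i, j, hij, J, _, _, _, _, sJ, ?_⟩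
      rw [h.eJ, h.lJ] at h1
      exact h1
    · refine ⟨i, j, hij, X, _, _, _, _, sX, ?_⟩
      rw [h.eX, h.lX] at h1
      exact h1
  refine ⟨i, j, hij, ?_⟩
  by_cases hD : D (I.e (I.leg i))
  · -- the cherry is at one of the two vertices
    have hD' : D (I.e (I.leg j)) := hA ▸ sA.r_D hD
    have hxy : I.e x = y := rfl
    have hyx : I.e y = x := I.e2 x
    have hne : ∀ k, I.e (I.leg k) ≠ x ∧ I.e (I.leg k) ≠ y := by
      intro k
      constructor
      · intro h'
        have : I.leg k = y := by rw [← hxy, ← h', I.e2]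
        exact sI.ny (this ▸ I.r_leg k)
      · intro h'
        have : I.leg k = x := by rw [← hyx, ← h', I.e2]
        exact sI.nx (this ▸ I.r_leg k)
    have hr : ∀ {G : Gr V n} {p q s t : V}, Sh I.r D I.e I.leg x y G p q s t → ∀ {v}, D v →
        G.r v ≠ v := fun hG _ hv => hG.r_ne hv
    have tI := F_swap (F := F) iso (G := I) (i := i) (j := j) rfl rfl (sI.r_ne hD) (sI.r_ne hD')
    have tJ := F_swap (F := F) iso (G := J) (i := i) (j := j) (u := I.e (I.leg i))
      (w := I.e (I.leg j)) (by rw [h.eJ, h.lJ]) (by rw [h.eJ, h.lJ]) (sJ.r_ne hD) (sJ.r_ne hD')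
    have tX := F_swap (F := F) iso (G := X) (i := i) (j := j) (u := I.e (I.leg i))
      (w := I.e (I.leg j)) (by rw [h.eX, h.lX]) (by rw [h.eX, h.lX]) (sX.r_ne hD) (sX.r_ne hD')
    rw [tI, tJ, tX]
    refine sum_neg iso as hxy sI sJ sX
      (sI.cj_swap hD hD' (hne i).1 (hne i).2 (hne j).1 (hne j).2 (sI.r_ne hD) (sI.r_ne hD'))
      (sJ.cj_swap hD hD' (hne i).1 (hne i).2 (hne j).1 (hne j).2 (sJ.r_ne hD) (sJ.r_ne hD'))
      (sX.cj_swap hD hD' (hne i).1 (hne i).2 (hne j).1 (hne j).2 (sX.r_ne hD) (sX.r_ne hD')) ?_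
    have huw : I.e (I.leg i) ≠ I.e (I.leg j) := fun h' => hij (I.inj (I.e_inj h'))
    have hi1 := hne i
    have hj1 := hne j
    generalize I.e (I.leg i) = u at hD huw hi1
    generalize I.e (I.leg j) = w at hD' huw hj1
    rcases hD with h1 | h1 | h1 | h1 | h1 | h1
    · exact absurd h1 hi1.1
    · exact absurd h1 hi1.2
    all_goals
      rcases hD' with h2 | h2 | h2 | h2 | h2 | h2
      · exact absurd h2 hj1.1
      · exact absurd h2 hj1.2
      all_goals
        rw [h1, h2] at huw ⊢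
        first
        | exact absurd rfl huw
        | (left; refine ⟨?_, ?_, ?_, ?_⟩ <;>
          first
            | exact swap_apply_left _ _
            | exact swap_apply_right _ _
            | exact swap_apply_of_ne_of_ne (by first | assumption | (apply Ne.symm; assumption))
                (by first | assumption | (apply Ne.symm; assumption)))
        | (right; left; refine ⟨?_, ?_, ?_, ?_⟩ <;>
          first
            | exact swap_apply_left _ _
            | exact swap_apply_right _ _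
            | exact swap_apply_of_ne_of_ne (by first | assumption | (apply Ne.symm; assumption))
                (by first | assumption | (apply Ne.symm; assumption)))
        | (right; right; left; refine ⟨?_, ?_, ?_, ?_⟩ <;>
          first
            | exact swap_apply_left _ _
            | exact swap_apply_right _ _
            | exact swap_apply_of_ne_of_ne (by first | assumption | (apply Ne.symm; assumption))
                (by first | assumption | (apply Ne.symm; assumption)))
        | (right; right; right; left; refine ⟨?_, ?_, ?_, ?_⟩ <;>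
          first
            | exact swap_apply_left _ _
            | exact swap_apply_right _ _
            | exact swap_apply_of_ne_of_ne (by first | assumption | (apply Ne.symm; assumption))
                (by first | assumption | (apply Ne.symm; assumption)))
        | (right; right; right; right; left; refine ⟨?_, ?_, ?_, ?_⟩ <;>
          first
            | exact swap_apply_left _ _
            | exact swap_apply_right _ _
            | exact swap_apply_of_ne_of_ne (by first | assumption | (apply Ne.symm; assumption))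
                (by first | assumption | (apply Ne.symm; assumption)))
        | (right; right; right; right; right; refine ⟨?_, ?_, ?_, ?_⟩ <;>
          first
            | exact swap_apply_left _ _
            | exact swap_apply_right _ _
            | exact swap_apply_of_ne_of_ne (by first | assumption | (apply Ne.symm; assumption))
                (by first | assumption | (apply Ne.symm; assumption)))
  · -- the cherry is somewhere else
    have hI : Cherry I i j := ⟨hij, by rw [← sA.o _ hD, hA]⟩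
    have hJ : Cherry J i j := ⟨hij, by rw [h.eJ, h.lJ, sJ.o _ hD, ← sA.o _ hD, hA]⟩
    have hX : Cherry X i j := ⟨hij, by rw [h.eX, h.lX, sX.o _ hD, ← sA.o _ hD, hA]⟩
    rw [cherry iso as hI, cherry iso as hJ, cherry iso as hX]
    abel

end

end Pool.Agent.SWT36
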