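import Mathlib
import Pool.Agent.SWT36.Cherry

/-!
# The three graphs of an IHX triple as graphs which differ at the ends of one edge
-/

set_option autoImplicit false

namespace Pool.Agent.SWT36

open Equiv Pool.Agent.SWT80

variable {V : Type} {n : ℕ}

/-- The six half-edges at the two ends of the edge of `x`. -/
def DD (I : Gr V n) (x v : V) : Prop :=
  v = x ∨ v = I.e x ∨ v = I.r x ∨ v = I.r (I.r x) ∨ v = I.r (I.e x) ∨ v = I.r (I.r (I.e x))

theorem nodup_J {x y a b c d : V} (h : [x, y, a, b, c, d].Nodup) :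
    [x, y, b, c, d, a].Nodup := by
  simp only [List.nodup_cons, List.mem_cons, List.not_mem_nil, or_false, not_or,
    not_false_eq_true, and_true, List.nodup_nil] at h ⊢
  obtain ⟨⟨n1, n2, n3, n4, n5⟩, ⟨n6, n7, n8, n9⟩, ⟨n10, n11, n12⟩, ⟨n13, n14⟩, n15⟩ := h
  exact ⟨⟨n1, n3, n4, n5, n2⟩, ⟨n7, n8, n9, n6⟩, ⟨n13, n14, Ne.symm n10⟩,
    ⟨n15, Ne.symm n11⟩, Ne.symm n12⟩

theorem nodup_X {x y a b c d : V} (h : [x, y, a, b, c, d].Nodup) :
    [x, y, a, c, d, b].Nodup := by
  simp only [List.nodup_cons, List.mem_cons, List.not_mem_nil, or_false, not_or,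
    not_false_eq_true, and_true, List.nodup_nil] at h ⊢
  obtain ⟨⟨n1, n2, n3, n4, n5⟩, ⟨n6, n7, n8, n9⟩, ⟨n10, n11, n12⟩, ⟨n13, n14⟩, n15⟩ := h
  exact ⟨⟨n1, n2, n4, n5, n3⟩, ⟨n6, n8, n9, n7⟩, ⟨n11, n12, n10⟩,
    ⟨n15, Ne.symm n13⟩, Ne.symm n14⟩

theorem shI {I : Gr V n} {x : V} (h : Gr.Ok I x) :
    Sh I.r (DD I x) I.e I.leg x (I.e x) I (I.r x) (I.r (I.r x)) (I.r (I.e x))
      (I.r (I.r (I.e x))) where
  e := rfl
  l := rfl
  h1 := rfl
  h2 := rfl
  h3 := rfl
  h4 := rfl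
  nd := loc_nodup h
  m _ := Iff.rfl
  o _ _ := rfl

theorem out_vt {I : Gr V n} {x v : V} (hv : ¬ DD I x v) : ¬ I.vt x v ∧ ¬ I.vt (I.e x) v := by
  constructor
  · rintro (h' | h' | h')
    · exact hv (Or.inl h')
    · exact hv (Or.inr (Or.inr (Or.inl h')))
    · exact hv (Or.inr (Or.inr (Or.inr (Or.inl h'))))
  · rintro (h' | h' | h')
    · exact hv (Or.inr (Or.inl h'))
    · exact hv (Or.inr (Or.inr (Or.inr (Or.inr (Or.inl h')))))
    · exact hv (Or.inr (Or.inr (Or.inr (Or.inr (Or.inr h')))))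

theorem shJ {I J X : Gr V n} {x : V} (h : Gr.Loc I J X x) :
    Sh I.r (DD I x) I.e I.leg x (I.e x) J (I.r (I.r x)) (I.r (I.e x)) (I.r (I.r (I.e x)))
      (I.r x) where
  e := h.eJ
  l := h.lJ
  h1 := h.j1
  h2 := h.j2
  h3 := h.j4
  h4 := h.j5
  nd := nodup_J (loc_nodup h.ok)
  m v := by
    unfold DD
    tauto
  o v hv := (h.oth v (out_vt hv).1 (out_vt hv).2).1

theorem shX {I J X : Gr V n} {x : V} (h : Gr.Loc I J X x) :
    Sh I.r (DD I x) I.e I.leg x (I.e x) X (I.r x) (I.r (I.e x)) (I.r (I.r (I.e x)))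
      (I.r (I.r x)) where
  e := h.eX
  l := h.lX
  h1 := h.x1
  h2 := h.x2
  h3 := h.x4
  h4 := h.x5
  nd := nodup_X (loc_nodup h.ok)
  m v := by
    unfold DD
    tauto
  o v hv := (h.oth v (out_vt hv).1 (out_vt hv).2).2

namespace Sh

variable {r0 : V → V} {D : V → Prop} {e0 : Perm V} {l0 : Fin n → V} {x y : V} {G G' : Gr V n}
  {p q s t : V}

theorem D_r (h : Sh r0 D e0 l0 x y G p q s t) {v : V} : D (G.r v) ↔ D v := by
  refine ⟨fun hv => ?_, h.r_D⟩
  rw [← G.r3 v]
  exact h.r_D (h.r_D hv)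

theorem or2 (h : Sh r0 D e0 l0 x y G p q s t) {v : V} (hv : ¬ D v) :
    G.r (G.r v) = r0 (r0 v) := by
  rw [h.o _ (fun h' => hv (h.D_r.1 h')), h.o v hv]

end Sh

/-- Every edge between two different trivalent vertices is the edge of an IHX triple. -/
theorem exists_loc {I : Gr V n} {x : V} (h : Gr.Ok I x) : ∃ J X, Gr.Loc I J X x := by
  classical
  have nd := loc_nodup h
  have s0 := shI h
  have hD : ∀ v, DD I x v → ∀ k, I.leg k ≠ v := fun v hv k hk =>
    s0.r_ne hv (hk ▸ I.r_leg k)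
  have hvt : ∀ v, ¬ I.vt x v → ¬ I.vt (I.e x) v → ¬ DD I x v := by
    rintro v h1 h2 (h' | h' | h' | h' | h' | h')
    · exact h1 (Or.inl h')
    · exact h2 (Or.inl h')
    · exact h1 (Or.inr (Or.inl h'))
    · exact h1 (Or.inr (Or.inr h'))
    · exact h2 (Or.inr (Or.inl h'))
    · exact h2 (Or.inr (Or.inr h'))
  have d1 : DD I x (I.r x) := by unfold DD; tauto
  have d2 : DD I x (I.r (I.r x)) := by unfold DD; tauto
  have d3 : DD I x (I.r (I.e x)) := by unfold DD; tauto
  have d4 : DD I x (I.r (I.r (I.e x))) := by unfold DD; tauto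
  have hrb : I.r (I.r (I.r x)) = x := I.r3 x
  have hrd : I.r (I.r (I.r (I.e x))) = I.e x := I.r3 _
  have hrD : ∀ v, ¬ DD I x v → ¬ DD I x (I.r v) := fun v hv h' => hv (s0.D_r.1 h')
  generalize hy : I.e x = y at *
  generalize ha : I.r x = a at *
  generalize hb : I.r a = b at *
  generalize hc : I.r y = c at *
  generalize hd : I.r c = d at *
  simp only [List.nodup_cons, List.mem_cons, List.not_mem_nil, or_false, not_or,
    not_false_eq_true, and_true, List.nodup_nil] at nd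
  obtain ⟨⟨n1, n2, n3, n4, n5⟩, ⟨n6, n7, n8, n9⟩, ⟨n10, n11, n12⟩, ⟨n13, n14⟩, n15⟩ := nd
  have sn : ∀ {u w v : V}, v ≠ u → v ≠ w → swap u w v = v := fun h1 h2 =>
    swap_apply_of_ne_of_ne h1 h2
  -- the two permutations
  have t1 : ∀ v, (swap a b * swap b c * swap c d) v = swap a b (swap b c (swap c d v)) :=
    fun v => rfl
  have t2 : ∀ v, (swap b c * swap c d) v = swap b c (swap c d v) := fun v => rfl
  have hl1 : ∀ k, (swap a b * swap b c * swap c d) (I.leg k) = I.leg k := fun k => by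
    rw [t1, sn (hD _ d3 k) (hD _ d4 k), sn (hD _ d2 k) (hD _ d3 k), sn (hD _ d1 k) (hD _ d2 k)]
  have hl2 : ∀ k, (swap b c * swap c d) (I.leg k) = I.leg k := fun k => by
    rw [t2, sn (hD _ d3 k) (hD _ d4 k), sn (hD _ d2 k) (hD _ d3 k)]
  have rJ := cj_r I _ hl1
  have rX := cj_r I _ hl2
  have j1 : ∀ {v}, ¬ DD I x v → (swap a b * swap b c * swap c d) v = v := fun {v} hv => by
    have e1 : ∀ {u}, DD I x u → v ≠ u := fun hu h' => hv (h' ▸ hu)
    rw [t1, sn (e1 d3) (e1 d4), sn (e1 d2) (e1 d3), sn (e1 d1) (e1 d2)]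
  have x1 : ∀ {v}, ¬ DD I x v → (swap b c * swap c d) v = v := fun {v} hv => by
    have e1 : ∀ {u}, DD I x u → v ≠ u := fun hu h' => hv (h' ▸ hu)
    rw [t2, sn (e1 d3) (e1 d4), sn (e1 d2) (e1 d3)]
  have jx : (swap a b * swap b c * swap c d) x = x := by
    rw [t1, sn n4 n5, sn n3 n4, sn n2 n3]
  have jy : (swap a b * swap b c * swap c d) y = y := by
    rw [t1, sn n8 n9, sn n7 n8, sn n6 n7]
  have ja : (swap a b * swap b c * swap c d) a = b := by
    rw [t1, sn n11 n12, sn n10 n11, swap_apply_left]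
  have jb : (swap a b * swap b c * swap c d) b = c := by
    rw [t1, sn n13 n14, swap_apply_left, sn (Ne.symm n11) (Ne.symm n13)]
  have jc : (swap a b * swap b c * swap c d) c = d := by
    rw [t1, swap_apply_left, sn (Ne.symm n14) (Ne.symm n15), sn (Ne.symm n12) (Ne.symm n14)]
  have jd : (swap a b * swap b c * swap c d) d = a := by
    rw [t1, swap_apply_right, swap_apply_right, swap_apply_right]
  have xx : (swap b c * swap c d) x = x := by
    rw [t2, sn n4 n5, sn n3 n4]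
  have xy : (swap b c * swap c d) y = y := by
    rw [t2, sn n8 n9, sn n7 n8]
  have xa : (swap b c * swap c d) a = a := by
    rw [t2, sn n11 n12, sn n10 n11]
  have xb : (swap b c * swap c d) b = c := by
    rw [t2, sn n13 n14, swap_apply_left]
  have xc : (swap b c * swap c d) c = d := by
    rw [t2, swap_apply_left, sn (Ne.symm n14) (Ne.symm n15)]
  have xd : (swap b c * swap c d) d = b := by
    rw [t2, swap_apply_right, swap_apply_right]
  refine ⟨cj I _ hl1, cj I _ hl2, ?_⟩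
  constructor
  · exact h
  · have := rJ x
    rw [jx, ha, ja] at this
    rwa [ha, hb]
  · have := rJ a
    rw [ja, hb, jb] at this
    rwa [ha, hb, hy, hc]
  · have := rJ b
    rw [jb, hrb, jx] at this
    rwa [hy, hc]
  · have := rJ y
    rw [jy, hc, jc] at this
    rwa [hy, hc, hd]
  · have := rJ c
    rw [jc, hd, jd] at this
    rwa [hy, hc, hd, ha]
  · have := rJ d
    rw [jd, hrd, jy] at this
    rwa [hy, ha]
  · have := rX x
    rw [xx, ha, xa] at this
    rwa [ha]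
  · have := rX a
    rw [xa, hb, xb] at this
    rwa [ha, hy, hc]
  · have := rX b
    rw [xb, hrb, xx] at this
    rwa [hy, hc]
  · have := rX y
    rw [xy, hc, xc] at this
    rwa [hy, hc, hd]
  · have := rX c
    rw [xc, hd, xd] at this
    rwa [hy, hc, hd, ha, hb]
  · have := rX d
    rw [xd, hrd, xy] at this
    rwa [ha, hb, hy]
  · intro v h1 h2
    rw [hy] at h2
    have hv := hvt v h1 h2
    constructor
    · have := rJ v
      rwa [j1 hv, j1 (hrD v hv)] at this
    · have := rX v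
      rwa [x1 hv, x1 (hrD v hv)] at this
  · rfl
  · rfl
  · rfl
  · rfl

end Pool.Agent.SWT36
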