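import Mathlib
import Pool.Agent.SWT36.LocShape
import Pool.Agent.SWT45.Stmts

/-!
# The congruence: reduction to the flows without sources and sinks
-/

set_option autoImplicit false

namespace Pool.Agent.SWT36

open Equiv Pool.Agent.SWT80 Pool.Agent.SWT45
open scoped Classical

variable {V : Type} {n : ℕ}

/-! ### Legs and real vertices of graphs with the same frame -/

section Frame

variable {r0 : V → V} {D : V → Prop} {e0 : Perm V} {l0 : Fin n → V} {x y : V} {G G' : Gr V n}
  {p q s t p' q' s' t' : V}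

theorem lg_iff (h : Sh r0 D e0 l0 x y G p q s t) (v : V) :
    Lg G v ↔ (∃ i, l0 i = v) ∨ (∃ i, l0 i = e0 v) := by
  unfold Lg
  rw [G.fix, G.fix, h.l, h.e]

theorem lg_eq (h : Sh r0 D e0 l0 x y G p q s t) (h' : Sh r0 D e0 l0 x y G' p' q' s' t') (v : V) :
    Lg G v ↔ Lg G' v := by
  rw [lg_iff h, lg_iff h']

theorem real_out (h : Sh r0 D e0 l0 x y G p q s t) (h' : Sh r0 D e0 l0 x y G' p' q' s' t') {v : V}
    (hv : ¬ D v) : SWT45.Real G v ↔ SWT45.Real G' v := by
  unfold SWT45.Real
  rw [h.or2 hv, h'.or2 hv, h.o v hv, h'.o v hv, lg_eq h h', lg_eq h h', lg_eq h h']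

/-- No legs at the two vertices. -/
theorem real_card_eq [Fintype V] (h : Sh r0 D e0 l0 x y G p q s t)
    (h' : Sh r0 D e0 l0 x y G' p' q' s' t') (hL : ∀ v, D v → ¬ Lg G v) :
    (Finset.univ.filter fun v => SWT45.Real G' v).card = (Finset.univ.filter fun v => SWT45.Real G v).card := by
  congr 1
  ext v
  rw [Finset.mem_filter, Finset.mem_filter]
  by_cases hv : D v
  · have h1 : SWT45.Real G v := ⟨hL _ hv, hL _ (h.r_D hv), hL _ (h.r_D (h.r_D hv))⟩
    have h2 : SWT45.Real G' v := by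
      unfold SWT45.Real
      rw [← lg_eq h h', ← lg_eq h h', ← lg_eq h h']
      exact ⟨hL _ hv, hL _ (h'.r_D hv), hL _ (h'.r_D (h'.r_D hv))⟩
    exact ⟨fun _ => ⟨Finset.mem_univ _, h1⟩, fun _ => ⟨Finset.mem_univ _, h2⟩⟩
  · rw [real_out h h' hv]

theorem nd_iff {x y p q s t : V} (h : [x, y, p, q, s, t].Nodup) :
    ((x ≠ y ∧ x ≠ p ∧ x ≠ q ∧ x ≠ s ∧ x ≠ t) ∧ (y ≠ p ∧ y ≠ q ∧ y ≠ s ∧ y ≠ t) ∧
      (p ≠ q ∧ p ≠ s ∧ p ≠ t) ∧ (q ≠ s ∧ q ≠ t) ∧ s ≠ t) := by
  simp only [List.nodup_cons, List.mem_cons, List.not_mem_nil, or_false, not_or,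
    not_false_eq_true, and_true, List.nodup_nil] at h
  exact h

/-- One leg at the two vertices. -/
theorem card3 [Fintype V] (h : Sh r0 D e0 l0 x y G p q s t) {z : V} (hz : D z) (hzx : z ≠ x)
    (hzy : z ≠ y) (hL : ∀ v, D v → (Lg G v ↔ v = z)) :
    ((Finset.univ.filter fun v => SWT45.Real G v).filter D).card = 3 := by
  obtain ⟨⟨n1, n2, n3, n4, n5⟩, ⟨n6, n7, n8, n9⟩, ⟨n10, n11, n12⟩, ⟨n13, n14⟩, n15⟩ := nd_iff h.nd
  have key : ∀ v, D v → (Real G v ↔ (v ≠ z ∧ G.r v ≠ z ∧ G.r (G.r v) ≠ z)) := fun v hv => by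
    unfold SWT45.Real
    rw [hL _ hv, hL _ (h.r_D hv), hL _ (h.r_D (h.r_D hv))]
  have c3 : ∀ {a b c : V}, a ≠ b → a ≠ c → b ≠ c → ({a, b, c} : Finset V).card = 3 :=
    fun h1 h2 h3 => Finset.card_eq_three.2 ⟨_, _, _, h1, h2, h3, rfl⟩
  have dx : D x := (h.m x).2 (Or.inl rfl)
  have dy : D y := (h.m y).2 (Or.inr (Or.inl rfl))
  have dp : D p := (h.m p).2 (Or.inr (Or.inr (Or.inl rfl)))
  have dq : D q := (h.m q).2 (Or.inr (Or.inr (Or.inr (Or.inl rfl))))
  have ds : D s := (h.m s).2 (Or.inr (Or.inr (Or.inr (Or.inr (Or.inl rfl)))))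
  have dt : D t := (h.m t).2 (Or.inr (Or.inr (Or.inr (Or.inr (Or.inr rfl)))))
  have kx := key x dx
  have ky := key y dy
  have kp := key p dp
  have kq := key q dq
  have ks := key s ds
  have kt := key t dt
  rw [h.h1, h.h2] at kx
  rw [h.h3, h.h4] at ky
  rw [h.h2, h.h5] at kp
  rw [h.h5, h.h1] at kq
  rw [h.h4, h.h6] at ks
  rw [h.h6, h.h3] at kt
  have hzc : (z = p ∨ z = q) ∨ (z = s ∨ z = t) := by
    rcases (h.m z).1 hz with h1 | h1 | h1 | h1 | h1 | h1
    · exact absurd h1 hzx
    · exact absurd h1 hzy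
    · exact Or.inl (Or.inl h1)
    · exact Or.inl (Or.inr h1)
    · exact Or.inr (Or.inl h1)
    · exact Or.inr (Or.inr h1)
  rcases hzc with hzc | hzc
  · rw [← c3 n8 n9 n15]
    congr 1
    ext v
    simp only [Finset.mem_filter, Finset.mem_univ, true_and, Finset.mem_insert,
      Finset.mem_singleton]
    constructor
    · rintro ⟨h1, h2⟩
      rcases (h.m v).1 h2 with rfl | rfl | rfl | rfl | rfl | rfl
      · rw [kx] at h1
        rcases hzc with rfl | rfl
        · exact absurd rfl h1.2.1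
        · exact absurd rfl h1.2.2
      · exact Or.inl rfl
      · rw [kp] at h1
        rcases hzc with rfl | rfl
        · exact absurd rfl h1.1
        · exact absurd rfl h1.2.1
      · rw [kq] at h1
        rcases hzc with rfl | rfl
        · exact absurd rfl h1.2.2
        · exact absurd rfl h1.1
      · exact Or.inr (Or.inl rfl)
      · exact Or.inr (Or.inr rfl)
    · rintro (rfl | rfl | rfl)
      · refine ⟨ky.2 ⟨hzy.symm, ?_, ?_⟩, dy⟩
        · rcases hzc with rfl | rfl
          · exact n11.symm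
          · exact n13.symm
        · rcases hzc with rfl | rfl
          · exact n12.symm
          · exact n14.symm
      · refine ⟨ks.2 ⟨?_, ?_, hzy.symm⟩, ds⟩
        · rcases hzc with rfl | rfl
          · exact n11.symm
          · exact n13.symm
        · rcases hzc with rfl | rfl
          · exact n12.symm
          · exact n14.symm
      · refine ⟨kt.2 ⟨?_, hzy.symm, ?_⟩, dt⟩
        · rcases hzc with rfl | rfl
          · exact n12.symm
          · exact n14.symm
        · rcases hzc with rfl | rfl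
          · exact n11.symm
          · exact n13.symm
  · rw [← c3 n2 n3 n10]
    congr 1
    ext v
    simp only [Finset.mem_filter, Finset.mem_univ, true_and, Finset.mem_insert,
      Finset.mem_singleton]
    constructor
    · rintro ⟨h1, h2⟩
      rcases (h.m v).1 h2 with rfl | rfl | rfl | rfl | rfl | rfl
      · exact Or.inl rfl
      · rw [ky] at h1
        rcases hzc with rfl | rfl
        · exact absurd rfl h1.2.1
        · exact absurd rfl h1.2.2
      · exact Or.inr (Or.inl rfl)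
      · exact Or.inr (Or.inr rfl)
      · rw [ks] at h1
        rcases hzc with rfl | rfl
        · exact absurd rfl h1.1
        · exact absurd rfl h1.2.1
      · rw [kt] at h1
        rcases hzc with rfl | rfl
        · exact absurd rfl h1.2.2
        · exact absurd rfl h1.1
    · rintro (rfl | rfl | rfl)
      · refine ⟨kx.2 ⟨hzx.symm, ?_, ?_⟩, dx⟩
        · rcases hzc with rfl | rfl
          · exact n11
          · exact n12
        · rcases hzc with rfl | rfl
          · exact n13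
          · exact n14
      · refine ⟨kp.2 ⟨?_, ?_, hzx.symm⟩, dp⟩
        · rcases hzc with rfl | rfl
          · exact n11
          · exact n12
        · rcases hzc with rfl | rfl
          · exact n13
          · exact n14
      · refine ⟨kq.2 ⟨?_, hzx.symm, ?_⟩, dq⟩
        · rcases hzc with rfl | rfl
          · exact n13
          · exact n14
        · rcases hzc with rfl | rfl
          · exact n11
          · exact n12

theorem real_card_eq' [Fintype V] (h : Sh r0 D e0 l0 x y G p q s t)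
    (h' : Sh r0 D e0 l0 x y G' p' q' s' t') {z : V} (hz : D z) (hzx : z ≠ x)
    (hzy : z ≠ y) (hL : ∀ v, D v → (Lg G v ↔ v = z)) :
    (Finset.univ.filter fun v => SWT45.Real G' v).card = (Finset.univ.filter fun v => SWT45.Real G v).card := by
  rw [← Finset.card_filter_add_card_filter_not D (s := Finset.univ.filter fun v => SWT45.Real G v),
    ← Finset.card_filter_add_card_filter_not D (s := Finset.univ.filter fun v => SWT45.Real G' v),
    card3 h hz hzx hzy hL, card3 h' hz hzx hzy fun v hv => by rw [← lg_eq h h', hL v hv]]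
  congr 2
  ext v
  simp only [Finset.mem_filter, Finset.mem_univ, true_and]
  constructor
  · rintro ⟨h1, h2⟩
    exact ⟨(real_out h h' h2).2 h1, h2⟩
  · rintro ⟨h1, h2⟩
    exact ⟨(real_out h h' h2).1 h1, h2⟩

/-! ### Flows -/

theorem exists_flow (h : Sh r0 D e0 l0 x y G p q s t) (h' : Sh r0 D e0 l0 x y G' p' q' s' t')
    (hxy : e0 x = y) {φ : V → ZMod 3} (hφ : Flow G φ) (hs : φ p' + φ q' + φ s' + φ t' = 0) :
    ∃ ψ, Flow G' ψ ∧ (∀ v, v ≠ x → v ≠ y → ψ v = φ v) ∧ ψ x = -(φ p' + φ q') ∧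
      ψ y = φ p' + φ q' := by
  obtain ⟨⟨n1, n2, n3, n4, n5⟩, ⟨n6, n7, n8, n9⟩, -, -, -⟩ := nd_iff h'.nd
  let ψ : V → ZMod 3 := fun v => if v = x then -(φ p' + φ q') else if v = y then φ p' + φ q' else φ v
  have px : ψ x = -(φ p' + φ q') := if_pos rfl
  have py : ψ y = φ p' + φ q' := (if_neg n1.symm).trans (if_pos rfl)
  have po : ∀ v, v ≠ x → v ≠ y → ψ v = φ v := fun v h1 h2 => (if_neg h1).trans (if_neg h2)
  have hyx : e0 y = x := by rw [← hxy, ← h.e, G.e2]
  have hDx : D x := (h.m x).2 (Or.inl rfl)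
  have hDy : D y := (h.m y).2 (Or.inr (Or.inl rfl))
  have pd : ∀ v, ¬ D v → ψ v = φ v := fun v hv =>
    po v (fun h' => hv (h' ▸ hDx)) (fun h' => hv (h' ▸ hDy))
  refine ⟨ψ, ⟨fun v => ?_, fun v => ?_, fun v hv => ?_⟩, po, px, py⟩
  · rw [h'.e]
    by_cases h1 : v = x
    · rw [h1, hxy, px, py, neg_neg]
    by_cases h2 : v = y
    · rw [h2, hyx, px, py]
    rw [po v h1 h2, po, ← h.e, hφ.e]
    · intro h3
      apply h2
      rw [← hxy, ← h3, ← h.e, G.e2]
    · intro h3
      apply h1
      rw [← hyx, ← h3, ← h.e, G.e2]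
  · by_cases hv : D v
    · have e1 : ψ x + ψ p' + ψ q' = 0 := by
        rw [px, po p' n2.symm n6.symm, po q' n3.symm n7.symm]
        ring
      have e2 : ψ y + ψ s' + ψ t' = 0 := by
        rw [py, po s' n4.symm n8.symm, po t' n5.symm n9.symm]
        exact hs
      rcases (h'.m v).1 hv with rfl | rfl | rfl | rfl | rfl | rfl
      · rw [h'.h1, h'.h2, e1]
      · rw [h'.h3, h'.h4, e2]
      · rw [h'.h2, h'.h5, ← e1]
        ring
      · rw [h'.h5, h'.h1, ← e1]
        ring
      · rw [h'.h4, h'.h6, ← e2]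
        ring
      · rw [h'.h6, h'.h3, ← e2]
        ring
    · have h1 : ¬ D (r0 v) := by
        rw [← h.o v hv, h.D_r]
        exact hv
      have h2 : ¬ D (r0 (r0 v)) := by
        rw [← h.or2 hv, h.D_r, h.D_r]
        exact hv
      rw [h'.or2 hv, h'.o v hv, pd _ hv, pd _ h1, pd _ h2, ← h.or2 hv, ← h.o v hv]
      exact hφ.r v
  · have hD : ¬ D v := fun h1 => h'.r_ne h1 hv
    rw [pd v hD]
    apply hφ.leg
    rw [h.o v hD, ← h'.o v hD, hv]

end Frame

/-! ### Walks from a source to a sink -/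

/-- From the half-edge `v` (of flow `f`) a walk with `k` steps leads to a vertex where all three
flows are `-f`. -/
def Wk (G : Gr V n) (φ : V → ZMod 3) (f : ZMod 3) : ℕ → V → Prop
  | 0, v => φ (G.r (G.e v)) = -f ∧ φ (G.r (G.r (G.e v))) = -f
  | k + 1, v => (φ (G.r (G.e v)) = f ∧ Wk G φ f k (G.r (G.e v))) ∨
      (φ (G.r (G.r (G.e v))) = f ∧ Wk G φ f k (G.r (G.r (G.e v))))

theorem z3a : ∀ f a b : ZMod 3, f ≠ 0 → -f + a + b = 0 → a = f ∨ b = f ∨ (a = -f ∧ b = -f) := by
  decide

theorem z3b : ∀ f : ZMod 3, f ≠ 0 → -f ≠ f := by decide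

theorem z3c : ∀ f : ZMod 3, f ≠ 0 → f + -f + -f ≠ 0 := by decide

theorem z3d : ∀ f : ZMod 3, -(f + f) = f := by decide

theorem z3f : ∀ f : ZMod 3, f + f + f = 0 := by decide

theorem z3g : ∀ f : ZMod 3, f ≠ 0 → f + f ≠ 0 := by decide

theorem exists_wk [Finite V] {G : Gr V n} {φ : V → ZMod 3} (hφ : Flow G φ) {f : ZMod 3}
    (hf : f ≠ 0) {v : V} (hv : φ v = f) (h1 : φ (G.r v) = f) (h2 : φ (G.r (G.r v)) = f) :
    ∃ k, Wk G φ f k v := by
  by_contra hno
  push Not at hno
  let S := {w : V // φ w = f ∧ ∀ k, ¬ Wk G φ f k w}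
  have hu : ∀ w : S, φ (G.e w.1) = -f := fun w => by rw [hφ.e, w.2.1]
  have hcase : ∀ w : S, φ (G.r (G.e w.1)) = f ∨ φ (G.r (G.r (G.e w.1))) = f := by
    intro w
    rcases z3a f _ _ hf (by rw [← hu w]; exact hφ.r _) with h3 | h3 | h3
    · exact Or.inl h3
    · exact Or.inr h3
    · exact absurd h3 (w.2.2 0)
  let nx : S → S := fun w => if h : φ (G.r (G.e w.1)) = f then
      ⟨G.r (G.e w.1), h, fun k hk => w.2.2 (k + 1) (Or.inl ⟨h, hk⟩)⟩ else
      ⟨G.r (G.r (G.e w.1)), (hcase w).resolve_left h,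
        fun k hk => w.2.2 (k + 1) (Or.inr ⟨(hcase w).resolve_left h, hk⟩)⟩
  have hnx : ∀ w : S, (nx w).1 = G.r (G.e w.1) ∨ (nx w).1 = G.r (G.r (G.e w.1)) := by
    intro w
    by_cases h : φ (G.r (G.e w.1)) = f
    · left
      show (if h : φ (G.r (G.e w.1)) = f then _ else _ : S).1 = _
      rw [dif_pos h]
    · right
      show (if h : φ (G.r (G.e w.1)) = f then _ else _ : S).1 = _
      rw [dif_neg h]
  have hbad : ∀ w w' : S, (nx w).1 = G.r (G.e w.1) → (nx w).1 = G.r (G.r (G.e w'.1)) → False := by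
    intro w w' h3 h4
    have h5 : G.e w.1 = G.r (G.e w'.1) := G.r_inj (h3.symm.trans h4)
    have h6 := hφ.r (G.e w'.1)
    rw [← h4, ← h5, hu, hu, (nx w).2.1] at h6
    apply z3c f hf
    rw [← h6]
    ring
  have hinj : Function.Injective nx := by
    intro w w' h
    have h0 : (nx w).1 = (nx w').1 := congrArg Subtype.val h
    apply Subtype.ext
    rcases hnx w with h3 | h3 <;> rcases hnx w' with h4 | h4
    · exact G.e_inj (G.r_inj (h3.symm.trans (h0.trans h4)))
    · exact (hbad w w' h3 (h0.trans h4)).elim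
    · exact (hbad w' w h4 (h0.symm.trans h3)).elim
    · exact G.e_inj (G.r_inj (G.r_inj (h3.symm.trans (h0.trans h4))))
  have hsur := Finite.surjective_of_injective hinj
  obtain ⟨w, hw⟩ := hsur ⟨v, hv, hno⟩
  have hw' : (nx w).1 = v := by rw [hw]
  have hne := z3b f hf
  rcases hnx w with h3 | h3
  · apply hne
    have h4 : G.e w.1 = G.r (G.r v) := by rw [← hw', h3, G.r3]
    exact (hu w).symm.trans ((congrArg φ h4).trans h2)
  · apply hne
    have h4 : G.e w.1 = G.r v := by rw [← hw', h3, G.r3]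
    exact (hu w).symm.trans ((congrArg φ h4).trans h1)

section Frame

variable {r0 : V → V} {D : V → Prop} {e0 : Perm V} {l0 : Fin n → V} {x y : V} {G G' : Gr V n}
  {p q s t p' q' s' t' : V}

theorem wk_move (h : Sh r0 D e0 l0 x y G p q s t) (h' : Sh r0 D e0 l0 x y G' p' q' s' t')
    (hxy : e0 x = y) {φ ψ : V → ZMod 3} (hφ : Flow G φ) (hψ : ∀ v, v ≠ x → v ≠ y → ψ v = φ v)
    {f : ZMod 3} (hD : ∀ v, D v → φ v = -f → v = y) :
    ∀ k w, w ≠ x → φ w = f → Wk G φ f k w → Wk G' ψ f k w := by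
  have hyx : e0 y = x := by rw [← hxy, ← h.e, G.e2]
  have hDx : D x := (h.m x).2 (Or.inl rfl)
  have hDy : D y := (h.m y).2 (Or.inr (Or.inl rfl))
  have pd : ∀ v, ¬ D v → ψ v = φ v := fun v hv =>
    hψ v (fun h' => hv (h' ▸ hDx)) (fun h' => hv (h' ▸ hDy))
  have hout : ∀ w, w ≠ x → φ w = f → ¬ D (e0 w) := by
    intro w hw hf hd
    have h1 : φ (e0 w) = -f := by rw [← h.e, hφ.e, hf]
    have h2 := hD _ hd h1
    apply hw
    rw [← hyx, ← h2, ← h.e, G.e2]
  have h1 : ∀ w, w ≠ x → φ w = f → ¬ D (r0 (e0 w)) := by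
    intro w hw hf
    rw [← h.o _ (hout w hw hf), h.D_r]
    exact hout w hw hf
  have h2 : ∀ w, w ≠ x → φ w = f → ¬ D (r0 (r0 (e0 w))) := by
    intro w hw hf
    rw [← h.or2 (hout w hw hf), h.D_r, h.D_r]
    exact hout w hw hf
  intro k
  induction k with
  | zero =>
    intro w hw hf hk
    have ho := hout w hw hf
    unfold Wk at hk ⊢
    rw [h.e, h.or2 ho, h.o _ ho] at hk
    rw [h'.e, h'.or2 ho, h'.o _ ho, pd _ (h1 w hw hf), pd _ (h2 w hw hf)]
    exact hk
  | succ k ih =>
    intro w hw hf hk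
    have ho := hout w hw hf
    unfold Wk at hk ⊢
    rw [h.e, h.or2 ho, h.o _ ho] at hk
    rw [h'.e, h'.or2 ho, h'.o _ ho, pd _ (h1 w hw hf), pd _ (h2 w hw hf)]
    rcases hk with ⟨h3, h4⟩ | ⟨h3, h4⟩
    · exact Or.inl ⟨h3, ih _ (fun h5 => h1 w hw hf (h5 ▸ hDx)) h3 h4⟩
    · exact Or.inr ⟨h3, ih _ (fun h5 => h2 w hw hf (h5 ▸ hDx)) h3 h4⟩

end Frame

theorem card_nz_eq [Fintype V] {φ ψ : V → ZMod 3} {x y : V}
    (h : ∀ v, v ≠ x → v ≠ y → ψ v = φ v) (hx : ψ x ≠ 0) (hy : ψ y ≠ 0) (hx' : φ x ≠ 0)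
    (hy' : φ y ≠ 0) :
    (Finset.univ.filter fun v => ψ v ≠ 0).card = (Finset.univ.filter fun v => φ v ≠ 0).card := by
  congr 1
  ext v
  rw [Finset.mem_filter, Finset.mem_filter]
  by_cases h1 : v = x
  · rw [h1]
    tauto
  by_cases h2 : v = y
  · rw [h2]
    tauto
  rw [h v h1 h2]

theorem card_nz_lt [Fintype V] {φ ψ : V → ZMod 3} {x y : V}
    (h : ∀ v, v ≠ x → v ≠ y → ψ v = φ v) (hx : ψ x = 0) (hy : ψ y = 0) (hx' : φ x ≠ 0) :
    (Finset.univ.filter fun v => ψ v ≠ 0).card < (Finset.univ.filter fun v => φ v ≠ 0).card := by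
  apply Finset.card_lt_card
  refine ⟨fun v hv => ?_, fun hss => ?_⟩
  · rw [Finset.mem_filter] at hv ⊢
    refine ⟨hv.1, ?_⟩
    by_cases h1 : v = x
    · rw [h1]
      exact hx'
    by_cases h2 : v = y
    · rw [h2, hy] at hv
      exact absurd rfl hv.2
    rw [← h v h1 h2]
    exact hv.2
  · have h1 : x ∈ Finset.univ.filter fun v => φ v ≠ 0 := by
      rw [Finset.mem_filter]
      exact ⟨Finset.mem_univ _, hx'⟩
    have h2 := hss h1
    rw [Finset.mem_filter] at h2
    exact h2.2 hx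

theorem flow_lg {G : Gr V n} {φ : V → ZMod 3} (hφ : Flow G φ) {v : V} (h : Lg G v) : φ v = 0 := by
  rcases h with h | h
  · exact hφ.leg v h
  · have h1 := hφ.leg _ h
    rw [hφ.e] at h1
    rw [← neg_neg (φ v), h1, neg_zero]

theorem ok_of {G : Gr V n} {φ : V → ZMod 3} (hφ : Flow G φ) {x : V} {f : ZMod 3} (hf : f ≠ 0)
    (hx : φ x = f) (ha : φ (G.r x) = f) (hb : φ (G.r (G.r x)) = f) : Gr.Ok G x := by
  have hy : φ (G.e x) = -f := by rw [hφ.e, hx]
  have hne := z3b f hf
  constructor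
  · intro h
    apply hf
    rw [← hx]
    exact hφ.leg x h
  · intro h
    apply neg_ne_zero.2 hf
    rw [← hy]
    exact hφ.leg _ h
  · intro h
    apply hne
    rw [← hy, h, ha]
  · intro h
    apply hne
    rw [← hy, h, hb]

/-- **The congruence** follows from the case without sources and sinks. -/
theorem cong_of (hb : S_base) (hi : S_Cihx) (hh : S_Chair) : S_cong := by
  intro V _ n
  suffices H : ∀ N : ℕ, ∀ (G : Gr V n) (φ : V → ZMod 3), Flow G φ →
      (Finset.univ.filter fun v => SWT45.Real G v).card = 24 →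
      (Finset.univ.filter fun v => φ v ≠ 0).card = N → (9 : ℤ) ∣ C G φ by
    intro G φ h1 h2
    exact H _ G φ h1 h2 rfl
  intro N
  induction N using Nat.strong_induction_on with
  | _ N IH =>
  have inner : ∀ (k : ℕ) (G : Gr V n) (φ : V → ZMod 3) (x : V) (f : ZMod 3), Flow G φ →
      (Finset.univ.filter fun v => SWT45.Real G v).card = 24 →
      (Finset.univ.filter fun v => φ v ≠ 0).card = N → f ≠ 0 → φ x = f → φ (G.r x) = f →
      φ (G.r (G.r x)) = f → Wk G φ f k x → (9 : ℤ) ∣ C G φ := by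
    intro k
    induction k with
    | zero =>
      intro G φ x f hφ h24 hN hf hx ha hb' hk
      have hne := z3b f hf
      have hy : φ (G.e x) = -f := by rw [hφ.e, hx]
      have ok := ok_of hφ hf hx ha hb'
      obtain ⟨J, X, hL⟩ := exists_loc ok
      obtain ⟨hc, hd⟩ := hk
      have sI := shI ok
      have sJ := shJ hL
      have sX := shX hL
      have nf : ∀ v, φ v ≠ 0 → ¬ Lg G v := fun v h1 h2 => h1 (flow_lg hφ h2)
      have hnf : -f ≠ 0 := neg_ne_zero.2 hf
      have hLg : ∀ v, DD G x v → ¬ Lg G v := by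
        rintro v (h' | h' | h' | h' | h' | h')
        · exact nf v (by rw [h', hx]; exact hf)
        · exact nf v (by rw [h', hy]; exact hnf)
        · exact nf v (by rw [h', ha]; exact hf)
        · exact nf v (by rw [h', hb']; exact hf)
        · exact nf v (by rw [h', hc]; exact hnf)
        · exact nf v (by rw [h', hd]; exact hnf)
      obtain ⟨ψ, hψ, oψ, ψx, ψy⟩ := exists_flow sI sJ rfl hφ (by
        rw [ha, hb', hc, hd]
        ring)
      obtain ⟨χ, hχ, oχ, χx, χy⟩ := exists_flow sI sX rfl hφ (by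
        rw [ha, hb', hc, hd]
        ring)
      rw [hb', hc, add_neg_cancel] at ψx ψy
      rw [ha, hc, add_neg_cancel] at χx χy
      rw [neg_zero] at ψx χx
      have r1 : SWT45.Real G x := ⟨nf _ (by rw [hx]; exact hf), nf _ (by rw [ha]; exact hf),
        nf _ (by rw [hb']; exact hf)⟩
      have r2 : SWT45.Real G (G.e x) := ⟨nf _ (by rw [hy]; exact hnf),
        nf _ (by rw [hc]; exact hnf), nf _ (by rw [hd]; exact hnf)⟩
      have e1 := hi V n G J X x hL φ ψ χ hφ hψ hχ oψ oχ r1 r2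
      have hx' : φ x ≠ 0 := by rw [hx]; exact hf
      have dJ := IH _ (by rw [← hN]; exact card_nz_lt oψ ψx ψy hx') J ψ hψ
        (by rw [real_card_eq sI sJ hLg, h24]) rfl
      have dX := IH _ (by rw [← hN]; exact card_nz_lt oχ χx χy hx') X χ hχ
        (by rw [real_card_eq sI sX hLg, h24]) rfl
      have e2 : C G φ = C J ψ - C X χ := by linarith
      rw [e2]
      exact dvd_sub dJ dX
    | succ k ih =>
      intro G φ x f hφ h24 hN hf hx ha hb' hk
      have hne := z3b f hf
      have hy : φ (G.e x) = -f := by rw [hφ.e, hx]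
      have ok := ok_of hφ hf hx ha hb'
      obtain ⟨J, X, hL⟩ := exists_loc ok
      have sI := shI ok
      have sJ := shJ hL
      have sX := shX hL
      have nf : ∀ v, φ v ≠ 0 → ¬ Lg G v := fun v h1 h2 => h1 (flow_lg hφ h2)
      have hnf : -f ≠ 0 := neg_ne_zero.2 hf
      have hnd := nd_iff sI.nd
      obtain ⟨⟨n1, n2, n3, n4, n5⟩, ⟨n6, n7, n8, n9⟩, ⟨n10, n11, n12⟩, ⟨n13, n14⟩, n15⟩ := hnd
      have hr := hφ.r (G.e x)
      -- the flows at the end of the edge
      have hcd : (φ (G.r (G.e x)) = f ∧ φ (G.r (G.r (G.e x))) = 0 ∧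
            Wk G φ f k (G.r (G.e x))) ∨
          (φ (G.r (G.e x)) = 0 ∧ φ (G.r (G.r (G.e x))) = f ∧ Wk G φ f k (G.r (G.r (G.e x)))) := by
        rw [hy] at hr
        rcases hk with ⟨h1, h2⟩ | ⟨h1, h2⟩
        · left
          rw [h1] at hr
          exact ⟨h1, by simpa using hr, h2⟩
        · right
          rw [h1] at hr
          refine ⟨?_, h1, h2⟩
          have : φ (G.r (G.e x)) = -f + φ (G.r (G.e x)) + f := by ring
          rw [this, hr]
      have hsum : φ (G.r (G.e x)) + φ (G.r (G.r (G.e x))) = f := by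
        rcases hcd with ⟨h1, h2, -⟩ | ⟨h1, h2, -⟩
        · rw [h1, h2, add_zero]
        · rw [h1, h2, zero_add]
      obtain ⟨ψ, hψ, oψ, ψx, ψy⟩ := exists_flow sI sJ rfl hφ (by
        rw [ha, hb', add_assoc f, hsum]
        exact z3f f)
      obtain ⟨χ, hχ, oχ, χx, χy⟩ := exists_flow sI sX rfl hφ (by
        rw [ha, hb', add_assoc f, hsum]
        exact z3f f)
      have r1 : SWT45.Real G x := ⟨nf _ (by rw [hx]; exact hf), nf _ (by rw [ha]; exact hf),
        nf _ (by rw [hb']; exact hf)⟩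
      have hx' : φ x ≠ 0 := by rw [hx]; exact hf
      have hy' : φ (G.e x) ≠ 0 := by rw [hy]; exact hnf
      have hDn : ∀ v, DD G x v → φ v = -f → v = G.e x := by
        rintro v (h' | h' | h' | h' | h' | h') hv
        · rw [h', hx] at hv
          exact absurd hv.symm hne
        · exact h'
        · rw [h', ha] at hv
          exact absurd hv.symm hne
        · rw [h', hb'] at hv
          exact absurd hv.symm hne
        · rw [h'] at hv
          rcases hcd with ⟨h1, -, -⟩ | ⟨h1, -, -⟩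
          · rw [h1] at hv
            exact absurd hv.symm hne
          · rw [h1] at hv
            exact absurd hv.symm hnf
        · rw [h'] at hv
          rcases hcd with ⟨-, h1, -⟩ | ⟨-, h1, -⟩
          · rw [h1] at hv
            exact absurd hv.symm hnf
          · rw [h1] at hv
            exact absurd hv.symm hne
      -- the congruence for `J` and `X` if the numbers of real half-edges agree
      have step : ∀ (_ : (Finset.univ.filter fun v => SWT45.Real J v).card = 24)
          (_ : (Finset.univ.filter fun v => SWT45.Real X v).card = 24),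
          (9 : ℤ) ∣ C J ψ ∧ (9 : ℤ) ∣ C X χ := by
        intro cJ cX
        have oψa : ψ (G.r x) = f := by rw [oψ _ n2.symm n6.symm, ha]
        have oψb : ψ (G.r (G.r x)) = f := by rw [oψ _ n3.symm n7.symm, hb']
        have oχa : χ (G.r x) = f := by rw [oχ _ n2.symm n6.symm, ha]
        have oχb : χ (G.r (G.r x)) = f := by rw [oχ _ n3.symm n7.symm, hb']
        rcases hcd with ⟨h1, h2, h3⟩ | ⟨h1, h2, h3⟩
        · rw [hb', h1] at ψx ψy
          rw [ha, h1] at χx χy
          rw [z3d] at ψx χx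
          have oψc : ψ (G.r (G.e x)) = f := by rw [oψ _ n4.symm n8.symm, h1]
          have oχc : χ (G.r (G.e x)) = f := by rw [oχ _ n4.symm n8.symm, h1]
          constructor
          · refine ih J ψ (G.r (G.e x)) f hψ cJ ?_ hf oψc ?_ ?_
              (wk_move sI sJ rfl hφ oψ hDn k _ n4.symm h1 h3)
            · rw [card_nz_eq oψ (by rw [ψx]; exact hf) (by rw [ψy]; exact z3g f hf) hx' hy', hN]
            · rw [sJ.h5, ψx]
            · rw [sJ.h5, sJ.h1, oψb]
          · refine ih X χ (G.r (G.e x)) f hχ cX ?_ hf oχc ?_ ?_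
              (wk_move sI sX rfl hφ oχ hDn k _ n4.symm h1 h3)
            · rw [card_nz_eq oχ (by rw [χx]; exact hf) (by rw [χy]; exact z3g f hf) hx' hy', hN]
            · rw [sX.h5, χx]
            · rw [sX.h5, sX.h1, oχa]
        · rw [hb', h1, add_zero] at ψx ψy
          rw [ha, h1, add_zero] at χx χy
          have oψd : ψ (G.r (G.r (G.e x))) = f := by rw [oψ _ n5.symm n9.symm, h2]
          have oχd : χ (G.r (G.r (G.e x))) = f := by rw [oχ _ n5.symm n9.symm, h2]
          constructor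
          · refine ih J ψ (G.r (G.r (G.e x))) f hψ cJ ?_ hf oψd ?_ ?_
              (wk_move sI sJ rfl hφ oψ hDn k _ n5.symm h2 h3)
            · rw [card_nz_eq oψ (by rw [ψx]; exact hnf) (by rw [ψy]; exact hf) hx' hy', hN]
            · rw [sJ.h4, oψa]
            · rw [sJ.h4, sJ.h6, ψy]
          · refine ih X χ (G.r (G.r (G.e x))) f hχ cX ?_ hf oχd ?_ ?_
              (wk_move sI sX rfl hφ oχ hDn k _ n5.symm h2 h3)
            · rw [card_nz_eq oχ (by rw [χx]; exact hnf) (by rw [χy]; exact hf) hx' hy', hN]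
            · rw [sX.h4, oχb]
            · rw [sX.h4, sX.h6, χy]
      have lx : ¬ Lg G x := nf _ hx'
      have ly : ¬ Lg G (G.e x) := nf _ hy'
      have la : ¬ Lg G (G.r x) := nf _ (by rw [ha]; exact hf)
      have lb : ¬ Lg G (G.r (G.r x)) := nf _ (by rw [hb']; exact hf)
      by_cases hl : Lg G (G.r (G.e x)) ∨ Lg G (G.r (G.r (G.e x)))
      · -- the next vertex is the end of a leg
        have cc : ∀ z, DD G x z → z ≠ x → z ≠ G.e x → (∀ v, DD G x v → (Lg G v ↔ v = z)) →
            (9 : ℤ) ∣ C G φ := by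
          intro z h1 h2 h3 h4
          have h5 := (step (by rw [real_card_eq' sI sJ h1 h2 h3 h4, h24])
            (by rw [real_card_eq' sI sX h1 h2 h3 h4, h24])).2
          rw [(hh V n G J X x hL φ ψ χ hφ hψ hχ oψ oχ hx' (by rw [ha, hx]) (by rw [hb', hx]) hl).2]
          exact h5
        rcases hcd with ⟨h1, h2, -⟩ | ⟨h1, h2, -⟩
        · have lc : ¬ Lg G (G.r (G.e x)) := nf _ (by rw [h1]; exact hf)
          have ld : Lg G (G.r (G.r (G.e x))) := hl.resolve_left lc
          refine cc _ (Or.inr (Or.inr (Or.inr (Or.inr (Or.inr rfl))))) n5.symm n9.symm ?_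
          rintro v (h' | h' | h' | h' | h' | h')
          · rw [h']; exact ⟨fun h => absurd h lx, fun h => absurd h n5⟩
          · rw [h']; exact ⟨fun h => absurd h ly, fun h => absurd h n9⟩
          · rw [h']; exact ⟨fun h => absurd h la, fun h => absurd h n12⟩
          · rw [h']; exact ⟨fun h => absurd h lb, fun h => absurd h n14⟩
          · rw [h']; exact ⟨fun h => absurd h lc, fun h => absurd h n15⟩
          · rw [h']; exact ⟨fun _ => rfl, fun _ => ld⟩
        · have ld : ¬ Lg G (G.r (G.r (G.e x))) := nf _ (by rw [h2]; exact hf)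
          have lc : Lg G (G.r (G.e x)) := hl.resolve_right ld
          refine cc _ (Or.inr (Or.inr (Or.inr (Or.inr (Or.inl rfl))))) n4.symm n8.symm ?_
          rintro v (h' | h' | h' | h' | h' | h')
          · rw [h']; exact ⟨fun h => absurd h lx, fun h => absurd h n4⟩
          · rw [h']; exact ⟨fun h => absurd h ly, fun h => absurd h n8⟩
          · rw [h']; exact ⟨fun h => absurd h la, fun h => absurd h n11⟩
          · rw [h']; exact ⟨fun h => absurd h lb, fun h => absurd h n13⟩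
          · rw [h']; exact ⟨fun _ => rfl, fun _ => lc⟩
          · rw [h']; exact ⟨fun h => absurd h ld, fun h => absurd h n15.symm⟩
      · -- the next vertex is not the end of a leg
        rw [not_or] at hl
        have hLg : ∀ v, DD G x v → ¬ Lg G v := by
          rintro v (h' | h' | h' | h' | h' | h')
          · rw [h']; exact lx
          · rw [h']; exact ly
          · rw [h']; exact la
          · rw [h']; exact lb
          · rw [h']; exact hl.1
          · rw [h']; exact hl.2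
        obtain ⟨dJ, dX⟩ := step (by rw [real_card_eq sI sJ hLg, h24])
          (by rw [real_card_eq sI sX hLg, h24])
        have e1 := hi V n G J X x hL φ ψ χ hφ hψ hχ oψ oχ r1 ⟨ly, hl.1, hl.2⟩
        have e2 : C G φ = C J ψ - C X χ := by linarith
        rw [e2]
        exact dvd_sub dJ dX
  intro G φ hφ h24 hN
  by_cases hs : ∃ v, φ v ≠ 0 ∧ φ (G.r v) = φ v ∧ φ (G.r (G.r v)) = φ v
  · obtain ⟨v, h1, h2, h3⟩ := hs
    obtain ⟨k, hk⟩ := exists_wk hφ h1 rfl h2 h3
    exact inner k G φ v (φ v) hφ h24 hN h1 rfl h2 h3 hk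
  · push Not at hs
    exact hb V n G φ hφ h24 fun v h1 h2 => hs v h1 h2.1 h2.2

end Pool.Agent.SWT36
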