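import Mathlib
import Pool.Agent.SWT36.LocShape

/-!
# The face lemma

If `Psi` is invariant under isomorphisms and under the planar move
`(x, a, b), (y, c, d)` to `(x, b, c), (y, d, a)` of cyclic orders, then the alternating sum of its
values over the reversals of the inner vertices satisfies AS and IHX.
-/

set_option autoImplicit false

namespace Pool.Agent.SWT36

open Equiv Pool.Agent.SWT80

variable {V W : Type} {n : ℕ}

/-- A union of inner vertices. -/
def IsVS (G : Gr V n) (S : Set V) : Prop := ∀ v ∈ S, G.r v ∈ S ∧ G.r v ≠ v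

/-- The unions of inner vertices. -/
def VS (G : Gr V n) : Type := {S : Set V // IsVS G S}

instance [Finite V] (G : Gr V n) : Finite (VS G) := by
  unfold VS
  infer_instance

theorem IsVS.mem_r {G : Gr V n} {S : Set V} (h : IsVS G S) {v : V} : G.r v ∈ S ↔ v ∈ S := by
  refine ⟨fun hv => ?_, fun hv => (h v hv).1⟩
  have h1 := (h _ (h _ hv).1).1
  rwa [G.r3] at h1

open Classical in
/-- The cyclic orders after the reversals of the vertices in `S`. -/
noncomputable def fsF (G : Gr V n) (S : Set V) (v : V) : V :=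
  if v ∈ S then G.r (G.r v) else G.r v

theorem fsF_pos (G : Gr V n) {S : Set V} {v : V} (h : v ∈ S) : fsF G S v = G.r (G.r v) := if_pos h

theorem fsF_neg (G : Gr V n) {S : Set V} {v : V} (h : v ∉ S) : fsF G S v = G.r v := if_neg h

theorem fsF3 (G : Gr V n) {S : Set V} (h : IsVS G S) (v : V) :
    fsF G S (fsF G S (fsF G S v)) = v := by
  by_cases hv : v ∈ S
  · have h1 : G.r v ∈ S := h.mem_r.2 hv
    have h2 : G.r (G.r v) ∈ S := h.mem_r.2 h1
    rw [fsF_pos G hv, fsF_pos G h2, G.r3, fsF_pos G h1, G.r3]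
  · have h1 : G.r v ∉ S := fun h' => hv (h.mem_r.1 h')
    have h2 : G.r (G.r v) ∉ S := fun h' => h1 (h.mem_r.1 h')
    rw [fsF_neg G hv, fsF_neg G h1, fsF_neg G h2, G.r3]

/-- Reversal of the cyclic orders at the vertices in `S`. -/
noncomputable def fs (G : Gr V n) (S : VS G) : Gr V n :=
  G.withR (Gr.perm3 (fsF G S.1) (fsF3 G S.2)) (fsF3 G S.2) fun v => by
    rw [Gr.perm3_apply]
    by_cases hv : v ∈ S.1
    · rw [fsF_pos G hv]
      constructor
      · exact G.r2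
      · intro h
        rw [h, h]
    · rw [fsF_neg G hv]

theorem fs_e (G : Gr V n) (S : VS G) : (fs G S).e = G.e := rfl

theorem fs_leg (G : Gr V n) (S : VS G) : (fs G S).leg = G.leg := rfl

theorem fs_r (G : Gr V n) (S : VS G) (v : V) : (fs G S).r v = fsF G S.1 v := rfl

theorem fs_ext {G H : Gr V n} {S : VS G} {T : VS H} (he : G.e = H.e) (hl : G.leg = H.leg)
    (hr : ∀ v, fsF G S.1 v = fsF H T.1 v) : fs G S = fs H T :=
  Gr.ext he (Equiv.ext hr) hl

variable {M : Type} [AddCommGroup M]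

/-- The alternating sum over the reversals of the inner vertices. -/
noncomputable def Phi (Ψ : (V : Type) → Gr V n → M) (V : Type) (G : Gr V n) : M :=
  ∑ᶠ S : VS G, (-1 : ℤ) ^ S.1.ncard • Ψ V (fs G S)

variable {Ψ : (V : Type) → Gr V n → M}

/-! ### Isomorphisms -/

theorem isVS_map (f : V ≃ W) (G : Gr V n) {S : Set V} (h : IsVS G S) :
    IsVS (G.map f) (f '' S) := by
  rintro _ ⟨v, hv, rfl⟩
  rw [Gr.map_r]
  exact ⟨⟨_, (h v hv).1, rfl⟩, fun h' => (h v hv).2 (f.injective h')⟩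

/-- The unions of vertices of an isomorphic graph. -/
def mapVS (f : V ≃ W) (G : Gr V n) : VS G ≃ VS (G.map f) where
  toFun S := ⟨f '' S.1, isVS_map f G S.2⟩
  invFun T := ⟨f ⁻¹' T.1, fun v hv => by
    have h := T.2 (f v) hv
    rw [Gr.map_r] at h
    exact ⟨h.1, fun h' => h.2 (by rw [h'])⟩⟩
  left_inv S := Subtype.ext (Set.preimage_image_eq _ f.injective)
  right_inv T := Subtype.ext (Set.image_preimage_eq _ f.surjective)

theorem fs_map (f : V ≃ W) (G : Gr V n) (S : VS G) :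
    fs (G.map f) (mapVS f G S) = (fs G S).map f := by
  symm
  refine Gr.map_eq (fun v => ?_) (fun v => ?_) (fun i => rfl)
  · exact Gr.map_e f G v
  · rw [fs_r, fs_r]
    have hm : f v ∈ (mapVS f G S).1 ↔ v ∈ S.1 := f.injective.mem_set_image
    by_cases hv : v ∈ S.1
    · rw [fsF_pos _ (hm.2 hv), fsF_pos _ hv, Gr.map_r, Gr.map_r]
    · rw [fsF_neg _ (fun h' => hv (hm.1 h')), fsF_neg _ hv, Gr.map_r]

theorem phi_iso (iso : ∀ (V W : Type) [Finite V] (f : V ≃ W) (G : Gr V n), Ψ W (G.map f) = Ψ V G)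
    [Finite V] (f : V ≃ W) (G : Gr V n) : Phi Ψ W (G.map f) = Phi Ψ V G := by
  unfold Phi
  rw [← finsum_comp_equiv (mapVS f G)]
  apply finsum_congr
  intro S
  rw [fs_map, iso V W f]
  congr 2
  exact Set.ncard_image_of_injective _ f.injective

/-! ### AS -/

/-- The half-edges at the vertex of `x`. -/
def vts (G : Gr V n) (x : V) : Set V := {v | G.vt x v}

theorem vts_ncard (G : Gr V n) {x : V} (hx : G.r x ≠ x) : (vts G x).ncard = 3 := by
  have h1 : vts G x = {x, G.r x, G.r (G.r x)} := by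
    ext v
    simp only [vts, Gr.vt, Set.mem_ofPred_eq, Set.mem_insert_iff, Set.mem_singleton_iff]
  rw [h1]
  have h2 : G.r (G.r x) ≠ x := fun h => hx (G.r2 h)
  rw [Set.ncard_eq_three]
  exact ⟨_, _, _, hx.symm, h2.symm, fun h => hx (G.r_inj h).symm, rfl⟩

theorem isVS_vts (G : Gr V n) {x : V} (hx : G.r x ≠ x) : IsVS G (vts G x) := by
  intro v hv
  refine ⟨G.vt_r.2 hv, ?_⟩
  rcases hv with rfl | rfl | rfl
  · exact hx
  · exact fun h => hx (G.r_inj h)
  · exact fun h => hx (G.r_inj (G.r_inj h))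

theorem IsVS.symmDiff {G : Gr V n} {S T : Set V} (hS : IsVS G S) (hT : IsVS G T) :
    IsVS G (symmDiff S T) := by
  intro v hv
  rw [Set.mem_symmDiff] at hv
  refine ⟨?_, ?_⟩
  · rw [Set.mem_symmDiff, hS.mem_r, hT.mem_r]
    exact hv
  · rcases hv with hv | hv
    · exact (hS v hv.1).2
    · exact (hT v hv.1).2

theorem flip_isVS (G : Gr V n) (x : V) {S : Set V} (hS : IsVS G S) : IsVS (G.flip x) S := by
  intro v hv
  rw [Gr.flip_r]
  by_cases h : G.vt x v
  · rw [Gr.fr_pos h]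
    exact ⟨hS.mem_r.2 (hS.mem_r.2 hv), fun h' => (hS v hv).2 (G.r2 h')⟩
  · rw [Gr.fr_neg h]
    exact hS v hv

theorem flip_flip (G : Gr V n) (x : V) : (G.flip x).flip x = G := by
  have hv : ∀ v, (G.flip x).vt x v ↔ G.vt x v := by
    intro v
    have e1 : (G.flip x).r x = G.r (G.r x) := by
      rw [Gr.flip_r, Gr.fr_pos (Or.inl rfl)]
    have e2 : (G.flip x).r (G.r (G.r x)) = G.r x := by
      rw [Gr.flip_r, Gr.fr_pos (Or.inr (Or.inr rfl)), G.r3]
    unfold Gr.vt
    rw [e1, e2]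
    tauto
  refine Gr.ext rfl (Equiv.ext fun v => ?_) rfl
  rw [Gr.flip_r]
  by_cases h : G.vt x v
  · rw [Gr.fr_pos ((hv v).2 h), Gr.flip_r, Gr.flip_r, Gr.fr_pos h,
      Gr.fr_pos (G.vt_r.2 (G.vt_r.2 h)), G.r3]
  · rw [Gr.fr_neg (fun h' => h ((hv v).1 h')), Gr.flip_r, Gr.fr_neg h]

theorem isVS_flip (G : Gr V n) (x : V) {S : Set V} : IsVS (G.flip x) S ↔ IsVS G S := by
  refine ⟨fun h => ?_, flip_isVS G x⟩
  have h1 := flip_isVS (G.flip x) x h
  rwa [flip_flip] at h1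

/-- The unions of vertices before and after a reversal; the vertex of `x` is exchanged. -/
def flipVS (G : Gr V n) {x : V} (hx : G.r x ≠ x) : VS G ≃ VS (G.flip x) where
  toFun S := ⟨symmDiff S.1 (vts G x), flip_isVS G x (S.2.symmDiff (isVS_vts G hx))⟩
  invFun S := ⟨symmDiff S.1 (vts G x), ((isVS_flip G x).1 S.2).symmDiff (isVS_vts G hx)⟩
  left_inv _ := Subtype.ext (symmDiff_symmDiff_cancel_right _ _)
  right_inv _ := Subtype.ext (symmDiff_symmDiff_cancel_right _ _)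

theorem fs_flip (G : Gr V n) {x : V} (hx : G.r x ≠ x) (S : VS G) :
    fs (G.flip x) (flipVS G hx S) = fs G S := by
  refine fs_ext rfl rfl fun v => ?_
  have hm : v ∈ (flipVS G hx S).1 ↔ (v ∈ S.1 ∧ ¬ G.vt x v) ∨ (G.vt x v ∧ v ∉ S.1) :=
    Set.mem_symmDiff
  by_cases h : G.vt x v
  · by_cases hv : v ∈ S.1
    · have h1 : v ∉ (flipVS G hx S).1 := by
        rw [hm]
        tauto
      rw [fsF_neg _ h1, fsF_pos _ hv, Gr.flip_r, Gr.fr_pos h]
    · have h1 : v ∈ (flipVS G hx S).1 := by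
        rw [hm]
        tauto
      rw [fsF_pos _ h1, fsF_neg _ hv, Gr.flip_r, Gr.flip_r, Gr.fr_pos h,
        Gr.fr_pos (G.vt_r.2 (G.vt_r.2 h)), G.r3]
  · by_cases hv : v ∈ S.1
    · have h1 : v ∈ (flipVS G hx S).1 := by
        rw [hm]
        tauto
      rw [fsF_pos _ h1, fsF_pos _ hv, Gr.flip_r, Gr.flip_r, Gr.fr_neg h,
        Gr.fr_neg (fun h' => h (G.vt_r.1 h'))]
    · have h1 : v ∉ (flipVS G hx S).1 := by
        rw [hm]
        tauto
      rw [fsF_neg _ h1, fsF_neg _ hv, Gr.flip_r, Gr.fr_neg h]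

theorem neg_one_symmDiff [Finite V] (G : Gr V n) {x : V} (hx : G.r x ≠ x) {S : Set V}
    (hS : IsVS G S) : (-1 : ℤ) ^ (symmDiff S (vts G x)).ncard = -(-1) ^ S.ncard := by
  have h3 := vts_ncard G hx
  by_cases h : x ∈ S
  · have hsub : vts G x ⊆ S := by
      rintro v (rfl | rfl | rfl)
      · exact h
      · exact hS.mem_r.2 h
      · exact hS.mem_r.2 (hS.mem_r.2 h)
    have h1 : symmDiff S (vts G x) = S \ vts G x := by
      rw [Set.symmDiff_def, Set.sdiff_eq_empty.2 hsub, Set.union_empty]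
    have h2 := Set.ncard_sdiff_add_ncard_of_subset hsub
    rw [h3] at h2
    rw [h1, ← h2, pow_add]
    ring
  · have hdis : Disjoint S (vts G x) := by
      rw [Set.disjoint_left]
      rintro v hv (rfl | rfl | rfl)
      · exact h hv
      · exact h (hS.mem_r.1 hv)
      · exact h (hS.mem_r.1 (hS.mem_r.1 hv))
    have h1 : symmDiff S (vts G x) = S ∪ vts G x := hdis.symmDiff_eq_sup
    rw [h1, Set.ncard_union_eq hdis, h3, pow_add]
    ring

theorem phi_as [Finite V] (G : Gr V n) {x : V} (hx : G.r x ≠ x) :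
    Phi Ψ V (G.flip x) = - Phi Ψ V G := by
  unfold Phi
  rw [← finsum_comp_equiv (flipVS G hx), ← finsum_neg_distrib]
  apply finsum_congr
  intro S
  rw [fs_flip]
  show (-1 : ℤ) ^ (symmDiff S.1 (vts G x)).ncard • _ = _
  rw [neg_one_symmDiff G hx S.2, neg_smul]

/-! ### IHX -/

section Frame

variable {r0 : V → V} {D : V → Prop} {e0 : Perm V} {l0 : Fin n → V} {x y : V} {G G' : Gr V n}
  {p q s t : V}

theorem nodup_iff6 {x y p q s t : V} (h : [x, y, p, q, s, t].Nodup) :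
    ((x ≠ y ∧ x ≠ p ∧ x ≠ q ∧ x ≠ s ∧ x ≠ t) ∧ (y ≠ p ∧ y ≠ q ∧ y ≠ s ∧ y ≠ t) ∧
      (p ≠ q ∧ p ≠ s ∧ p ≠ t) ∧ (q ≠ s ∧ q ≠ t) ∧ s ≠ t) := by
  simp only [List.nodup_cons, List.mem_cons, List.not_mem_nil, or_false, not_or,
    not_false_eq_true, and_true, List.nodup_nil] at h
  exact h

theorem Sh.ok (h : Sh r0 D e0 l0 x y G p q s t) (hxy : e0 x = y) : Gr.Ok G x := by
  have hnd := h.nd
  simp only [List.nodup_cons, List.mem_cons, List.not_mem_nil, or_false, not_or,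
    not_false_eq_true, and_true, List.nodup_nil] at hnd
  obtain ⟨⟨n1, n2, n3, n4, n5⟩, ⟨n6, n7, n8, n9⟩, ⟨n10, n11, n12⟩, ⟨n13, n14⟩, n15⟩ := hnd
  have he : G.e x = y := by rw [h.e, hxy]
  refine ⟨h.nx, ?_, ?_, ?_⟩
  · rw [he]
    exact h.ny
  · rw [he, h.h1]
    exact n6
  · rw [he, h.h1, h.h2]
    exact n7

omit [AddCommGroup M] in
/-- The planar move in the language of shapes. -/
theorem Sh.rot (pl : ∀ (V : Type) [Finite V] (I J X : Gr V n) (x : V), Gr.Loc I J X x →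
    Ψ V I = Ψ V J) [Finite V] (hxy : e0 x = y) (h : Sh r0 D e0 l0 x y G p q s t)
    (h' : Sh r0 D e0 l0 x y G' q s t p) : Ψ V G = Ψ V G' := by
  obtain ⟨J, X, hL⟩ := exists_loc (h.ok hxy)
  have he : G.e x = y := by rw [h.e, hxy]
  have hJ : J = G' := by
    refine Sh.uniq (r0 := r0) (D := D) (e0 := e0) (l0 := l0) (x := x) (y := y)
      (p := q) (q := s) (s := t) (t := p) ?_ h'
    constructor
    · rw [hL.eJ, h.e]
    · rw [hL.lJ, h.l]
    · rw [hL.j1, h.h1, h.h2]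
    · have := hL.j2
      rwa [h.h1, h.h2, he, h.h3] at this
    · have := hL.j4
      rwa [he, h.h3, h.h4] at this
    · have := hL.j5
      rwa [he, h.h3, h.h4, h.h1] at this
    · exact h'.nd
    · exact h'.m
    · intro v hv
      have h1 : ¬ G.vt x v ∧ ¬ G.vt (G.e x) v := by
        unfold Gr.vt
        rw [he, h.h1, h.h2, h.h3, h.h4]
        have := hv
        rw [h.m] at this
        tauto
      rw [(hL.oth v h1.1 h1.2).1, h.o v hv]
  rw [← hJ]
  exact pl V G J X x hL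

/-- The unions of vertices outside `D`. -/
def OS (r0 : V → V) (D : V → Prop) : Type :=
  {S : Set V // ∀ v ∈ S, ¬ D v ∧ r0 v ∈ S ∧ r0 v ≠ v}

instance [Finite V] (r0 : V → V) (D : V → Prop) : Finite (OS r0 D) := by
  unfold OS
  infer_instance

open Classical in
/-- The union of `S` with the vertices of `x` and `y`, if desired. -/
def addS (x y p q s t : V) (S : Set V) (b c : Bool) : Set V :=
  {v | v ∈ S ∨ (b = true ∧ (v = x ∨ v = p ∨ v = q)) ∨ (c = true ∧ (v = y ∨ v = s ∨ v = t))}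

theorem Sh.isVS (h : Sh r0 D e0 l0 x y G p q s t) (S : OS r0 D) (b c : Bool) :
    IsVS G (addS x y p q s t S.1 b c) := by
  intro v hv
  have dx : D x := (h.m x).2 (Or.inl rfl)
  rcases hv with hv | ⟨hb, hv⟩ | ⟨hc, hv⟩
  · obtain ⟨h1, h2, h3⟩ := S.2 v hv
    rw [h.o v h1]
    exact ⟨Or.inl h2, h3⟩
  · have hDv : D v := by
      rw [h.m]
      tauto
    refine ⟨Or.inr (Or.inl ⟨hb, ?_⟩), h.r_ne hDv⟩
    rcases hv with rfl | rfl | rfl
    · rw [h.h1]; tauto
    · rw [h.h2]; tauto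
    · rw [h.h5]; tauto
  · have hDv : D v := by
      rw [h.m]
      tauto
    refine ⟨Or.inr (Or.inr ⟨hc, ?_⟩), h.r_ne hDv⟩
    rcases hv with rfl | rfl | rfl
    · rw [h.h3]; tauto
    · rw [h.h4]; tauto
    · rw [h.h6]; tauto

open Classical in
/-- The unions of vertices: a union of vertices outside `D` and the choices for `x` and `y`. -/
noncomputable def Sh.eqv (h : Sh r0 D e0 l0 x y G p q s t) : OS r0 D × Bool × Bool ≃ VS G where
  toFun T := ⟨addS x y p q s t T.1.1 T.2.1 T.2.2, h.isVS T.1 T.2.1 T.2.2⟩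
  invFun S := (⟨{v | v ∈ S.1 ∧ ¬ D v}, fun v hv => ⟨hv.2, by
    rw [← h.o v hv.2]
    exact ⟨⟨S.2.mem_r.2 hv.1, fun h' => hv.2 (h.D_r.1 h')⟩, (S.2 v hv.1).2⟩⟩⟩,
    decide (x ∈ S.1), decide (y ∈ S.1))
  left_inv T := by
    obtain ⟨S, b, c⟩ := T
    have hnd := nodup_iff6 h.nd
    have dx : D x := (h.m x).2 (Or.inl rfl)
    have dy : D y := (h.m y).2 (Or.inr (Or.inl rfl))
    refine Prod.ext (Subtype.ext ?_) (Prod.ext ?_ ?_)
    · ext v
      show ((v ∈ S.1 ∨ (b = true ∧ (v = x ∨ v = p ∨ v = q)) ∨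
        (c = true ∧ (v = y ∨ v = s ∨ v = t))) ∧ ¬ D v) ↔ v ∈ S.1
      constructor
      · rintro ⟨h1 | ⟨-, h1⟩ | ⟨-, h1⟩, h2⟩
        · exact h1
        · exact absurd ((h.m v).2 (by tauto)) h2
        · exact absurd ((h.m v).2 (by tauto)) h2
      · intro h1
        exact ⟨Or.inl h1, (S.2 v h1).1⟩
    · refine Bool.eq_iff_iff.2 (decide_eq_true_iff.trans ?_)
      show (x ∈ S.1 ∨ (b = true ∧ (x = x ∨ x = p ∨ x = q)) ∨
        (c = true ∧ (x = y ∨ x = s ∨ x = t))) ↔ b = true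
      have h1 : x ∉ S.1 := fun h' => (S.2 x h').1 dx
      simp [h1, hnd.1]
    · refine Bool.eq_iff_iff.2 (decide_eq_true_iff.trans ?_)
      show (y ∈ S.1 ∨ (b = true ∧ (y = x ∨ y = p ∨ y = q)) ∨
        (c = true ∧ (y = y ∨ y = s ∨ y = t))) ↔ c = true
      have h1 : y ∉ S.1 := fun h' => (S.2 y h').1 dy
      simp [h1, hnd.1.1.symm, hnd.2.1]
  right_inv S := by
    refine Subtype.ext ?_
    ext v
    show ((v ∈ S.1 ∧ ¬ D v) ∨ (decide (x ∈ S.1) = true ∧ (v = x ∨ v = p ∨ v = q)) ∨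
        (decide (y ∈ S.1) = true ∧ (v = y ∨ v = s ∨ v = t))) ↔ v ∈ S.1
    have hp : p ∈ S.1 ↔ x ∈ S.1 := by rw [← h.h1]; exact S.2.mem_r
    have hq : q ∈ S.1 ↔ x ∈ S.1 := by rw [← h.h2, ← hp]; exact S.2.mem_r
    have hs : s ∈ S.1 ↔ y ∈ S.1 := by rw [← h.h3]; exact S.2.mem_r
    have ht : t ∈ S.1 ↔ y ∈ S.1 := by rw [← h.h4, ← hs]; exact S.2.mem_r
    rw [decide_eq_true_iff, decide_eq_true_iff]
    constructor
    · rintro (⟨h1, -⟩ | ⟨h1, rfl | rfl | rfl⟩ | ⟨h1, rfl | rfl | rfl⟩)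
      · exact h1
      · exact h1
      · exact hp.2 h1
      · exact hq.2 h1
      · exact h1
      · exact hs.2 h1
      · exact ht.2 h1
    · intro h1
      by_cases hD : D v
      · rcases (h.m v).1 hD with h2 | h2 | h2 | h2 | h2 | h2
        · exact Or.inr (Or.inl ⟨h2 ▸ h1, Or.inl h2⟩)
        · exact Or.inr (Or.inr ⟨h2 ▸ h1, Or.inl h2⟩)
        · exact Or.inr (Or.inl ⟨hp.1 (h2 ▸ h1), Or.inr (Or.inl h2)⟩)
        · exact Or.inr (Or.inl ⟨hq.1 (h2 ▸ h1), Or.inr (Or.inr h2)⟩)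
        · exact Or.inr (Or.inr ⟨hs.1 (h2 ▸ h1), Or.inr (Or.inl h2)⟩)
        · exact Or.inr (Or.inr ⟨ht.1 (h2 ▸ h1), Or.inr (Or.inr h2)⟩)
      · exact Or.inl ⟨h1, hD⟩

open Classical in
/-- The vertices outside `D` after the reversals in `S`. -/
noncomputable def rS (r0 : V → V) (S : Set V) (v : V) : V := if v ∈ S then r0 (r0 v) else r0 v

/-- The reversed graph is a shape again. -/
theorem Sh.fs (h : Sh r0 D e0 l0 x y G p q s t) (S : OS r0 D) (b c : Bool) :
    Sh (rS r0 S.1) D e0 l0 x y (fs G (h.eqv (S, b, c))) (if b then q else p) (if b then p else q)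
      (if c then t else s) (if c then s else t) := by
  have hnd := nodup_iff6 h.nd
  obtain ⟨⟨n1, n2, n3, n4, n5⟩, ⟨n6, n7, n8, n9⟩, ⟨n10, n11, n12⟩, ⟨n13, n14⟩, n15⟩ := hnd
  have dS : ∀ {v}, D v → v ∉ S.1 := fun hD h' => (S.2 _ h').1 hD
  have dx : D x := (h.m x).2 (Or.inl rfl)
  have dy : D y := (h.m y).2 (Or.inr (Or.inl rfl))
  have dp : D p := (h.m p).2 (Or.inr (Or.inr (Or.inl rfl)))
  have dq : D q := (h.m q).2 (Or.inr (Or.inr (Or.inr (Or.inl rfl))))
  have ds : D s := (h.m s).2 (Or.inr (Or.inr (Or.inr (Or.inr (Or.inl rfl)))))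
  have dt : D t := (h.m t).2 (Or.inr (Or.inr (Or.inr (Or.inr (Or.inr rfl)))))
  have hm : ∀ v, v ∈ (h.eqv (S, b, c)).1 ↔ (v ∈ S.1 ∨ (b = true ∧ (v = x ∨ v = p ∨ v = q)) ∨
    (c = true ∧ (v = y ∨ v = s ∨ v = t))) := fun v => Iff.rfl
  have mx : x ∈ (h.eqv (S, b, c)).1 ↔ b = true := by
    rw [hm]
    simp [dS dx, n1, n4, n5]
  have mp : p ∈ (h.eqv (S, b, c)).1 ↔ b = true := by
    rw [hm]
    simp [dS dp, n6.symm, n11, n12]
  have mq : q ∈ (h.eqv (S, b, c)).1 ↔ b = true := by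
    rw [hm]
    simp [dS dq, n7.symm, n13, n14]
  have my : y ∈ (h.eqv (S, b, c)).1 ↔ c = true := by
    rw [hm]
    simp [dS dy, n1.symm, n6, n7]
  have ms : s ∈ (h.eqv (S, b, c)).1 ↔ c = true := by
    rw [hm]
    simp [dS ds, n4.symm, n11.symm, n13.symm]
  have mt : t ∈ (h.eqv (S, b, c)).1 ↔ c = true := by
    rw [hm]
    simp [dS dt, n5.symm, n12.symm, n14.symm]
  have mo : ∀ v, ¬ D v → (v ∈ (h.eqv (S, b, c)).1 ↔ v ∈ S.1) := by
    intro v hv
    rw [hm]
    have h1 := hv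
    rw [h.m] at h1
    tauto
  have rx : (SWT36.fs G (h.eqv (S, b, c))).r x = if b then q else p := by
    rw [fs_r]
    cases b
    · rw [fsF_neg _ (by rw [mx]; decide), h.h1]; rfl
    · rw [fsF_pos _ (by rw [mx]), h.h1, h.h2]; rfl
  have rp : (SWT36.fs G (h.eqv (S, b, c))).r p = if b then x else q := by
    rw [fs_r]
    cases b
    · rw [fsF_neg _ (by rw [mp]; decide), h.h2]; rfl
    · rw [fsF_pos _ (by rw [mp]), h.h2, h.h5]; rfl
  have rq : (SWT36.fs G (h.eqv (S, b, c))).r q = if b then p else x := by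
    rw [fs_r]
    cases b
    · rw [fsF_neg _ (by rw [mq]; decide), h.h5]; rfl
    · rw [fsF_pos _ (by rw [mq]), h.h5, h.h1]; rfl
  have ry : (SWT36.fs G (h.eqv (S, b, c))).r y = if c then t else s := by
    rw [fs_r]
    cases c
    · rw [fsF_neg _ (by rw [my]; decide), h.h3]; rfl
    · rw [fsF_pos _ (by rw [my]), h.h3, h.h4]; rfl
  have rs : (SWT36.fs G (h.eqv (S, b, c))).r s = if c then y else t := by
    rw [fs_r]
    cases c
    · rw [fsF_neg _ (by rw [ms]; decide), h.h4]; rfl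
    · rw [fsF_pos _ (by rw [ms]), h.h4, h.h6]; rfl
  have rt : (SWT36.fs G (h.eqv (S, b, c))).r t = if c then s else y := by
    rw [fs_r]
    cases c
    · rw [fsF_neg _ (by rw [mt]; decide), h.h6]; rfl
    · rw [fsF_pos _ (by rw [mt]), h.h6, h.h3]; rfl
  constructor
  · rw [fs_e, h.e]
  · rw [fs_leg, h.l]
  · exact rx
  · cases b
    · exact rp
    · exact rq
  · exact ry
  · cases c
    · exact rs
    · exact rt
  · have h1 : ∀ u w : V, [x, y, p, q, u, w].Nodup → [x, y, q, p, u, w].Nodup := by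
      intro u w hu
      exact hu.perm (((List.Perm.swap q p [u, w]).cons y).cons x)
    have h2 : [x, y, p, q, t, s].Nodup :=
      h.nd.perm (((((List.Perm.swap t s []).cons q).cons p).cons y).cons x)
    cases b <;> cases c
    · exact h.nd
    · exact h2
    · exact h1 _ _ h.nd
    · exact h1 _ _ h2
  · intro v
    rw [h.m]
    cases b <;> cases c <;> simp only [if_true, if_false, Bool.false_eq_true] <;> tauto
  · intro v hv
    rw [fs_r]
    by_cases h1 : v ∈ S.1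
    · rw [fsF_pos _ ((mo v hv).2 h1), h.or2 hv]
      exact (if_pos h1).symm
    · rw [fsF_neg _ (fun h' => h1 ((mo v hv).1 h')), h.o v hv]
      exact (if_neg h1).symm

theorem Sh.sign [Finite V] (h : Sh r0 D e0 l0 x y G p q s t) (S : OS r0 D) (b c : Bool) :
    (-1 : ℤ) ^ (h.eqv (S, b, c)).1.ncard =
      (if b then -1 else 1) * ((if c then -1 else 1) * (-1) ^ S.1.ncard) := by
  have hnd := nodup_iff6 h.nd
  obtain ⟨⟨n1, n2, n3, n4, n5⟩, ⟨n6, n7, n8, n9⟩, ⟨n10, n11, n12⟩, ⟨n13, n14⟩, n15⟩ := hnd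
  have dS : ∀ {v}, D v → v ∉ S.1 := fun hD h' => (S.2 _ h').1 hD
  have dx : D x := (h.m x).2 (Or.inl rfl)
  have dy : D y := (h.m y).2 (Or.inr (Or.inl rfl))
  have dp : D p := (h.m p).2 (Or.inr (Or.inr (Or.inl rfl)))
  have dq : D q := (h.m q).2 (Or.inr (Or.inr (Or.inr (Or.inl rfl))))
  have ds : D s := (h.m s).2 (Or.inr (Or.inr (Or.inr (Or.inr (Or.inl rfl)))))
  have dt : D t := (h.m t).2 (Or.inr (Or.inr (Or.inr (Or.inr (Or.inr rfl)))))
  have c1 : ({x, p, q} : Set V).ncard = 3 := Set.ncard_eq_three.2 ⟨_, _, _, n2, n3, n10, rfl⟩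
  have c2 : ({y, s, t} : Set V).ncard = 3 := Set.ncard_eq_three.2 ⟨_, _, _, n8, n9, n15, rfl⟩
  have j1 : Disjoint S.1 {x, p, q} := by
    rw [Set.disjoint_left]
    rintro v hv (rfl | rfl | rfl)
    · exact dS dx hv
    · exact dS dp hv
    · exact dS dq hv
  have j2 : Disjoint S.1 {y, s, t} := by
    rw [Set.disjoint_left]
    rintro v hv (rfl | rfl | rfl)
    · exact dS dy hv
    · exact dS ds hv
    · exact dS dt hv
  have j3 : Disjoint ({x, p, q} : Set V) {y, s, t} := by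
    rw [Set.disjoint_left]
    rintro v (rfl | rfl | rfl) (h' | h' | h')
    · exact n1 h'
    · exact n4 h'
    · exact n5 h'
    · exact n6.symm h'
    · exact n11 h'
    · exact n12 h'
    · exact n7.symm h'
    · exact n13 h'
    · exact n14 h'
  have hm : (h.eqv (S, b, c)).1 = {v | v ∈ S.1 ∨ (b = true ∧ (v = x ∨ v = p ∨ v = q)) ∨
    (c = true ∧ (v = y ∨ v = s ∨ v = t))} := rfl
  cases b <;> cases c
  · have : (h.eqv (S, false, false)).1 = S.1 := by
      rw [hm]; ext v; simp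
    rw [this]; simp
  · have : (h.eqv (S, false, true)).1 = S.1 ∪ {y, s, t} := by
      rw [hm]; ext v; simp; tauto
    rw [this, Set.ncard_union_eq j2, c2, pow_add]; simp
  · have : (h.eqv (S, true, false)).1 = S.1 ∪ {x, p, q} := by
      rw [hm]; ext v; simp; tauto
    rw [this, Set.ncard_union_eq j1, c1, pow_add]; simp
  · have : (h.eqv (S, true, true)).1 = (S.1 ∪ {x, p, q}) ∪ {y, s, t} := by
      rw [hm]; ext v; simp; tauto
    rw [this, Set.ncard_union_eq (Set.disjoint_union_left.2 ⟨j2, j3⟩), Set.ncard_union_eq j1, c1,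
      c2, pow_add, pow_add]
    simp

/-- The alternating sum as a sum over the reversals outside `D` and at `x`, `y`. -/
theorem Sh.phi [Finite V] (h : Sh r0 D e0 l0 x y G p q s t) :
    Phi Ψ V G = ∑ᶠ S : OS r0 D, (-1 : ℤ) ^ S.1.ncard •
      (Ψ V (SWT36.fs G (h.eqv (S, false, false))) - Ψ V (SWT36.fs G (h.eqv (S, true, false))) -
        Ψ V (SWT36.fs G (h.eqv (S, false, true))) + Ψ V (SWT36.fs G (h.eqv (S, true, true)))) := by
  classical
  have : Fintype (OS r0 D) := Fintype.ofFinite _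
  unfold Phi
  rw [← finsum_comp_equiv h.eqv, finsum_eq_sum_of_fintype, Fintype.sum_prod_type,
    finsum_eq_sum_of_fintype]
  refine Finset.sum_congr rfl fun S _ => ?_
  rw [Fintype.sum_prod_type, Fintype.sum_bool, Fintype.sum_bool, Fintype.sum_bool,
    h.sign, h.sign, h.sign, h.sign]
  simp only [if_true, if_false, Bool.false_eq_true, one_mul, neg_mul, mul_neg, neg_neg, neg_smul]
  simp only [smul_add, smul_sub]
  abel

end Frame

/-- **The face lemma.** -/
theorem phi_rel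
    (iso : ∀ (V W : Type) [Finite V] (f : V ≃ W) (G : Gr V n), Ψ W (G.map f) = Ψ V G)
    (pl : ∀ (V : Type) [Finite V] (I J X : Gr V n) (x : V), Gr.Loc I J X x → Ψ V I = Ψ V J) :
    Rel (Phi Ψ) where
  iso V W _ f G := phi_iso iso f G
  as V _ G x hx := phi_as G hx
  ihx V _ I J X x hL := by
    have sI := shI hL.ok
    have sJ := shJ hL
    have sX := shX hL
    have : Fintype (OS I.r (DD I x)) := Fintype.ofFinite _
    rw [sI.phi, sJ.phi, sX.phi, finsum_eq_sum_of_fintype, finsum_eq_sum_of_fintype,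
      finsum_eq_sum_of_fintype, ← Finset.sum_sub_distrib]
    refine Finset.sum_congr rfl fun S _ => ?_
    rw [← smul_sub]
    congr 1
    have a1 := (sI.fs S false false).rot pl rfl (sJ.fs S false false)
    have a2 := (sI.fs S true false).rot pl rfl (sX.fs S false false)
    have a3 := (sX.fs S true true).rot pl rfl (sI.fs S false true)
    have a4 := (sJ.fs S true true).rot pl rfl (sI.fs S true true)
    have a5 := (sX.fs S false true).rot pl rfl (sJ.fs S true false)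
    have a6 := (sJ.fs S false true).rot pl rfl (sX.fs S true false)
    rw [a1, a2, ← a3, ← a4, a5, ← a6]
    abel

end Pool.Agent.SWT36
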