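import Mathlib
import Pool.Agent.SWT67.Rep
import Pool.Agent.SWT58.Rep
import Pool.Agent.SWT36.LocShape

/-!
# Sums over the inner vertices
-/

set_option autoImplicit false

namespace Pool.Agent.SWT36

open Equiv Pool.Agent.SWT80 Pool.Agent.SWT45
open scoped Classical

variable {V W M : Type} {n : ℕ} [AddCommGroup M]

theorem rep_sum {r : Perm V} {Q Q' : Finset V} {f : V → M} (h3 : ∀ v, r (r (r v)) = v)
    (hQ : IsRep r Q) (hQ' : IsRep r Q') (hf : ∀ v, f (r v) = f v) :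
    ∑ v ∈ Q, f v = ∑ v ∈ Q', f v := by
  have key : ∀ v ∈ Q, ∃ w ∈ Q', w = v ∨ w = r v ∨ w = r (r v) := by
    intro v hv
    rcases hQ'.ex v (hQ.nf v hv) with h | h | h
    · exact ⟨_, h, Or.inl rfl⟩
    · exact ⟨_, h, Or.inr (Or.inl rfl)⟩
    · exact ⟨_, h, Or.inr (Or.inr rfl)⟩
  choose! g hg1 hg2 using key
  have tr : ∀ {a b c : V}, (a = b ∨ a = r b ∨ a = r (r b)) → (c = b ∨ c = r b ∨ c = r (r b)) →
      a = c ∨ a = r c ∨ a = r (r c) := by
    intro a b c h1 h2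
    rcases h2 with rfl | rfl | rfl
    · exact h1
    · rw [h3]
      rcases h1 with h | h | h
      · exact Or.inr (Or.inr h)
      · exact Or.inl h
      · exact Or.inr (Or.inl h)
    · rw [h3]
      rcases h1 with h | h | h
      · exact Or.inr (Or.inl h)
      · exact Or.inr (Or.inr h)
      · exact Or.inl h
  have sy : ∀ {a b : V}, (a = b ∨ a = r b ∨ a = r (r b)) → b = a ∨ b = r a ∨ b = r (r a) := by
    intro a b h
    rcases h with rfl | rfl | rfl
    · exact Or.inl rfl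
    · exact Or.inr (Or.inr (h3 b).symm)
    · exact Or.inr (Or.inl (h3 b).symm)
  refine Finset.sum_bij (fun v _ => g v) (fun v hv => hg1 v hv) ?_ ?_ ?_
  · intro v hv w hw h
    refine Pool.Agent.SWT67.rep_eq hQ hw hv ?_
    have h1 := hg2 v hv
    have h2 := hg2 w hw
    rw [h] at h1
    exact tr (sy h1) (sy h2)
  · intro u hu
    obtain ⟨v, hv, hvu⟩ : ∃ v ∈ Q, v = u ∨ v = r u ∨ v = r (r u) := by
      rcases hQ.ex u (hQ'.nf u hu) with h | h | h
      · exact ⟨_, h, Or.inl rfl⟩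
      · exact ⟨_, h, Or.inr (Or.inl rfl)⟩
      · exact ⟨_, h, Or.inr (Or.inr rfl)⟩
    refine ⟨v, hv, ?_⟩
    refine Pool.Agent.SWT67.rep_eq hQ' hu (hg1 v hv) ?_
    exact tr (hg2 v hv) (sy hvu)
  · intro v hv
    rcases hg2 v hv with h | h | h
    · rw [h]
    · rw [h, hf]
    · rw [h, hf, hf]

/-- The sum over the inner vertices (`f` is constant on every vertex). -/
noncomputable def vs (G : Gr V n) (f : V → M) : M :=
  if h : ∃ Q, IsRep G.r Q then ∑ v ∈ h.choose, f v else 0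

theorem vs_eq (G : Gr V n) {Q : Finset V} (hQ : IsRep G.r Q) {f : V → M}
    (hf : ∀ v, f (G.r v) = f v) : vs G f = ∑ v ∈ Q, f v := by
  have h : ∃ Q, IsRep G.r Q := ⟨Q, hQ⟩
  unfold vs
  rw [dif_pos h]
  exact rep_sum G.r3 h.choose_spec hQ hf

theorem exists_isRep [Finite V] (G : Gr V n) : ∃ Q, IsRep G.r Q := by
  have : Fintype V := Fintype.ofFinite V
  exact Pool.Agent.SWT67.rep V G.r G.r3

theorem vs_map [Finite V] (f : V ≃ W) (G : Gr V n) {g : V → M} {g' : W → M}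
    (hg : ∀ v, g (G.r v) = g v) (h : ∀ v, g' (f v) = g v) : vs (G.map f) g' = vs G g := by
  obtain ⟨Q, hQ⟩ := exists_isRep G
  have hr : ∀ v, (G.map f).r (f v) = f (G.r v) := Gr.map_r f G
  rw [vs_eq G hQ hg, vs_eq (Q := Q.map f.toEmbedding) _
    (Pool.Agent.SWT58.isRep_map f hr hQ), Finset.sum_map]
  · exact Finset.sum_congr rfl fun v _ => h v
  · intro w
    obtain ⟨v, rfl⟩ := f.surjective w
    rw [hr, h, h, hg]

theorem vs_neg [Finite V] (G : Gr V n) {f : V → M} (hf : ∀ v, f (G.r v) = f v) :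
    vs G (fun v => - f v) = - vs G f := by
  obtain ⟨Q, hQ⟩ := exists_isRep G
  rw [vs_eq G hQ hf, vs_eq G hQ (fun v => by rw [hf]), Finset.sum_neg_distrib]

/-- Representatives of the vertices of `G` are representatives after a reversal. -/
theorem isRep_flip {G : Gr V n} {x : V} {Q : Finset V} (hQ : IsRep G.r Q) :
    IsRep (G.flip x).r Q := by
  have hn : ∀ v, (G.flip x).r v ≠ v ↔ G.r v ≠ v := by
    intro v
    rw [Gr.flip_r]
    by_cases h : G.vt x v
    · rw [Gr.fr_pos h]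
      exact ⟨fun h1 h2 => h1 (by rw [h2, h2]), fun h1 h2 => h1 (G.r2 h2)⟩
    · rw [Gr.fr_neg h]
  have h2 : ∀ v, ((G.flip x).r v = G.r v ∧ (G.flip x).r ((G.flip x).r v) = G.r (G.r v)) ∨
      ((G.flip x).r v = G.r (G.r v) ∧ (G.flip x).r ((G.flip x).r v) = G.r v) := by
    intro v
    rw [Gr.flip_r, Gr.flip_r]
    by_cases h : G.vt x v
    · right
      rw [Gr.fr_pos h, Gr.fr_pos (G.vt_r.2 (G.vt_r.2 h)), G.r3]
      exact ⟨rfl, rfl⟩
    · left
      rw [Gr.fr_neg h, Gr.fr_neg (fun h' => h (G.vt_r.1 h'))]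
      exact ⟨rfl, rfl⟩
  constructor
  · intro v hv
    rw [hn]
    exact hQ.nf v hv
  · intro v hv
    rw [hn] at hv
    rcases h2 v with ⟨h3, h4⟩ | ⟨h3, h4⟩ <;> rw [h3] at h4 ⊢ <;> rw [h4] <;>
      have := hQ.ex v hv <;> tauto
  · intro v hv
    rcases h2 v with ⟨h3, h4⟩ | ⟨h3, h4⟩ <;> rw [h3] at h4 ⊢ <;> rw [h4] <;>
      have := hQ.un v hv <;> tauto

theorem vs_flip [Finite V] (G : Gr V n) (x : V) {f : V → M} (hf : ∀ v, f (G.r v) = f v) :
    vs (G.flip x) f = vs G f := by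
  obtain ⟨Q, hQ⟩ := exists_isRep G
  rw [vs_eq G hQ hf, vs_eq (G.flip x) (isRep_flip hQ)]
  intro v
  rw [Gr.flip_r]
  by_cases h : G.vt x v
  · rw [Gr.fr_pos h, hf, hf]
  · rw [Gr.fr_neg h, hf]

section Frame

variable {r0 : V → V} {D : V → Prop} {e0 : Perm V} {l0 : Fin n → V} {x y : V} {G G' : Gr V n}
  {p q s t p' q' s' t' : V}

/-- The sum over the inner vertices: the vertices outside `D`, and the vertices of `x` and `y`. -/
theorem vs_shape [Finite V] (h : Sh r0 D e0 l0 x y G p q s t) {Q : Finset V} (hQ : IsRep G.r Q)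
    {f : V → M} (hf : ∀ v, f (G.r v) = f v) :
    vs G f = f x + f y + ∑ v ∈ Q.filter (fun v => ¬ D v), f v := by
  obtain ⟨⟨n1, n2, n3, n4, n5⟩, ⟨n6, n7, n8, n9⟩, ⟨n10, n11, n12⟩, ⟨n13, n14⟩, n15⟩ :
      ((x ≠ y ∧ x ≠ p ∧ x ≠ q ∧ x ≠ s ∧ x ≠ t) ∧ (y ≠ p ∧ y ≠ q ∧ y ≠ s ∧ y ≠ t) ∧
      (p ≠ q ∧ p ≠ s ∧ p ≠ t) ∧ (q ≠ s ∧ q ≠ t) ∧ s ≠ t) := by
    have := h.nd
    simp only [List.nodup_cons, List.mem_cons, List.not_mem_nil, or_false, not_or,
      not_false_eq_true, and_true, List.nodup_nil] at this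
    exact this
  have dx : D x := (h.m x).2 (Or.inl rfl)
  have dy : D y := (h.m y).2 (Or.inr (Or.inl rfl))
  have hx : x ∉ Q.filter (fun v => ¬ D v) := fun h' => (Finset.mem_filter.1 h').2 dx
  have hy : y ∉ Q.filter (fun v => ¬ D v) := fun h' => (Finset.mem_filter.1 h').2 dy
  have hxy : x ∉ insert y (Q.filter (fun v => ¬ D v)) := by
    rw [Finset.mem_insert]
    rintro (h' | h')
    · exact n1 h'
    · exact hx h'
  have key : IsRep G.r (insert x (insert y (Q.filter fun v => ¬ D v))) := by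
    have hm : ∀ v, v ∈ insert x (insert y (Q.filter fun v => ¬ D v)) ↔
        v = x ∨ v = y ∨ (v ∈ Q ∧ ¬ D v) := by
      intro v
      rw [Finset.mem_insert, Finset.mem_insert, Finset.mem_filter]
    constructor
    · intro v hv
      rw [hm] at hv
      rcases hv with rfl | rfl | ⟨hv, -⟩
      · exact h.nx
      · exact h.ny
      · exact hQ.nf v hv
    · intro v hv
      rw [hm, hm, hm]
      by_cases hD : D v
      · rcases (h.m v).1 hD with rfl | rfl | rfl | rfl | rfl | rfl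
        · tauto
        · tauto
        · rw [h.h2, h.h5]; tauto
        · rw [h.h5]; tauto
        · rw [h.h4, h.h6]; tauto
        · rw [h.h6]; tauto
      · have h1 : ¬ D (G.r v) := fun h' => hD (h.D_r.1 h')
        have h2 : ¬ D (G.r (G.r v)) := fun h' => h1 (h.D_r.1 h')
        rcases hQ.ex v hv with h3 | h3 | h3
        · exact Or.inl (Or.inr (Or.inr ⟨h3, hD⟩))
        · exact Or.inr (Or.inl (Or.inr (Or.inr ⟨h3, h1⟩)))
        · exact Or.inr (Or.inr (Or.inr (Or.inr ⟨h3, h2⟩)))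
    · intro v hv
      rw [hm, hm]
      rw [hm] at hv
      rcases hv with rfl | rfl | ⟨hv, hD⟩
      · rw [h.h1, h.h2]
        have d1 : D p := (h.m p).2 (Or.inr (Or.inr (Or.inl rfl)))
        have d2 : D q := (h.m q).2 (Or.inr (Or.inr (Or.inr (Or.inl rfl))))
        exact ⟨by rintro (h' | h' | h'); exacts [n2 h'.symm, n6 h'.symm, h'.2 d1],
          by rintro (h' | h' | h'); exacts [n3 h'.symm, n7 h'.symm, h'.2 d2]⟩
      · rw [h.h3, h.h4]
        have d1 : D s := (h.m s).2 (Or.inr (Or.inr (Or.inr (Or.inr (Or.inl rfl)))))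
        have d2 : D t := (h.m t).2 (Or.inr (Or.inr (Or.inr (Or.inr (Or.inr rfl)))))
        exact ⟨by rintro (h' | h' | h'); exacts [n4 h'.symm, n8 h'.symm, h'.2 d1],
          by rintro (h' | h' | h'); exacts [n5 h'.symm, n9 h'.symm, h'.2 d2]⟩
      · have h1 : ¬ D (G.r v) := fun h' => hD (h.D_r.1 h')
        have h2 : ¬ D (G.r (G.r v)) := fun h' => h1 (h.D_r.1 h')
        obtain ⟨h3, h4⟩ := hQ.un v hv
        exact ⟨by rintro (h' | h' | h'); exacts [h1 (h' ▸ dx), h1 (h' ▸ dy), h3 h'.1],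
          by rintro (h' | h' | h'); exacts [h2 (h' ▸ dx), h2 (h' ▸ dy), h4 h'.1]⟩
  rw [vs_eq G key hf, Finset.sum_insert hxy, Finset.sum_insert hy, add_assoc]

/-- The representatives outside `D` are the same. -/
theorem isRep_shape (h : Sh r0 D e0 l0 x y G p q s t) (h' : Sh r0 D e0 l0 x y G' p' q' s' t')
    {Q : Finset V} (hQ : IsRep G.r Q) :
    ∃ Q', IsRep G'.r Q' ∧ Q'.filter (fun v => ¬ D v) = Q.filter (fun v => ¬ D v) := by
  have dx : D x := (h.m x).2 (Or.inl rfl)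
  have dy : D y := (h.m y).2 (Or.inr (Or.inl rfl))
  obtain ⟨⟨n1, n2, n3, n4, n5⟩, ⟨n6, n7, n8, n9⟩, ⟨n10, n11, n12⟩, ⟨n13, n14⟩, n15⟩ :
      ((x ≠ y ∧ x ≠ p' ∧ x ≠ q' ∧ x ≠ s' ∧ x ≠ t') ∧ (y ≠ p' ∧ y ≠ q' ∧ y ≠ s' ∧ y ≠ t') ∧
      (p' ≠ q' ∧ p' ≠ s' ∧ p' ≠ t') ∧ (q' ≠ s' ∧ q' ≠ t') ∧ s' ≠ t') := by
    have := h'.nd
    simp only [List.nodup_cons, List.mem_cons, List.not_mem_nil, or_false, not_or,
      not_false_eq_true, and_true, List.nodup_nil] at this
    exact this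
  have hm : ∀ v, v ∈ insert x (insert y (Q.filter fun v => ¬ D v)) ↔
      v = x ∨ v = y ∨ (v ∈ Q ∧ ¬ D v) := by
    intro v
    rw [Finset.mem_insert, Finset.mem_insert, Finset.mem_filter]
  refine ⟨insert x (insert y (Q.filter fun v => ¬ D v)), ?_, ?_⟩
  · constructor
    · intro v hv
      rw [hm] at hv
      rcases hv with rfl | rfl | ⟨hv, hD⟩
      · exact h'.nx
      · exact h'.ny
      · rw [h'.o v hD, ← h.o v hD]
        exact hQ.nf v hv
    · intro v hv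
      rw [hm, hm, hm]
      by_cases hD : D v
      · rcases (h'.m v).1 hD with rfl | rfl | rfl | rfl | rfl | rfl
        · tauto
        · tauto
        · rw [h'.h2, h'.h5]; tauto
        · rw [h'.h5]; tauto
        · rw [h'.h4, h'.h6]; tauto
        · rw [h'.h6]; tauto
      · have e1 : G'.r v = G.r v := by rw [h'.o v hD, h.o v hD]
        have h1 : ¬ D (G.r v) := fun h' => hD (h.D_r.1 h')
        have e2 : G'.r (G.r v) = G.r (G.r v) := by rw [h'.o _ h1, h.o _ h1]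
        have h2 : ¬ D (G.r (G.r v)) := fun h' => h1 (h.D_r.1 h')
        rw [e1] at hv ⊢
        rw [e2]
        rcases hQ.ex v hv with h3 | h3 | h3
        · exact Or.inl (Or.inr (Or.inr ⟨h3, hD⟩))
        · exact Or.inr (Or.inl (Or.inr (Or.inr ⟨h3, h1⟩)))
        · exact Or.inr (Or.inr (Or.inr (Or.inr ⟨h3, h2⟩)))
    · intro v hv
      rw [hm, hm]
      rw [hm] at hv
      rcases hv with rfl | rfl | ⟨hv, hD⟩
      · rw [h'.h1, h'.h2]
        have d1 : D p' := (h'.m p').2 (Or.inr (Or.inr (Or.inl rfl)))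
        have d2 : D q' := (h'.m q').2 (Or.inr (Or.inr (Or.inr (Or.inl rfl))))
        exact ⟨by rintro (h' | h' | h'); exacts [n2 h'.symm, n6 h'.symm, h'.2 d1],
          by rintro (h' | h' | h'); exacts [n3 h'.symm, n7 h'.symm, h'.2 d2]⟩
      · rw [h'.h3, h'.h4]
        have d1 : D s' := (h'.m s').2 (Or.inr (Or.inr (Or.inr (Or.inr (Or.inl rfl)))))
        have d2 : D t' := (h'.m t').2 (Or.inr (Or.inr (Or.inr (Or.inr (Or.inr rfl)))))
        exact ⟨by rintro (h' | h' | h'); exacts [n4 h'.symm, n8 h'.symm, h'.2 d1],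
          by rintro (h' | h' | h'); exacts [n5 h'.symm, n9 h'.symm, h'.2 d2]⟩
      · have e1 : G'.r v = G.r v := by rw [h'.o v hD, h.o v hD]
        have h1 : ¬ D (G.r v) := fun h' => hD (h.D_r.1 h')
        have e2 : G'.r (G.r v) = G.r (G.r v) := by rw [h'.o _ h1, h.o _ h1]
        have h2 : ¬ D (G.r (G.r v)) := fun h' => h1 (h.D_r.1 h')
        rw [e1, e2]
        obtain ⟨h3, h4⟩ := hQ.un v hv
        exact ⟨by rintro (h' | h' | h'); exacts [h1 (h' ▸ dx), h1 (h' ▸ dy), h3 h'.1],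
          by rintro (h' | h' | h'); exacts [h2 (h' ▸ dx), h2 (h' ▸ dy), h4 h'.1]⟩
  · ext v
    rw [Finset.mem_filter, Finset.mem_filter, hm]
    constructor
    · rintro ⟨h1 | h1 | h1, h2⟩
      · exact absurd (h1 ▸ dx) h2
      · exact absurd (h1 ▸ dy) h2
      · exact h1
    · rintro ⟨h1, h2⟩
      exact ⟨Or.inr (Or.inr ⟨h1, h2⟩), h2⟩

end Frame

end Pool.Agent.SWT36
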