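import Mathlib
import Pool.Agent.SWT36.VSum
import Pool.Agent.SWT84.Cy
import Pool.Agent.SWT80.Ops2

/-!
# Cutting at a vertex of the rim, wheels, arms
-/

set_option autoImplicit false

namespace Pool.Agent.SWT36

open Equiv Pool.Agent.SWT49 Pool.Agent.SWT80 Pool.Agent.SWT93 Pool.Agent.SWT84
open Pool.Agent.SWT84.Cy

variable {V W : Type} {n : ℕ}

theorem fin3_or (j j' : Fin 3) : j' = j ∨ j' = j + 1 ∨ j' = j + 1 + 1 := by
  revert j j'
  decide

theorem fin3_ne (k : Fin 3) : k + 1 ≠ k := by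
  revert k
  decide

/-! ### Connectedness after the cutting -/

/-- Parity: a set closed under `e` and, outside the vertex of `h`, under `r`, contains both or none
of the two rim half-edges at the vertex of `h`. -/
theorem two_parity [Finite V] {R : Gr V n} {Rm : Set V} (hC : Cy R Rm) {h : V} (hh : h ∉ Rm)
    (ha : R.r h ∈ Rm) {S : Set V} (he : ∀ v ∈ S, R.e v ∈ S)
    (hr : ∀ v ∈ S, ¬ R.vt h v → R.r v ∈ S) : R.r h ∈ S ↔ R.r (R.r h) ∈ S := by
  classical
  have : Fintype V := Fintype.ofFinite V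
  have hb : R.r (R.r h) ∈ Rm := hC.rr_of hh ha
  have hab : R.r h ≠ R.r (R.r h) := fun h1 => hC.ne_leg ha h1.symm
  have heS : ∀ v, R.e v ∈ S ↔ v ∈ S := fun v =>
    ⟨fun h1 => by rw [← R.e2 v]; exact he _ h1, he v⟩
  -- the other half-edge of the rim at the same vertex
  let σ : V → V := fun v => if v ∈ Rm then (if R.r v ∈ Rm then R.r v else R.r (R.r v)) else v
  have hσ : ∀ v ∈ Rm, (R.r v ∈ Rm ∧ R.r (R.r v) ∉ Rm ∧ σ v = R.r v) ∨
      (R.r v ∉ Rm ∧ R.r (R.r v) ∈ Rm ∧ σ v = R.r (R.r v)) := by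
    intro v hv
    rcases hC.two v hv with ⟨h1, h2⟩ | ⟨h1, h2⟩
    · left
      refine ⟨h1, h2, ?_⟩
      show (if v ∈ Rm then (if R.r v ∈ Rm then R.r v else R.r (R.r v)) else v) = _
      rw [if_pos hv, if_pos h1]
    · right
      refine ⟨h1, h2, ?_⟩
      show (if v ∈ Rm then (if R.r v ∈ Rm then R.r v else R.r (R.r v)) else v) = _
      rw [if_pos hv, if_neg h1]
  have hσn : ∀ v, v ∉ Rm → σ v = v := fun v hv => if_neg hv
  have hσm : ∀ v, σ v ∈ Rm ↔ v ∈ Rm := by
    intro v
    by_cases hv : v ∈ Rm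
    · rcases hσ v hv with ⟨h1, _, h3⟩ | ⟨_, h2, h3⟩
      · rw [h3]
        exact ⟨fun _ => hv, fun _ => h1⟩
      · rw [h3]
        exact ⟨fun _ => hv, fun _ => h2⟩
    · rw [hσn v hv]
  have hσσ : ∀ v, σ (σ v) = v := by
    intro v
    by_cases hv : v ∈ Rm
    · rcases hσ v hv with ⟨h1, h2, h3⟩ | ⟨h1, h2, h3⟩
      · rcases hσ _ h1 with ⟨h4, _, _⟩ | ⟨_, _, h6⟩
        · exact absurd h4 h2
        · rw [h3, h6, R.r3]
      · rcases hσ _ h2 with ⟨h4, _, h6⟩ | ⟨h4, _, _⟩
        · rw [h3, h6, R.r3]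
        · rw [R.r3] at h4
          exact absurd hv h4
    · rw [hσn v hv, hσn v hv]
  have hσvt : ∀ v, R.vt h (σ v) ↔ R.vt h v := by
    intro v
    by_cases hv : v ∈ Rm
    · rcases hσ v hv with ⟨_, _, h3⟩ | ⟨_, _, h3⟩
      · rw [h3]
        exact R.vt_r
      · rw [h3]
        exact R.vt_r.trans R.vt_r
    · rw [hσn v hv]
  have hσS1 : ∀ v, v ∈ S → ¬ R.vt h v → σ v ∈ S := by
    intro v hvS hv
    by_cases hvR : v ∈ Rm
    · rcases hσ v hvR with ⟨_, _, h3⟩ | ⟨_, _, h3⟩
      · rw [h3]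
        exact hr v hvS hv
      · rw [h3]
        exact hr _ (hr v hvS hv) (fun h' => hv (R.vt_r.1 h'))
    · rw [hσn v hvR]
      exact hvS
  have hσS : ∀ v, ¬ R.vt h v → (σ v ∈ S ↔ v ∈ S) := by
    intro v hv
    constructor
    · intro h1
      have h2 := hσS1 _ h1 (fun h' => hv ((hσvt v).1 h'))
      rw [hσσ] at h2
      exact h2
    · intro h1
      exact hσS1 v h1 hv
  -- the two sums
  let f : V → ZMod 2 := fun v => if v ∈ S ∧ v ∈ Rm then 1 else 0
  let g : V → ZMod 2 := fun v => if v ∈ S ∧ v ∈ Rm ∧ ¬ R.vt h v then 1 else 0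
  have htt : ∀ a : ZMod 2, a + a = 0 := by decide
  have hf : ∑ v, f v = 0 := by
    refine Finset.sum_involution (fun v _ => R.e v) ?_ ?_ ?_ ?_
    · intro v _
      have h1 : f (R.e v) = f v := by
        show (if R.e v ∈ S ∧ R.e v ∈ Rm then (1 : ZMod 2) else 0) = if v ∈ S ∧ v ∈ Rm then 1 else 0
        rw [heS, hC.e_iff]
      rw [h1]
      exact htt _
    · intro v _ _
      exact R.e1 v
    · intro v _
      exact Finset.mem_univ _
    · intro v _
      exact R.e2 v
  have hg : ∑ v, g v = 0 := by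
    refine Finset.sum_involution (fun v _ => σ v) ?_ ?_ ?_ ?_
    · intro v _
      have h1 : g (σ v) = g v := by
        show (if σ v ∈ S ∧ σ v ∈ Rm ∧ ¬ R.vt h (σ v) then (1 : ZMod 2) else 0) =
          if v ∈ S ∧ v ∈ Rm ∧ ¬ R.vt h v then 1 else 0
        rw [hσm, hσvt]
        by_cases hv : R.vt h v
        · rw [if_neg (fun h' => h'.2.2 hv), if_neg (fun h' => h'.2.2 hv)]
        · rw [hσS v hv]
      rw [h1]
      exact htt _
    · intro v _ hv
      have h1 : v ∈ Rm := by
        by_contra h2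
        exact hv (if_neg fun h' => h2 h'.2.1)
      rcases hσ v h1 with ⟨_, _, h3⟩ | ⟨_, _, h3⟩
      · rw [h3]
        exact hC.ne_leg h1
      · rw [h3]
        exact fun h' => hC.ne_leg h1 (R.r2 h')
    · intro v _
      exact Finset.mem_univ _
    · intro v _
      exact hσσ v
  have hfg : ∀ v, f v = g v + ((if v = R.r h then (if R.r h ∈ S then 1 else 0) else 0) +
      (if v = R.r (R.r h) then (if R.r (R.r h) ∈ S then 1 else 0) else 0)) := by
    intro v
    show (if v ∈ S ∧ v ∈ Rm then (1 : ZMod 2) else 0) =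
      (if v ∈ S ∧ v ∈ Rm ∧ ¬ R.vt h v then 1 else 0) + _
    by_cases hv : R.vt h v
    · rw [if_neg (c := v ∈ S ∧ v ∈ Rm ∧ ¬ R.vt h v) (fun h' => h'.2.2 hv), zero_add]
      rcases hv with h1 | h1 | h1
      · have h2 : v ≠ R.r h := by
          rw [h1]
          exact fun h' => hh (h' ▸ ha)
        have h3 : v ≠ R.r (R.r h) := by
          rw [h1]
          exact fun h' => hh (h' ▸ hb)
        rw [if_neg (c := v ∈ S ∧ v ∈ Rm) (fun h' => hh (h1 ▸ h'.2)), if_neg h2, if_neg h3, add_zero]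
      · rw [h1, if_pos rfl, if_neg hab, add_zero]
        by_cases h2 : R.r h ∈ S
        · rw [if_pos ⟨h2, ha⟩, if_pos h2]
        · rw [if_neg (fun h' => h2 h'.1), if_neg h2]
      · rw [h1, if_neg hab.symm, if_pos rfl, zero_add]
        by_cases h2 : R.r (R.r h) ∈ S
        · rw [if_pos ⟨h2, hb⟩, if_pos h2]
        · rw [if_neg (fun h' => h2 h'.1), if_neg h2]
    · rw [if_neg (c := v = R.r h) (fun h' => hv (Or.inr (Or.inl h'))),
        if_neg (c := v = R.r (R.r h)) (fun h' => hv (Or.inr (Or.inr h'))), add_zero, add_zero]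
      by_cases h2 : v ∈ S ∧ v ∈ Rm
      · rw [if_pos h2, if_pos ⟨h2.1, h2.2, hv⟩]
      · rw [if_neg h2, if_neg (fun h' => h2 ⟨h'.1, h'.2.1⟩)]
  rw [Finset.sum_congr rfl fun v _ => hfg v, Finset.sum_add_distrib, hg, zero_add,
    Finset.sum_add_distrib, Finset.sum_ite_eq' Finset.univ, Finset.sum_ite_eq' Finset.univ,
    if_pos (Finset.mem_univ _), if_pos (Finset.mem_univ _)] at hf
  by_cases h1 : R.r h ∈ S <;> by_cases h2 : R.r (R.r h) ∈ S
  · exact ⟨fun _ => h2, fun _ => h1⟩
  · rw [if_pos h1, if_neg h2] at hf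
    exact absurd hf (by decide)
  · rw [if_neg h1, if_pos h2] at hf
    exact absurd hf (by decide)
  · exact ⟨fun h' => absurd h' h1, fun h' => absurd h' h2⟩

theorem join_r_h {R : Gr V (n + 3)} {h : V} (hh : R.r h ≠ h) : R.join.r h = R.r h :=
  R.join_r_o fun j hj => hh (by rw [hj, R.r_leg])

theorem join_in_h {R : Gr V (n + 3)} {h : V} (hh : R.r h ≠ h) : R.join.r h ≠ h := by
  rw [join_r_h hh]
  exact hh

theorem join_vt_h {R : Gr V (n + 3)} {h : V} (hh : R.r h ≠ h) (v : V) :
    R.join.vt h v ↔ R.vt h v := by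
  unfold Gr.vt
  rw [join_r_h hh, join_r_h (R.inner_r hh)]

/-- **The graph stays connected if the hub is moved** to a vertex of the rim which carries the
special leg `k`. -/
theorem gconn_move [Finite V] {R : Gr V (n + 3)} (hG : GConn R) {Rm : Set V} (hC : Cy R Rm)
    {k : Fin 3} {h : V} (he : R.e h = R.leg (Fin.natAdd n k)) (hh : h ∉ Rm) (ha : R.r h ∈ Rm)
    (hx : R.join.r h ≠ h) : GConn (R.join.cut h hx) := by
  intro S hS hne
  have hb : R.r (R.r h) ∈ Rm := hC.rr_of hh ha
  have hin : R.r h ≠ h := fun h1 => hh (h1 ▸ ha)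
  have hSe : ∀ v ∈ S, R.e v ∈ S := hS.e
  have hSr : ∀ v ∈ S, ¬ R.vt h v → R.r v ∈ S := by
    intro v hv h1
    by_cases h2 : ∃ j, v = R.leg (Fin.natAdd n j)
    · obtain ⟨j, rfl⟩ := h2
      rw [R.r_leg]
      exact hv
    · have h3 := hS.r v hv
      rw [Gr.cut_r_o _ _ (fun h' => h1 ((join_vt_h hin v).1 h')),
        R.join_r_o (fun j hj => h2 ⟨j, hj⟩)] at h3
      exact h3
  have hnv : ∀ j, ¬ R.join.vt h (R.leg (Fin.natAdd n j)) := by
    intro j h1
    exact R.leg_not_vt hin _ ((join_vt_h hin _).1 h1)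
  have hSl1 : ∀ j, R.leg (Fin.natAdd n j) ∈ S → R.leg (Fin.natAdd n (j + 1)) ∈ S := by
    intro j hj
    have h3 := hS.r _ hj
    rw [Gr.cut_r_o _ _ (hnv j), R.join_r_lst] at h3
    exact h3
  have hSl : ∀ j j', R.leg (Fin.natAdd n j) ∈ S → R.leg (Fin.natAdd n j') ∈ S := by
    intro j j' hj
    have h1 := hSl1 j hj
    have h2 := hSl1 _ h1
    rcases fin3_or j j' with h3 | h3 | h3 <;> rw [h3]
    exacts [hj, h1, h2]
  have hpar : R.r h ∈ S ↔ R.r (R.r h) ∈ S := two_parity hC hh ha hSe hSr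
  obtain ⟨k', hk'⟩ : ∃ k' : Fin 3, k' ≠ k := ⟨k + 1, fin3_ne k⟩
  have hk'l : R.leg (Fin.natAdd n k') ≠ R.leg (Fin.natAdd n k) := R.lst_ne hk'
  have hlh : ∀ j, R.leg (Fin.natAdd n j) ≠ h := fun j h' => hin (by rw [← h', R.r_leg])
  have hhk : h ∈ S ↔ R.leg (Fin.natAdd n k) ∈ S := by
    constructor
    · intro h1
      rw [← he]
      exact hSe h h1
    · intro h1
      have h2 := hSe _ h1
      rw [← he, R.e2] at h2
      exact h2
  by_cases h1 : h ∈ S <;> by_cases h2 : R.r h ∈ S
  · -- closed in `R`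
    apply hG S ⟨hSe, fun v hv => ?_⟩ hne
    by_cases h3 : R.vt h v
    · rcases h3 with rfl | rfl | rfl
      · exact h2
      · exact hpar.1 h2
      · rw [R.r3]
        exact h1
    · exact hSr v hv h3
  · -- `h ∈ S`, the two others not
    exfalso
    have h2' : R.r (R.r h) ∉ S := fun h' => h2 (hpar.2 h')
    have h3 : S \ {h, R.leg (Fin.natAdd n k)} = Set.univ := by
      apply hG
      · constructor
        · rintro v ⟨hv, hv'⟩
          refine ⟨hSe v hv, ?_⟩
          rintro (h4 | h4)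
          · apply hv'
            right
            show v = _
            rw [← he, ← h4, R.e2]
          · apply hv'
            left
            have h5 : R.e v = R.leg (Fin.natAdd n k) := h4
            rw [← he] at h5
            exact R.e_inj h5
        · rintro v ⟨hv, hv'⟩
          have h4 : ¬ R.vt h v := by
            rintro (h5 | h5 | h5)
            · exact hv' (Or.inl h5)
            · exact h2 (h5 ▸ hv)
            · exact h2' (h5 ▸ hv)
          refine ⟨hSr v hv h4, ?_⟩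
          rintro (h5 | h5)
          · apply h4
            apply R.vt_r.1
            left
            exact h5
          · apply hv'
            right
            have h6 : R.r v = R.leg (Fin.natAdd n k) := h5
            rw [← R.r_leg] at h6
            exact R.r_inj h6
      · refine ⟨R.leg (Fin.natAdd n k'), hSl k k' (hhk.1 h1), ?_⟩
        rintro (h4 | h4)
        · exact hlh _ h4
        · exact hk'l h4
    have h4 : h ∈ S \ {h, R.leg (Fin.natAdd n k)} := by
      rw [h3]
      trivial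
    exact h4.2 (Or.inl rfl)
  · -- `h ∉ S`, the two others are in `S`
    exfalso
    have h2' : R.r (R.r h) ∈ S := hpar.1 h2
    have h3 : S ∪ {h, R.leg (Fin.natAdd n k)} = Set.univ := by
      apply hG
      · constructor
        · rintro v (hv | hv | hv)
          · exact Or.inl (hSe v hv)
          · right
            right
            rw [hv]
            exact he
          · right
            left
            have hv' : v = R.leg (Fin.natAdd n k) := hv
            rw [hv', ← he, R.e2]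
        · rintro v (hv | hv | hv)
          · by_cases h5 : R.vt h v
            · rcases h5 with rfl | rfl | rfl
              · exact Or.inl h2
              · exact Or.inl h2'
              · rw [R.r3]
                exact Or.inr (Or.inl rfl)
            · exact Or.inl (hSr v hv h5)
          · rw [hv]
            exact Or.inl h2
          · right
            right
            have hv' : v = R.leg (Fin.natAdd n k) := hv
            rw [hv', R.r_leg]
            rfl
      · exact ⟨_, Or.inl h2⟩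
    have h4 : R.leg (Fin.natAdd n k') ∈ S ∪ {h, R.leg (Fin.natAdd n k)} := by
      rw [h3]
      trivial
    rcases h4 with h4 | h4 | h4
    · exact h1 (hhk.2 (hSl k' k h4))
    · exact hlh _ h4
    · exact hk'l h4
  · -- closed in `R`
    have h2' : R.r (R.r h) ∉ S := fun h' => h2 (hpar.2 h')
    apply hG S ⟨hSe, fun v hv => ?_⟩ hne
    apply hSr v hv
    rintro (h5 | h5 | h5)
    · exact h1 (h5 ▸ hv)
    · exact h2 (h5 ▸ hv)
    · exact h2' (h5 ▸ hv)

/-! ### Wheels -/

/-- In a connected graph without cherry, with as many inner vertices as legs, every cycle passes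
through all inner vertices. -/
theorem wheel_on [Finite V] {G : Gr V n} (hG : GConn G) (h3 : 3 ≤ n) (hV : Nat.card V = 4 * n)
    (hno : NoCherry G) {Rm : Set V} (hC : Cy G Rm) (hne : Rm.Nonempty) {v : V} (hv : G.r v ≠ v) :
    On G Rm v := by
  have hb := psi_bij G hG h3 hV hno
  have hxe : ∀ i, xe G i ∉ Rm := by
    intro i hi
    have h1 := hC.e _ hi
    rw [e_xe] at h1
    exact hC.ne_leg h1 (G.r_leg i)
  have hkey : ∀ v, v ∉ Rm → G.r v ∈ Rm → ∃ i, v = xe G i := by
    intro v hv hr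
    obtain ⟨t, ht⟩ := hb.2 v
    rcases t with ⟨i, k⟩ | i
    · fin_cases k
      · exact ⟨i, ht.symm⟩
      · exfalso
        have h1 : G.r (xe G i) = v := ht
        have h2 := hC.rr_of hv hr
        rw [← h1, G.r3] at h2
        exact hxe i h2
      · exfalso
        have h1 : G.r (G.r (xe G i)) = v := ht
        rw [← h1, G.r3] at hr
        exact hxe i hr
    · exfalso
      have h1 : G.leg i = v := ht
      rw [← h1, G.r_leg] at hr
      rw [← h1] at hv
      exact hv hr
  have huniv : {v | On G Rm v ∨ (G.r v = v ∧ On G Rm (G.e v))} = Set.univ := by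
    refine hG _ ⟨?_, ?_⟩ ?_
    · rintro v (hv | ⟨h1, h2⟩)
      · by_cases hR : v ∈ Rm
        · exact Or.inl (Or.inl (hC.e v hR))
        · have h1 : G.r v ∈ Rm := hv.resolve_left hR
          obtain ⟨i, rfl⟩ := hkey v hR h1
          refine Or.inr ⟨?_, ?_⟩
          · rw [e_xe, G.r_leg]
          · rw [G.e2]
            exact hv
      · exact Or.inl h2
    · rintro v (hv | ⟨h1, h2⟩)
      · exact Or.inl (hC.on_r.2 hv)
      · rw [h1]
        exact Or.inr ⟨h1, h2⟩
    · obtain ⟨v, hv⟩ := hne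
      exact ⟨v, Or.inl (Or.inl hv)⟩
  have h1 : v ∈ {v | On G Rm v ∨ (G.r v = v ∧ On G Rm (G.e v))} := by rw [huniv]; trivial
  rcases h1 with h1 | ⟨h1, _⟩
  · exact h1
  · exact absurd h1 hv

/-- The graph cut at the vertex of the rim with the special leg `k`: the other cycles pass through
the old hub. -/
theorem wheel_cut [Finite V] {R : Gr V (n + 3)} (hG : GConn R) (hV : Nat.card V = 4 * (n + 3))
    (hno : NoCherry R) {k : Fin 3} {h : V} (he : R.e h = R.leg (Fin.natAdd n k)) (hin : R.r h ≠ h)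
    (hx : R.join.r h ≠ h) {Rm : Set V} (hC : Cy (R.join.cut h hx) Rm) (hne : Rm.Nonempty) {v : V}
    (hv : (R.join.cut h hx).r v ≠ v) :
    On (R.join.cut h hx) Rm v ∨ ∃ w, R.join.vt v w ∧ ∃ i : Fin n, R.e w = R.leg (Fin.castAdd 3 i) := by
  have hcin : ∀ {v : V}, (R.join.cut h hx).r v ≠ v → ¬ R.join.vt h v := by
    intro v hv h1
    exact hv (R.join.cut_r_in hx h1)
  have hnv : ∀ j, ¬ R.join.vt h (R.leg (Fin.natAdd n j)) := by
    intro j h1
    exact R.leg_not_vt hin _ ((join_vt_h hin _).1 h1)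
  -- the hub lies on the cycle
  have hhub : ∃ j, R.leg (Fin.natAdd n j) ∈ Rm := by
    by_contra hno'
    push Not at hno'
    have hr : ∀ v ∈ Rm, (R.join.cut h hx).r v = R.r v := by
      intro v hv
      rw [R.join.cut_r_o hx (hcin (hC.ne_leg hv)), R.join_r_o]
      intro j hj
      exact hno' j (hj ▸ hv)
    have hr2 : ∀ v ∈ Rm, (R.join.cut h hx).r ((R.join.cut h hx).r v) = R.r (R.r v) := by
      intro v hv
      have h1 : ¬ R.join.vt h v := hcin (hC.ne_leg hv)
      have h2 : (R.join.cut h hx).r v = R.r v := hr v hv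
      have h3 : R.r v ≠ v := by
        rw [← h2]
        exact hC.ne_leg hv
      have h4 : R.join.r v = R.r v := join_r_h h3
      have h5 : ¬ R.join.vt h (R.r v) := by
        rw [← h4]
        exact fun h' => h1 (R.join.vt_r.1 h')
      rw [h2, R.join.cut_r_o hx h5, join_r_h (R.inner_r h3)]
    have hCR : Cy R Rm := by
      refine ⟨hC.e, fun v hv => ?_⟩
      have h1 := hC.two v hv
      rw [hr2 v hv, hr v hv] at h1
      exact h1
    have h1 := wheel_on hG (by omega) hV hno hCR hne hin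
    have h2 : ∀ v ∈ Rm, ¬ R.join.vt h v := fun v hv => hcin (hC.ne_leg hv)
    rcases h1 with h1 | h1
    · exact h2 _ h1 (Or.inl rfl)
    · apply h2 _ h1
      right
      left
      exact (join_r_h hin).symm
  obtain ⟨j, hj⟩ := hhub
  have hlr : ∀ j, (R.join.cut h hx).r (R.leg (Fin.natAdd n j)) = R.leg (Fin.natAdd n (j + 1)) := by
    intro j
    rw [R.join.cut_r_o hx (hnv j), R.join_r_lst]
  have honj : ∀ j, On (R.join.cut h hx) Rm (R.leg (Fin.natAdd n j)) := by
    have h0 : On (R.join.cut h hx) Rm (R.leg (Fin.natAdd n j)) := Or.inl hj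
    have h1 : On (R.join.cut h hx) Rm (R.leg (Fin.natAdd n (j + 1))) := by
      rw [← hlr]
      exact hC.on_r.2 h0
    have h2 : On (R.join.cut h hx) Rm (R.leg (Fin.natAdd n (j + 1 + 1))) := by
      rw [← hlr]
      exact hC.on_r.2 h1
    intro j'
    rcases fin3_or j j' with h3 | h3 | h3 <;> rw [h3]
    exacts [h0, h1, h2]
  -- the leg `k` does not lie on the cycle
  have hkn : R.leg (Fin.natAdd n k) ∉ Rm := by
    intro h1
    have h2 := hC.e _ h1
    rw [Gr.cut_e, Gr.join_e, ← he, R.e2] at h2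
    exact hC.ne_leg h2 (R.join.cut_r_in hx (Or.inl rfl))
  -- the two others do
  have hother : ∀ j, j ≠ k → R.leg (Fin.natAdd n j) ∈ Rm := by
    have h1 : R.leg (Fin.natAdd n (k + 1)) ∈ Rm := by
      have h2 := (honj k).resolve_left hkn
      rw [hlr] at h2
      exact h2
    have h2 : R.leg (Fin.natAdd n (k + 1 + 1)) ∈ Rm := by
      have h3 := hC.rr_of hkn (by rw [hlr]; exact h1)
      rw [hlr, hlr] at h3
      exact h3
    intro j hj
    rcases fin3_or k j with h3 | h3 | h3
    · exact absurd h3 hj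
    · rw [h3]
      exact h1
    · rw [h3]
      exact h2
  -- the vertices
  by_cases hvl : ∃ j, v = R.leg (Fin.natAdd n j)
  · obtain ⟨j, rfl⟩ := hvl
    exact Or.inl (honj j)
  have hvR : R.r v ≠ v := by
    rw [R.join.cut_r_o hx (hcin hv), R.join_r_o (fun j hj => hvl ⟨j, hj⟩)] at hv
    exact hv
  have hb := psi_bij R hG (by omega) hV hno
  obtain ⟨t, ht⟩ := hb.2 v
  -- the leg at this vertex
  obtain ⟨i, hi⟩ : ∃ i, R.vt v (xe R i) := by
    rcases t with ⟨i, m⟩ | i
    · refine ⟨i, ?_⟩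
      fin_cases m
      · exact Or.inl ht
      · right
        right
        have h1 : R.r (xe R i) = v := ht
        rw [← h1, R.r3]
      · right
        left
        have h1 : R.r (R.r (xe R i)) = v := ht
        rw [← h1, R.r3]
    · exfalso
      have h1 : R.leg i = v := ht
      apply hvR
      rw [← h1, R.r_leg]
  induction i using Fin.addCases with
  | left i =>
    right
    refine ⟨_, (join_vt_h hvR _).2 hi, i, ?_⟩
    rw [e_xe]
  | right j =>
    left
    have hjk : j ≠ k := by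
      intro h1
      apply hcin hv
      rw [join_vt_h hin]
      have h2 : xe R (Fin.natAdd n j) = h := by
        rw [h1]
        show R.e (R.leg _) = h
        rw [← he, R.e2]
      rw [h2] at hi
      exact R.vt_symm hi
    have h1 : xe R (Fin.natAdd n j) ∈ Rm := hC.e _ (hother j hjk)
    have h2 : (R.join.cut h hx).vt v (xe R (Fin.natAdd n j)) := by
      have h3 : ¬ R.join.vt h v := hcin hv
      have h4 : ¬ R.join.vt h (R.join.r v) := fun h' => h3 (R.join.vt_r.1 h')
      have h5 := (join_vt_h hvR _).2 hi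
      unfold Gr.vt at h5 ⊢
      rw [R.join.cut_r_o hx h3, R.join.cut_r_o hx h4]
      exact h5
    rcases h2 with h2 | h2 | h2
    · rw [← h2]
      exact Or.inl h1
    · apply hC.on_r.1
      rw [← h2]
      exact Or.inl h1
    · apply hC.on_r.1
      apply hC.on_r.1
      rw [← h2]
      exact Or.inl h1

/-! ### Arms -/

/-- The half-edge `h` leads, through vertices which carry ordinary legs, to the special leg `k`. -/
inductive Arm (R : Gr V (n + 3)) (k : Fin 3) : V → Prop
  | base (h : V) (h1 : R.e h = R.leg (Fin.natAdd n k)) : Arm R k h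
  | s1 (h : V) (i : Fin n) (h1 : R.e (R.r (R.e h)) = R.leg (Fin.castAdd 3 i))
      (h2 : Arm R k (R.r (R.r (R.e h)))) : Arm R k h
  | s2 (h : V) (i : Fin n) (h1 : R.e (R.r (R.r (R.e h))) = R.leg (Fin.castAdd 3 i))
      (h2 : Arm R k (R.r (R.e h))) : Arm R k h

theorem Arm.off {R : Gr V (n + 3)} {k : Fin 3} {Rm : Set V} (hC : Cy R Rm) {h : V}
    (hA : Arm R k h) (hh : h ∉ Rm) : ¬ On R Rm (R.e h) := by
  have hleg : ∀ i, R.leg i ∉ Rm := fun i h1 => hC.ne_leg h1 (R.r_leg i)
  have hhe : R.e h ∉ Rm := fun h1 => hh (hC.e_iff.1 h1)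
  rintro (h1 | h1)
  · exact hhe h1
  rcases hA with ⟨_, h2⟩ | ⟨_, i, h2, _⟩ | ⟨_, i, h2, _⟩
  · rw [h2, R.r_leg] at h1
    exact hleg _ h1
  · have h3 := hC.e _ h1
    rw [h2] at h3
    exact hleg _ h3
  · have h3 := hC.e _ (hC.rr_of hhe h1)
    rw [h2] at h3
    exact hleg _ h3

theorem Arm.loc {I J X : Gr V (n + 3)} {x : V} (hL : Gr.Loc I J X x) {k : Fin 3} {Rm : Set V}
    (hC : Cy I Rm) (ha : I.r x ∈ Rm) (hy : ¬ On I Rm (I.e x)) {h : V}
    (hA : Arm I k h) : h ∉ Rm → h ≠ x → Arm J k h ∧ Arm X k h := by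
  have hxe : ∀ i, x ≠ I.leg i := fun i h1 => hL.ok.ix (by rw [h1, I.r_leg])
  have hon : On I Rm x := Or.inr ha
  have hyR : I.e x ∉ Rm := fun h1 => hy (Or.inl h1)
  -- the vertex of `e h` is not one of the two vertices
  have key : ∀ h, h ∉ Rm → h ≠ x → ¬ On I Rm (I.e h) → (I.r (I.e h) ≠ I.e x) →
      (I.r (I.r (I.e h)) ≠ I.e x) → J.r (I.e h) = I.r (I.e h) ∧
      J.r (I.r (I.e h)) = I.r (I.r (I.e h)) ∧ X.r (I.e h) = I.r (I.e h) ∧
      X.r (I.r (I.e h)) = I.r (I.r (I.e h)) ∧ I.r (I.r (I.e h)) ≠ x ∧ I.r (I.e h) ≠ x := by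
    intro h _ hhx hoff n1 n2
    have m1 : ¬ I.vt x (I.e h) := by
      rintro (h1 | h1 | h1)
      · exact hoff (h1 ▸ hon)
      · rw [h1] at hoff
        exact hoff (hC.on_r.2 hon)
      · rw [h1] at hoff
        exact hoff (hC.on_r.2 (hC.on_r.2 hon))
    have m2 : ¬ I.vt (I.e x) (I.e h) := by
      rintro (h1 | h1 | h1)
      · exact hhx (I.e_inj h1)
      · apply n2
        rw [h1, I.r3]
      · apply n1
        rw [h1, I.r3]
    have m3 : ¬ I.vt x (I.r (I.e h)) := fun h' => m1 (I.vt_r.1 h')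
    have m4 : ¬ I.vt (I.e x) (I.r (I.e h)) := fun h' => m2 (I.vt_r.1 h')
    refine ⟨(hL.oth _ m1 m2).1, (hL.oth _ m3 m4).1, (hL.oth _ m1 m2).2, (hL.oth _ m3 m4).2,
      fun h' => ?_, fun h' => ?_⟩
    · have h6 : ¬ I.vt x (I.r (I.r (I.e h))) := fun h' => m3 (I.vt_r.1 h')
      exact h6 (Or.inl h')
    · exact m3 (Or.inl h')
  induction hA with
  | base h h1 =>
    intro _ _
    exact ⟨Arm.base h (by rw [hL.eJ, hL.lJ]; exact h1), Arm.base h (by rw [hL.eX, hL.lX]; exact h1)⟩
  | s1 h i h1 h2 ih =>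
    intro hh hhx
    have hoff := Arm.off hC (Arm.s1 h i h1 h2) hh
    have n1 : I.r (I.e h) ≠ I.e x := by
      intro h3
      rw [h3, I.e2] at h1
      exact hxe _ h1
    have hoff2 : ¬ On I Rm (I.r (I.r (I.e h))) := fun h' => hoff (hC.on_r.1 (hC.on_r.1 h'))
    have n2 : I.r (I.r (I.e h)) ≠ I.e x := by
      intro h3
      rw [h3] at h2
      have h4 := Arm.off hC h2 hyR
      rw [I.e2] at h4
      exact h4 hon
    obtain ⟨a1, a2, a3, a4, a5, _⟩ := key h hh hhx hoff n1 n2
    obtain ⟨b1, b2⟩ := ih (fun h' => hoff2 (Or.inl h')) a5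
    refine ⟨Arm.s1 h i ?_ ?_, Arm.s1 h i ?_ ?_⟩
    · rw [hL.eJ, a1, hL.lJ]
      exact h1
    · rw [hL.eJ, a1, a2]
      exact b1
    · rw [hL.eX, a3, hL.lX]
      exact h1
    · rw [hL.eX, a3, a4]
      exact b2
  | s2 h i h1 h2 ih =>
    intro hh hhx
    have hoff := Arm.off hC (Arm.s2 h i h1 h2) hh
    have n2 : I.r (I.r (I.e h)) ≠ I.e x := by
      intro h3
      rw [h3, I.e2] at h1
      exact hxe _ h1
    have hoff2 : ¬ On I Rm (I.r (I.e h)) := fun h' => hoff (hC.on_r.1 h')
    have n1 : I.r (I.e h) ≠ I.e x := by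
      intro h3
      rw [h3] at h2
      have h4 := Arm.off hC h2 hyR
      rw [I.e2] at h4
      exact h4 hon
    obtain ⟨a1, a2, a3, a4, _, a6⟩ := key h hh hhx hoff n1 n2
    obtain ⟨b1, b2⟩ := ih (fun h' => hoff2 (Or.inl h')) a6
    refine ⟨Arm.s2 h i ?_ ?_, Arm.s2 h i ?_ ?_⟩
    · rw [hL.eJ, a1, a2, hL.lJ]
      exact h1
    · rw [hL.eJ, a1]
      exact b1
    · rw [hL.eX, a3, a4, hL.lX]
      exact h1
    · rw [hL.eX, a3]
      exact b2

end Pool.Agent.SWT36
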