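import Mathlib
import Pool.Agent.SWT36.HIa
import Pool.Agent.SWT80.Ops4
import Pool.Agent.SWT65.Stmts

/-!
# The sum over all positions of the hub
-/

set_option autoImplicit false

namespace Pool.Agent.SWT36

open Pool.Agent.SWT49 hiding GConn Cherry
open Equiv Pool.Agent.SWT80 Pool.Agent.SWT93 Pool.Agent.SWT84 Pool.Agent.SWT65
open Pool.Agent.SWT84.Cy
open scoped Classical

variable {V W M : Type} {n : ℕ} [AddCommGroup M] {F : (V : Type) → Gr V (n + 3) → M}

/-- The sum of the values with the hub at the inner vertices. -/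
noncomputable def FF (F : (V : Type) → Gr V (n + 3) → M) (V : Type) (G : Gr V n) : M :=
  vs G (at3 F V G)

theorem FF_map [Finite V] (hF : Rel F) (hA : Alt3 F) (φ : V ≃ W) (G : Gr V n) :
    FF F W (G.map φ) = FF F V G :=
  vs_map φ G (at3_r hA G) (fun v => at3_map hF φ G v)

theorem FF_flip [Finite V] (hF : Rel F) (hA : Alt3 F) (G : Gr V n) {y : V} (hy : G.r y ≠ y) :
    FF F V (G.flip y) = - FF F V G := by
  have h1 : at3 F V (G.flip y) = fun x => - at3 F V G x := funext fun x => at3_flip hF hA G hy x
  unfold FF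
  rw [h1, vs_flip G y (fun v => by rw [at3_r hA]), vs_neg G (at3_r hA G)]

/-- The sum over the positions of the hub: only the two ends of the edge matter. -/
theorem FF_loc [Finite V] (hF : Rel F) (hA : Alt3 F) {I J X : Gr V n} {x : V}
    (h : Gr.Loc I J X x) :
    FF F V I - FF F V J + FF F V X = (at3 F V I x + at3 F V I (I.e x)) -
      (at3 F V J x + at3 F V J (I.e x)) + (at3 F V X x + at3 F V X (I.e x)) := by
  obtain ⟨Q, hQ⟩ := exists_isRep I
  obtain ⟨QJ, hQJ, eJ⟩ := isRep_shape (shI h.ok) (shJ h) hQ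
  obtain ⟨QX, hQX, eX⟩ := isRep_shape (shI h.ok) (shX h) hQ
  have h0 : ∀ v ∈ Q.filter (fun v => ¬ DD I x v), at3 F V I v = at3 F V J v - at3 F V X v := by
    intro v hv
    have hv := (Finset.mem_filter.1 hv).2
    obtain ⟨h1, h2⟩ := out_vt hv
    exact at3_ihx hF h (fun h' => h1 (I.vt_symm h')) (fun h' => h2 (I.vt_symm h'))
  unfold FF
  rw [vs_shape (shI h.ok) hQ (at3_r hA I), vs_shape (shJ h) hQJ (at3_r hA J),
    vs_shape (shX h) hQX (at3_r hA X), eJ, eX, Finset.sum_congr rfl h0, Finset.sum_sub_distrib]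
  abel

/-- A vertex which carries an ordinary leg is not a position of the hub. -/
theorem not_gconn_hair {G : Gr V n} {z w : V} (hz : G.r z ≠ z) (hw : G.vt z w) {i : Fin n}
    (hi : G.e w = G.leg i) : ¬ GConn (G.cut z hz) := by
  intro hG
  have hw1 : G.r w ≠ w := G.vt_inner hz hw
  have h1 : ({w, G.leg i} : Set V) = Set.univ := by
    apply hG
    · constructor
      · rintro v (hv | hv)
        · right
          rw [hv]
          exact hi
        · left
          have hv' : v = G.leg i := hv
          rw [hv', ← hi]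
          exact G.e2 w
      · rintro v (hv | hv)
        · left
          rw [hv]
          exact G.cut_r_in hz hw
        · right
          have hv' : v = G.leg i := hv
          rw [hv', G.cut_r_o hz (G.leg_not_vt hz i), G.r_leg]
          rfl
    · exact ⟨w, Or.inl rfl⟩
  have h2 : G.r w ∈ ({w, G.leg i} : Set V) := by
    rw [h1]
    trivial
  rcases h2 with h2 | h2
  · exact hw1 h2
  · have h3 : G.r w = G.leg i := h2
    rw [← G.r_leg] at h3
    exact hw1 (by rw [G.r_inj h3, G.r_leg])

/-- The functional vanishes outside the graphs with one loop. -/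
def Off (F : (V : Type) → Gr V n → M) : Prop :=
  ∀ (V : Type) [Finite V] (G : Gr V n), ¬ One G → F V G = 0

theorem at3_hair [Finite V] (hO : Off F) {G : Gr V n} {z w : V} (hw : G.vt z w)
    {i : Fin n} (hi : G.e w = G.leg i) : at3 F V G z = 0 := by
  by_cases hz : G.r z = z
  · exact at3_leg G hz
  · rw [at3_in G hz]
    exact hO V _ (fun h => not_gconn_hair hz hw hi h.conn)

/-- The six terms of the hub slide. -/
theorem slide_six [Finite V] (hS : Slide F) (hA : Alt3 F) (hO : Off F) {I J X : Gr V n} {x : V}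
    (hL : Gr.Loc I J X x) {w : V} (hw : I.vt (I.e x) w) {i : Fin n} (hi : I.e w = I.leg i) :
    (at3 F V I x + at3 F V I (I.e x)) - (at3 F V J x + at3 F V J (I.e x)) +
      (at3 F V X x + at3 F V X (I.e x)) = 0 := by
  have eIy : at3 F V I (I.e x) = 0 := at3_hair hO hw hi
  have hiJ : J.e w = J.leg i := by
    rw [hL.eJ, hL.lJ]
    exact hi
  have hiX : X.e w = X.leg i := by
    rw [hL.eX, hL.lX]
    exact hi
  rcases hw with hw | hw | hw
  · -- `x` would be a leg
    exfalso
    rw [hw, I.e2] at hi
    exact hL.ok.ix (by rw [hi, I.r_leg])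
  · -- the hair is `r (e x)`
    have h1 := hS V I J X x (I.r (I.r (I.e x))) w i hL (Or.inr ⟨hw, rfl⟩) hi
    have eJx : at3 F V J x = 0 := by
      refine at3_hair hO (w := w) ?_ hiJ
      right
      right
      rw [hL.j1, hL.j2, hw]
    have eXx : at3 F V X x = 0 := by
      refine at3_hair hO (w := w) ?_ hiX
      right
      right
      rw [hL.x1, hL.x2, hw]
    have eJy : at3 F V J (I.r (I.r (I.e x))) = at3 F V J (I.e x) := by
      rw [← hL.j4, at3_r hA]
    have eXy : at3 F V X (I.r (I.r (I.e x))) = at3 F V X (I.e x) := by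
      rw [← hL.x4, at3_r hA]
    rw [eIy, eJx, eXx, h1, eJy, eXy]
    abel
  · -- the hair is `r (r (e x))`
    have h1 := hS V I J X x (I.r (I.e x)) w i hL (Or.inl ⟨rfl, hw⟩) hi
    have eJx : at3 F V J (I.e x) = 0 := by
      refine at3_hair hO (w := w) ?_ hiJ
      right
      left
      rw [hL.j4, hw]
    have eXx : at3 F V X (I.e x) = 0 := by
      refine at3_hair hO (w := w) ?_ hiX
      right
      left
      rw [hL.x4, hw]
    have eJy : at3 F V J (I.r (I.e x)) = at3 F V J x := by
      rw [← at3_r hA J (I.r (I.e x)), hL.j3]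
    have eXy : at3 F V X (I.r (I.e x)) = at3 F V X x := by
      rw [← at3_r hA X (I.r (I.e x)), hL.x3]
    rw [eIy, eJx, eXx, h1, eJy, eXy]
    abel

/-- **The slide of the sum**: IHX at an edge one end of which carries an ordinary leg. -/
theorem FF_slide [Finite V] (hF : Rel F) (hA : Alt3 F) (hO : Off F) (hS : Slide F)
    {I J X : Gr V n} {x : V} (hL : Gr.Loc I J X x) {w : V} (hw : I.vt (I.e x) w) {i : Fin n}
    (hi : I.e w = I.leg i) : FF F V I = FF F V J - FF F V X := by
  have h1 := FF_loc hF hA hL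
  rw [slide_six hS hA hO hL hw hi] at h1
  have h2 : FF F V I = (FF F V I - FF F V J + FF F V X) + (FF F V J - FF F V X) := by abel
  rw [h2, h1, zero_add]

/-! ### The sum for a wheel -/

/-- Representatives of the vertices after the joining. -/
theorem isRep_join (R : Gr V (n + 3)) {Q : Finset V} (hQ : Pool.Agent.SWT45.IsRep R.r Q) :
    R.leg (Fin.natAdd n 0) ∉ Q ∧
      Pool.Agent.SWT45.IsRep R.join.r (insert (R.leg (Fin.natAdd n 0)) Q) := by
  have hl : ∀ j, R.leg (Fin.natAdd n j) ∉ Q := fun j h' => hQ.nf _ h' (R.r_leg _)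
  have hvl : ∀ v ∈ Q, ∀ j, v ≠ R.leg (Fin.natAdd n j) := fun v hv j h' => hl j (h' ▸ hv)
  refine ⟨hl 0, ?_, ?_, ?_⟩
  · intro v hv
    rcases Finset.mem_insert.1 hv with rfl | hv
    · exact R.join_in
    · exact join_in_h (hQ.nf v hv)
  · intro v hv
    rw [Finset.mem_insert, Finset.mem_insert, Finset.mem_insert]
    by_cases h1 : ∃ j, v = R.leg (Fin.natAdd n j)
    · obtain ⟨j, rfl⟩ := h1
      rw [R.join_r_lst, R.join_r_lst]
      rcases fin3_or j 0 with h2 | h2 | h2 <;> rw [← h2]
      · exact Or.inl (Or.inl rfl)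
      · exact Or.inr (Or.inl (Or.inl rfl))
      · exact Or.inr (Or.inr (Or.inl rfl))
    · have h2 : R.r v ≠ v := by
        rw [R.join_r_o (fun j hj => h1 ⟨j, hj⟩)] at hv
        exact hv
      rw [join_r_h h2, join_r_h (R.inner_r h2)]
      rcases hQ.ex v h2 with h3 | h3 | h3
      · exact Or.inl (Or.inr h3)
      · exact Or.inr (Or.inl (Or.inr h3))
      · exact Or.inr (Or.inr (Or.inr h3))
  · intro v hv
    rw [Finset.mem_insert, Finset.mem_insert]
    rcases Finset.mem_insert.1 hv with rfl | hv
    · rw [R.join_r_lst, R.join_r_lst]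
      refine ⟨?_, ?_⟩
      · rintro (h' | h')
        · exact R.lst_ne (fin3_ne 0) h'
        · exact hl _ h'
      · rintro (h' | h')
        · exact R.lst_ne (by decide) h'
        · exact hl _ h'
    · have h2 := hQ.nf v hv
      obtain ⟨h3, h4⟩ := hQ.un v hv
      rw [join_r_h h2, join_r_h (R.inner_r h2)]
      refine ⟨?_, ?_⟩
      · rintro (h' | h')
        · apply h2
          have h5 := h'
          rw [← R.r_leg] at h5
          rw [R.r_inj h5, R.r_leg]
        · exact h3 h'
      · rintro (h' | h')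
        · apply h2
          have h5 := h'
          rw [← R.r_leg] at h5
          have h6 := R.r_inj h5
          rw [← R.r_leg] at h6
          rw [R.r_inj h6, R.r_leg]
        · exact h4 h'

theorem vs_join [Finite V] (R : Gr V (n + 3)) {f : V → M} (hf : ∀ v, f (R.join.r v) = f v) :
    vs R.join f = f (R.leg (Fin.natAdd n 0)) + vs R f := by
  obtain ⟨Q, hQ⟩ := exists_isRep R
  obtain ⟨h1, h2⟩ := isRep_join R hQ
  rw [vs_eq _ h2 hf, Finset.sum_insert h1, vs_eq R hQ]
  intro v
  by_cases h3 : R.r v = v
  · rw [h3]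
  · rw [← join_r_h h3, hf]

/-- The sum over the inner vertices of a wheel. -/
theorem vs_wheel [Finite V] {G : Gr V n} (hG : GConn G) (h3 : 3 ≤ n) (hV : Nat.card V = 4 * n)
    (hno : NoCherry G) {f : V → M} (hf : ∀ v, f (G.r v) = f v) :
    vs G f = ∑ i, f (xe G i) := by
  have hb := psi_bij G hG h3 hV hno
  have hin := leg_inner G hG h3
  have hrep : Pool.Agent.SWT45.IsRep G.r (Finset.univ.image (xe G)) := by
    constructor
    · intro v hv
      obtain ⟨i, _, rfl⟩ := Finset.mem_image.1 hv
      exact hin i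
    · intro v hv
      obtain ⟨t, ht⟩ := hb.2 v
      rcases t with ⟨i, m⟩ | i
      · fin_cases m
        · left
          exact Finset.mem_image.2 ⟨i, Finset.mem_univ _, ht⟩
        · right
          right
          have h1 : G.r (xe G i) = v := ht
          rw [← h1, G.r3]
          exact Finset.mem_image.2 ⟨i, Finset.mem_univ _, rfl⟩
        · right
          left
          have h1 : G.r (G.r (xe G i)) = v := ht
          rw [← h1, G.r3]
          exact Finset.mem_image.2 ⟨i, Finset.mem_univ _, rfl⟩
      · exfalso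
        have h1 : G.leg i = v := ht
        apply hv
        rw [← h1, G.r_leg]
    · intro v hv
      obtain ⟨i, _, rfl⟩ := Finset.mem_image.1 hv
      constructor
      · intro h1
        obtain ⟨j, _, h2⟩ := Finset.mem_image.1 h1
        have h3 : psi G (Sum.inl (j, 0)) = psi G (Sum.inl (i, 1)) := h2
        have h4 := hb.1 h3
        simp at h4
      · intro h1
        obtain ⟨j, _, h2⟩ := Finset.mem_image.1 h1
        have h3 : psi G (Sum.inl (j, 0)) = psi G (Sum.inl (i, 2)) := h2
        have h4 := hb.1 h3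
        simp at h4
  rw [vs_eq G hrep hf, Finset.sum_image]
  intro i _ j _ h
  exact xe_inj G h

/-- The sum over the inner vertices of a joined wheel: the hub, the ordinary vertices and the
three special ones. -/
theorem vs_join_wheel [Finite V] {R : Gr V (n + 3)} (hG : GConn R)
    (hV : Nat.card V = 4 * (n + 3)) (hno : NoCherry R) {f : V → M}
    (hf : ∀ v, f (R.join.r v) = f v) :
    vs R.join f = f (R.leg (Fin.natAdd n 0)) + (∑ i : Fin n, f (xe R (Fin.castAdd 3 i)) +
      ∑ j : Fin 3, f (xe R (Fin.natAdd n j))) := by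
  rw [vs_join R hf, vs_wheel hG (by omega) hV hno, Fin.sum_univ_add]
  intro v
  by_cases h3 : R.r v = v
  · rw [h3]
  · rw [← join_r_h h3, hf]

end Pool.Agent.SWT36
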