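import Mathlib
import Pool.Agent.SWT36.HIb

/-!
# The functional with the four positions of the hub
-/

set_option autoImplicit false

namespace Pool.Agent.SWT36

open Pool.Agent.SWT49 hiding GConn Cherry
open Equiv Pool.Agent.SWT80 Pool.Agent.SWT93 Pool.Agent.SWT84 Pool.Agent.SWT65
open Pool.Agent.SWT84.Cy
open scoped Classical

variable {V W M : Type} {n : ℕ} [AddCommGroup M]

/-! ### The graphs with one loop -/

theorem one_smul_iff {G : Gr V n} (g : Perm (Fin n)) : One (g • G) ↔ One G :=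
  ⟨fun h => ⟨(gconn_smul g).1 h.conn, h.card⟩, fun h => ⟨(gconn_smul g).2 h.conn, h.card⟩⟩

theorem one_map_iff {G : Gr V n} (f : V ≃ W) : One (G.map f) ↔ One G :=
  ⟨fun h => ⟨(gconn_map f).1 h.conn, by rw [Nat.card_congr f]; exact h.card⟩,
    fun h => ⟨(gconn_map f).2 h.conn, by rw [← Nat.card_congr f]; exact h.card⟩⟩

theorem one_flip_iff {G : Gr V n} {x : V} : One (G.flip x) ↔ One G :=
  ⟨fun h => ⟨gconn_flip.1 h.conn, h.card⟩, fun h => ⟨gconn_flip.2 h.conn, h.card⟩⟩

theorem one_loc {I J X : Gr V n} {x : V} (h : Gr.Loc I J X x) :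
    (One J ↔ One I) ∧ (One X ↔ One I) :=
  ⟨⟨fun h' => ⟨(gconn_loc h).1.1 h'.conn, h'.card⟩, fun h' => ⟨(gconn_loc h).1.2 h'.conn, h'.card⟩⟩,
    ⟨fun h' => ⟨(gconn_loc h).2.1 h'.conn, h'.card⟩,
      fun h' => ⟨(gconn_loc h).2.2 h'.conn, h'.card⟩⟩⟩

theorem uniq (hU : S_uniq M) (h3 : 3 ≤ n) {F F' : (V : Type) → Gr V n → M} (hF : Rel F)
    (hF' : Rel F') (hw : ∀ (V : Type) [Finite V] (G : Gr V n), One G → NoCherry G →
      F V G = F' V G) (V : Type) [Finite V] (G : Gr V n) (hG : One G) : F V G = F' V G := by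
  have h1 := hU n h3 V (fun G => F V G - F' V G) ?_ ?_ G hG
  · exact sub_eq_zero.1 h1
  · intro I J X x hL _
    show F V I - F' V I = F V J - F' V J - (F V X - F' V X)
    rw [hF.ihx V I J X x hL, hF'.ihx V I J X x hL]
    abel
  · intro G h1 h2
    show F V G - F' V G = 0
    rw [hw V G h1 h2, sub_self]

theorem relSmul {F : (V : Type) → Gr V n → M} (hF : Rel F) (g : Perm (Fin n)) :
    Rel fun (V : Type) (G : Gr V n) => F V (g • G) := by
  refine ⟨fun V W _ f G => ?_, fun V _ G x hx => ?_, fun V _ I J X x hx => ?_⟩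
  · rw [Gr.smul_map]
    exact hF.iso V W f _
  · rw [Gr.smul_flip]
    exact hF.as V _ x hx
  · exact hF.ihx V _ _ _ x (hx.smul g)

theorem relSub {F F' : (V : Type) → Gr V n → M} (hF : Rel F) (hF' : Rel F') :
    Rel fun (V : Type) (G : Gr V n) => F V G - F' V G := by
  refine ⟨fun V W _ f G => ?_, fun V _ G x hx => ?_, fun V _ I J X x hx => ?_⟩
  · rw [hF.iso V W f G, hF'.iso V W f G]
  · rw [hF.as V G x hx, hF'.as V G x hx]
    abel
  · rw [hF.ihx V I J X x hx, hF'.ihx V I J X x hx]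
    abel

theorem relZsmul {F : (V : Type) → Gr V n → M} (hF : Rel F) (z : ℤ) :
    Rel fun (V : Type) (G : Gr V n) => z • F V G := by
  refine ⟨fun V W _ f G => ?_, fun V _ G x hx => ?_, fun V _ I J X x hx => ?_⟩
  · rw [hF.iso V W f G]
  · rw [hF.as V G x hx, smul_neg]
  · rw [hF.ihx V I J X x hx, smul_sub]

theorem relForm {c : (V : Type) → Gr V (n + 1) → Fin n → M} (hc : Form c) (i : Fin n) :
    Rel fun (V : Type) (R : Gr V (n + 1 + 3)) => c V R.join i := by
  refine ⟨fun V W _ f R => ?_, fun V _ R x hx => ?_, fun V _ I J X x hx => ?_⟩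
  · rw [← Gr.join_map, hc.iso]
  · have hx' : ∀ j, x ≠ R.leg (Fin.natAdd (n + 1) j) := fun j => R.ne_leg hx _
    rw [Gr.join_flip R hx']
    exact hc.as V R.join x (by rw [R.join_r_o hx']; exact hx) i
  · exact hc.ihx V _ _ _ x hx.join i

theorem alt3_of_hub {c : (V : Type) → Gr V (n + 1) → Fin n → M}
    {F : (V : Type) → Gr V (n + 1 + 3) → M} (hF : Hub c F) : Alt3 F := by
  constructor
  · intro V _ R
    rw [hF.alt, Perm.sign_swap (by decide)]
    simp
  · intro V _ R
    rw [hF.alt, Perm.sign_swap (by decide)]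
    simp

/-! ### The sum over the positions for wheels -/

theorem FF_alt [Finite V] {F : (V : Type) → Gr V (n + 3) → M} (hF : Rel F) (hA : Alt3 F)
    (R : Gr V (n + 3)) (τ : Perm (Fin 3)) :
    FF F V (pq (1 : Perm (Fin n)) τ • R).join = (Perm.sign τ : ℤ) • FF F V R.join := by
  rcases Gr.perm3_cases τ with ⟨h1, h2⟩ | ⟨h1, h2⟩
  · rw [Gr.join_rot R h1, h2]
    simp
  · rw [Gr.join_swap R h1, FF_flip hF hA _ R.join_in, h2]
    simp

/-- The position of the hub at the rim vertex of a special leg of a wheel. -/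
theorem one_move [Finite V] {R : Gr V (n + 3)} (hR : One R) {Rm : Set V} (hC : Cy R Rm)
    {k : Fin 3} {h : V} (he : R.e h = R.leg (Fin.natAdd n k)) (hh : h ∉ Rm) (ha : R.r h ∈ Rm)
    (hx : R.join.r h ≠ h) : One (R.join.cut h hx) :=
  ⟨gconn_move hR.conn hC he hh ha hx, hR.card⟩

/-- The half-edges opposite to the legs of a wheel. -/
theorem wheel_xe [Finite V] {R : Gr V (n + 1)} (hR : One R) (h3 : 3 ≤ n + 1) (hno : NoCherry R) :
    ∃ Rm : Set V, Rm.Nonempty ∧ Cy R Rm ∧ ∀ i, xe R i ∉ Rm ∧ R.r (xe R i) ∈ Rm := by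
  obtain ⟨Rm, hne, hC⟩ := exists_cy R (le_of_eq hR.card.symm)
  refine ⟨Rm, hne, hC, fun i => ?_⟩
  have h1 : xe R i ∉ Rm := by
    intro h1
    have h2 := hC.e _ h1
    rw [e_xe] at h2
    exact hC.ne_leg h2 (R.r_leg i)
  refine ⟨h1, ?_⟩
  have h2 := wheel_on hR.conn h3 hR.card hno hC hne (leg_inner R hR.conn h3 i)
  exact h2.resolve_left h1

theorem FF_diff [Finite V] (h3M : ∀ m : M, m + m + m = 0)
    {c : (V : Type) → Gr V (n + 1) → Fin n → M} {F : (V : Type) → Gr V (n + 1 + 3) → M}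
    (hF : Hub c F) (R : Gr V (n + 1 + 3)) (hR : One R) (hno : NoCherry R) (i : Fin n) :
    FF F V R.join - FF F V (pq (s i) (1 : Perm (Fin 3)) • R).join = c V R.join i := by
  have hA := alt3_of_hub hF
  have hO : Off F := hF.off
  obtain ⟨Rm, hne, hC, hxe⟩ := wheel_xe (n := n + 3) hR (by omega) hno
  rw [Gr.join_smul]
  set g : V → M := fun x => at3 F V (s i • R.join) x with hg
  set f : V → M := fun x => at3 F V R.join x with hf
  have hfr : ∀ v, f (R.join.r v) = f v := fun v => at3_r hA R.join v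
  have hgr : ∀ v, g (R.join.r v) = g v := fun v => at3_r hA (s i • R.join) v
  have e1 : FF F V R.join = vs R.join f := rfl
  have e2 : FF F V (s i • R.join) = vs R.join g := rfl
  rw [e1, e2, vs_join_wheel hR.conn hR.card hno hfr, vs_join_wheel hR.conn hR.card hno hgr]
  have k1 : f (R.leg (Fin.natAdd (n + 1) 0)) - g (R.leg (Fin.natAdd (n + 1) 0)) =
      c V R.join i := by
    have e3 : f (R.leg (Fin.natAdd (n + 1) 0)) = F V R := at3_join R
    have e4 : g (R.leg (Fin.natAdd (n + 1) 0)) = F V (pq (s i) (1 : Perm (Fin 3)) • R) := by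
      rw [hg]
      simp only
      rw [at3_smul, at3_in _ R.join_in, Gr.cut_join]
    rw [e3, e4, hF.diff V R i hR]
  have k2 : ∀ j : Fin (n + 1), f (xe R (Fin.castAdd 3 j)) = 0 := by
    intro j
    refine at3_hair hO (w := xe R (Fin.castAdd 3 j)) (R.join.vt_self _) (i := j) ?_
    rw [Gr.join_e, Gr.join_leg, e_xe]
  have k3 : ∀ j : Fin (n + 1), g (xe R (Fin.castAdd 3 j)) = 0 := by
    intro j
    refine at3_hair hO (w := xe R (Fin.castAdd 3 j)) ((s i • R.join).vt_self _) (i := s i j) ?_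
    rw [Gr.smul_e, Gr.s_smul_leg, Gr.join_e, Gr.join_leg, e_xe]
    have : s i (s i j) = j := by
      unfold s
      rw [swap_apply_self]
    rw [this]
  have k4 : ∀ j : Fin 3, f (xe R (Fin.natAdd (n + 1) j)) - g (xe R (Fin.natAdd (n + 1) j)) =
      c V R.join i := by
    intro j
    obtain ⟨h1, h2⟩ := hxe (Fin.natAdd (n + 1) j)
    have hin : R.r (xe R (Fin.natAdd (n + 1) j)) ≠ xe R (Fin.natAdd (n + 1) j) := fun h' =>
      h1 (h' ▸ h2)
    have hx := join_in_h hin
    have hone := one_move hR hC (e_xe R (Fin.natAdd (n + 1) j)) h1 h2 hx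
    have e3 : f (xe R (Fin.natAdd (n + 1) j)) = F V (R.join.cut _ hx) := at3_in _ hx
    have e4 : g (xe R (Fin.natAdd (n + 1) j)) =
        F V (pq (s i) (1 : Perm (Fin 3)) • R.join.cut _ hx) := by
      rw [hg]
      simp only
      rw [at3_smul, at3_in _ hx]
    rw [e3, e4, hF.diff V _ i hone, Gr.join_cut]
  rw [Finset.sum_eq_zero (fun j _ => k2 j), Finset.sum_eq_zero (fun j _ => k3 j), zero_add,
    zero_add, Fin.sum_univ_three, Fin.sum_univ_three]
  have e5 : ∀ a b a0 a1 a2 b0 b1 b2 : M, a + (a0 + a1 + a2) - (b + (b0 + b1 + b2)) =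
      (a - b) + ((a0 - b0) + (a1 - b1) + (a2 - b2)) := by
    intro a b a0 a1 a2 b0 b1 b2
    abel
  rw [e5, k1, k4, k4, k4, h3M, add_zero]

/-! ### The functional -/

/-- **The extension of the sum over the four positions.** -/
theorem exists_four (h3M : ∀ m : M, m + m + m = 0) (hE : S_ext M) (hU : S_uniq M)
    (hn : 4 ≤ n + 1) (hn3 : (n + 1) % 3 = 1) {c : (V : Type) → Gr V (n + 1) → Fin n → M}
    (hc : Form c) {F : (V : Type) → Gr V (n + 1 + 3) → M} (hF : Hub c F) :
    ∃ F' : (V : Type) → Gr V (n + 1 + 3) → M, Hub c F' ∧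
      ∀ (V : Type) [Finite V] (R : Gr V (n + 1 + 3)), One R → NoCherry R →
        F' V R = FF F V R.join := by
  have hA := alt3_of_hub hF
  have hw : OnWh (fun (V : Type) (R : Gr V (n + 1 + 3)) => FF F V R.join) := by
    refine ⟨fun V W _ f G _ _ => ?_, fun V _ G x _ _ hx => ?_⟩
    · show FF F W (G.map f).join = FF F V G.join
      rw [← Gr.join_map, FF_map hF.rel hA]
    · show FF F V (G.flip x).join = - FF F V G.join
      have hx' : ∀ j, x ≠ G.leg (Fin.natAdd (n + 1) j) := fun j => G.ne_leg hx _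
      rw [Gr.join_flip G hx', FF_flip hF.rel hA _ (join_in_h hx)]
  obtain ⟨F', h1, h2, h3⟩ := hE (n + 1 + 3) (by omega) (by omega) _ hw
  refine ⟨F', ⟨h1, h3, ?_, ?_⟩, h2⟩
  · intro V _ R τ
    by_cases hR : One R
    · exact uniq hU (by omega) (relSmul h1 (pq (1 : Perm (Fin (n + 1))) τ))
        (relZsmul h1 (Perm.sign τ : ℤ)) (fun V _ G hG hno => by
          show F' V (pq (1 : Perm (Fin (n + 1))) τ • G) = (Perm.sign τ : ℤ) • F' V G
          rw [h2 V _ ((one_smul_iff _).2 hG) ((nocherry_smul _).2 hno), h2 V G hG hno,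
            FF_alt hF.rel hA]) V R hR
    · rw [h3 V R hR, h3 V _ (fun h' => hR ((one_smul_iff _).1 h')), smul_zero]
  · intro V _ R i hR
    exact uniq hU (by omega) (relSub h1 (relSmul h1 (pq (s i) (1 : Perm (Fin 3)))))
      (relForm hc i) (fun V _ G hG hno => by
        show F' V G - F' V (pq (s i) (1 : Perm (Fin 3)) • G) = c V G.join i
        rw [h2 V _ ((one_smul_iff _).2 hG) ((nocherry_smul _).2 hno), h2 V G hG hno,
          FF_diff h3M hF G hG hno]) V R hR

end Pool.Agent.SWT36
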