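import Mathlib
import Pool.Agent.SWT36.HIc

/-!
# The position of the hub does not matter
-/

set_option autoImplicit false

namespace Pool.Agent.SWT36

open Pool.Agent.SWT49 hiding GConn Cherry
open Equiv Pool.Agent.SWT80 Pool.Agent.SWT93 Pool.Agent.SWT84 Pool.Agent.SWT65
open Pool.Agent.SWT84.Cy
open scoped Classical

variable {V W M : Type} {n : ℕ} [AddCommGroup M]

/-! ### All vertices outside the rim carry ordinary legs -/

/-- Every inner vertex lies on the cycle or carries an ordinary leg. -/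
def Hr (R : Gr V (n + 3)) (Rm : Set V) : Prop :=
  ∀ v, R.r v ≠ v → On R Rm v ∨ ∃ w, R.vt v w ∧ ∃ i : Fin n, R.e w = R.leg (Fin.castAdd 3 i)

theorem hr_shape {r0 : V → V} {D : V → Prop} {e0 : Perm V} {l0 : Fin (n + 3) → V} {x y : V}
    {G G' : Gr V (n + 3)} {p q s t p' q' s' t' : V} (h : Sh r0 D e0 l0 x y G p q s t)
    (h' : Sh r0 D e0 l0 x y G' p' q' s' t') {Rm R' : Set V} (hC : Cy G' R') (hx : x ∈ R')
    (hy : y ∈ R') (hs : Rm ⊆ R') (hH : Hr G Rm) : Hr G' R' := by
  intro v hv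
  by_cases hD : D v
  · left
    have ox : On G' R' x := Or.inl hx
    have oy : On G' R' y := Or.inl hy
    rcases (h'.m v).1 hD with rfl | rfl | rfl | rfl | rfl | rfl
    · exact ox
    · exact oy
    · rw [← h'.h1]
      exact hC.on_r.2 ox
    · rw [← h'.h2, ← h'.h1]
      exact hC.on_r.2 (hC.on_r.2 ox)
    · rw [← h'.h3]
      exact hC.on_r.2 oy
    · rw [← h'.h4, ← h'.h3]
      exact hC.on_r.2 (hC.on_r.2 oy)
  · have e1 : G'.r v = G.r v := by rw [h'.o v hD, h.o v hD]
    have e2 : G'.r (G.r v) = G.r (G.r v) := by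
      have h1 : ¬ D (G.r v) := fun h' => hD (h.D_r.1 h')
      rw [h'.o _ h1, h.o _ h1]
    rw [e1] at hv
    rcases hH v hv with h1 | ⟨w, h1, i, h2⟩
    · left
      rcases h1 with h1 | h1
      · exact Or.inl (hs h1)
      · right
        rw [e1]
        exact hs h1
    · right
      refine ⟨w, ?_, i, ?_⟩
      · unfold Gr.vt
        rw [e1, e2]
        exact h1
      · rw [h'.e, h'.l, ← h.e, ← h.l]
        exact h2

theorem hr_loc {I J X : Gr V (n + 3)} {x : V} (hL : Gr.Loc I J X x) {Rm : Set V} (hC : Cy I Rm)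
    (hx : x ∉ Rm) (ha : I.r x ∈ Rm) (hy : ¬ On I Rm (I.e x)) (h : Hr I Rm) :
    Hr J (Rm ∪ {x, I.e x}) ∧ Hr X (Rm ∪ {x, I.e x}) := by
  obtain ⟨h1, h2⟩ := hC.loc hL hx ha hy
  exact ⟨hr_shape (shI hL.ok) (shJ hL) h1 (Or.inr (Or.inl rfl)) (Or.inr (Or.inr rfl))
    Set.subset_union_left h,
    hr_shape (shI hL.ok) (shX hL) h2 (Or.inr (Or.inl rfl)) (Or.inr (Or.inr rfl))
    Set.subset_union_left h⟩

/-- **The value is the sum over the positions of the hub** if every vertex outside the rim carries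
an ordinary leg. -/
theorem four_eq [Finite V] {F F' : (V : Type) → Gr V (n + 3) → M} (hF : Rel F) (hA : Alt3 F)
    (hO : Off F) (hS : Slide F) (hF' : Rel F')
    (hw : ∀ (V : Type) [Finite V] (R : Gr V (n + 3)), One R → NoCherry R →
      F' V R = FF F V R.join) {R : Gr V (n + 3)} {Rm : Set V} (hR : One R) (hC : Cy R Rm)
    (hne : Rm.Nonempty) (hH : Hr R Rm) : F' V R = FF F V R.join := by
  have key := rim_induction
    (P := fun (G : Gr V (n + 3)) (Rm : Set V) => Hr G Rm → F' V G = FF F V G.join)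
    (fun G Rm h1 h2 _ _ _ => hw V G ⟨h1, hR.card⟩ h2) ?_ hR.conn hC hne
  · exact key hH
  · intro I J X x Rm hI hC hL hx ha hy h1 h2 hH
    obtain ⟨h3, h4⟩ := hr_loc hL hC hx ha hy hH
    rcases hH (I.e x) hL.ok.iy with h5 | ⟨w, h5, i, h6⟩
    · exact absurd h5 hy
    · rw [hF'.ihx V I J X x hL, h1 h3, h2 h4]
      refine (FF_slide hF hA hO hS hL.join (w := w) ?_ (i := i) ?_).symm
      · exact (join_vt_h hL.ok.iy _).2 h5
      · exact h6

/-! ### Wheels -/

theorem hi_wheel [Finite V] {F F' : (V : Type) → Gr V (n + 1 + 3) → M} (hF : Rel F) (hA : Alt3 F)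
    (hO : Off F) (hS : Slide F) (hF' : Rel F')
    (hw : ∀ (V : Type) [Finite V] (R : Gr V (n + 1 + 3)), One R → NoCherry R →
      F' V R = FF F V R.join) {R : Gr V (n + 1 + 3)} {Rm : Set V} (hR : One R)
    (hno : NoCherry R) (hC : Cy R Rm) {k : Fin 3} {h : V}
    (he : R.e h = R.leg (Fin.natAdd (n + 1) k)) (hh : h ∉ Rm) (ha : R.r h ∈ Rm) :
    F' V R = at3 F' V R.join h := by
  have hin : R.r h ≠ h := fun h' => hh (h' ▸ ha)
  have hx := join_in_h hin
  have hone := one_move hR hC he hh ha hx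
  obtain ⟨Rm', hne', hC'⟩ := exists_cy (n := n + 3) (R.join.cut h hx) (le_of_eq hone.card.symm)
  have hH : Hr (R.join.cut h hx) Rm' := by
    intro v hv
    rcases wheel_cut hR.conn hR.card hno he hin hx hC' hne' hv with h1 | ⟨w, h1, i, h2⟩
    · exact Or.inl h1
    · right
      have h3 : ¬ R.join.vt h v := fun h' => hv (R.join.cut_r_in hx h')
      have h4 : ¬ R.join.vt h (R.join.r v) := fun h' => h3 (R.join.vt_r.1 h')
      refine ⟨w, ?_, i, ?_⟩
      · unfold Gr.vt at h1 ⊢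
        rw [R.join.cut_r_o hx h3, R.join.cut_r_o hx h4]
        exact h1
      · rw [Gr.cut_leg_l, Gr.cut_e, Gr.join_e, Gr.join_leg]
        exact h2
  rw [at3_in _ hx, four_eq hF hA hO hS hF' hw hone hC' hne' hH, Gr.join_cut, hw V R hR hno]

/-! ### The general case -/

/-- **The hub may be moved to the foot of the arm of a special leg.** -/
theorem hi_arm [Finite V] {F F' : (V : Type) → Gr V (n + 1 + 3) → M} (hF : Rel F) (hA : Alt3 F)
    (hO : Off F) (hS : Slide F) (hF' : Rel F') (hS' : Slide F')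
    (hw : ∀ (V : Type) [Finite V] (R : Gr V (n + 1 + 3)), One R → NoCherry R →
      F' V R = FF F V R.join) {R : Gr V (n + 1 + 3)} {Rm : Set V} (hR : One R) (hC : Cy R Rm)
    {k : Fin 3} {h : V} (hh : h ∉ Rm) (ha : R.r h ∈ Rm) (harm : Arm R k h) :
    F' V R = at3 F' V R.join h := by
  have key := rim_induction
    (P := fun (G : Gr V (n + 1 + 3)) (Rm : Set V) => ∀ h, h ∉ Rm → G.r h ∈ Rm → Arm G k h →
      F' V G = at3 F' V G.join h) ?_ ?_ hR.conn hC ⟨_, ha⟩
  · exact key h hh ha harm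
  · intro G Rm hG hno hC hne h hh ha harm
    have hin : G.r h ≠ h := fun h' => hh (h' ▸ ha)
    have hleg : G.r (G.e h) = G.e h := by
      by_contra h1
      exact harm.off hC hh (wheel_on hG (by omega) hR.card hno hC hne h1)
    have he : G.e h = G.leg (Fin.natAdd (n + 1) k) := by
      rcases harm with ⟨_, h2⟩ | ⟨_, i, h2, _⟩ | ⟨_, i, h2, _⟩
      · exact h2
      · exfalso
        rw [hleg, G.e2] at h2
        apply hin
        rw [h2, G.r_leg]
      · exfalso
        rw [hleg, hleg, G.e2] at h2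
        apply hin
        rw [h2, G.r_leg]
    exact hi_wheel hF hA hO hS hF' hw ⟨hG, hR.card⟩ hno hC he hh ha
  · intro I J X x Rm _ hC hL hx hax hy h1 h2 h hh ha harm
    have hy1 : I.r (I.e x) ∉ Rm := fun h' => hy (Or.inr h')
    have hy2 : I.r (I.r (I.e x)) ∉ Rm := fun h' => hy1 (hC.r_of (fun h'' => hy (Or.inl h'')) h')
    have hnd := loc_nodup hL.ok
    simp only [List.nodup_cons, List.mem_cons, List.not_mem_nil, or_false, not_or,
      not_false_eq_true, and_true, List.nodup_nil] at hnd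
    obtain ⟨⟨n1, n2, n3, n4, n5⟩, ⟨n6, n7, n8, n9⟩, ⟨n10, n11, n12⟩, ⟨n13, n14⟩, n15⟩ := hnd
    have hnot : ∀ {v : V}, v ∉ Rm → v ≠ x → v ≠ I.e x → v ∉ Rm ∪ {x, I.e x} := by
      rintro v h3 h4 h5 (h6 | h6 | h6)
      · exact h3 h6
      · exact h4 h6
      · exact h5 h6
    by_cases hhx : h = x
    · subst hhx
      rcases harm with ⟨_, h3⟩ | ⟨_, i, h3, h4⟩ | ⟨_, i, h3, h4⟩
      · exfalso
        apply hL.ok.iy
        rw [h3, I.r_leg]
      · -- the hair is `r (e h)`, the arm goes on with `r (r (e h))`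
        obtain ⟨b1, b2⟩ := Arm.loc hL hC hax hy h4 hy2 (Ne.symm n5)
        have c0 : I.r (I.r (I.e h)) ∉ Rm ∪ {h, I.e h} := hnot hy2 (Ne.symm n5) (Ne.symm n9)
        have c1 := h1 _ c0 (Or.inl (by rw [hL.j5]; exact ha)) b1
        have c2 := h2 _ c0 (Or.inl (by rw [hL.x5]; exact hC.rr_of hh ha)) b2
        have c3 := hS' V I.join J.join X.join h (I.r (I.r (I.e h))) (I.r (I.e h)) i hL.join
          (Or.inr ⟨by rw [Gr.join_e, join_r_h hL.ok.iy],
            by rw [Gr.join_e, join_r_h hL.ok.iy, join_r_h (I.inner_r hL.ok.iy)]⟩)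
          (by rw [Gr.join_e, Gr.join_leg]; exact h3)
        rw [hF'.ihx V I J X h hL, c1, c2, c3]
      · -- the hair is `r (r (e h))`, the arm goes on with `r (e h)`
        obtain ⟨b1, b2⟩ := Arm.loc hL hC hax hy h4 hy1 (Ne.symm n4)
        have c0 : I.r (I.e h) ∉ Rm ∪ {h, I.e h} := hnot hy1 (Ne.symm n4) (Ne.symm n8)
        have c1 := h1 _ c0 (Or.inr (Or.inl hL.j3)) b1
        have c2 := h2 _ c0 (Or.inr (Or.inl hL.x3)) b2
        have c3 := hS' V I.join J.join X.join h (I.r (I.e h)) (I.r (I.r (I.e h))) i hL.join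
          (Or.inl ⟨by rw [Gr.join_e, join_r_h hL.ok.iy],
            by rw [Gr.join_e, join_r_h hL.ok.iy, join_r_h (I.inner_r hL.ok.iy)]⟩)
          (by rw [Gr.join_e, Gr.join_leg]; exact h3)
        rw [hF'.ihx V I J X h hL, c1, c2, c3]
    · have hin : I.r h ≠ h := fun h' => hh (h' ▸ ha)
      have hD : ¬ DD I x h := by
        rintro (h3 | h3 | h3 | h3 | h3 | h3)
        · exact hhx h3
        · rw [h3] at ha
          exact hy1 ha
        · exact hh (h3 ▸ hax)
        · exact hh (h3 ▸ hC.rr_of hx hax)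
        · rw [h3] at ha
          exact hy2 ha
        · rw [h3, I.r3] at ha
          exact hy (Or.inl ha)
      obtain ⟨v1, v2⟩ := out_vt hD
      obtain ⟨b1, b2⟩ := Arm.loc hL hC hax hy harm hh hhx
      have c0 : h ∉ Rm ∪ {x, I.e x} := hnot hh hhx (fun h' => hD (Or.inr (Or.inl h')))
      have c1 := h1 _ c0 (Or.inl (by rw [(hL.oth h v1 v2).1]; exact ha)) b1
      have c2 := h2 _ c0 (Or.inl (by rw [(hL.oth h v1 v2).2]; exact ha)) b2
      have c3 := at3_ihx hF' hL.join (x := h)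
        (fun h' => v1 (I.vt_symm ((join_vt_h hin _).1 h')))
        (fun h' => v2 (I.vt_symm ((join_vt_h hin _).1 h')))
      rw [hF'.ihx V I J X x hL, c1, c2, c3]

/-- **M5.** -/
theorem m5 (h3M : ∀ m : M, m + m + m = 0) (hE : S_ext M) (hU : S_uniq M) : S_hi M := by
  rintro n hn _ hn3 c hc hSl ⟨F, hF⟩
  obtain ⟨F', hF', hw⟩ := exists_four h3M hE hU hn hn3 hc hF
  refine ⟨F', hF', ?_⟩
  intro V _ R S k hR hC ha
  have hh : R.e (R.leg (Fin.natAdd (n + 1) k)) ∉ S := by
    intro h1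
    have h2 := hC.e _ h1
    rw [R.e2] at h2
    exact hC.ne_leg h2 (R.r_leg _)
  exact hi_arm hF.rel (alt3_of_hub hF) hF.off (hSl F hF) hF'.rel (hSl F' hF')
    hw hR hC hh ha (Arm.base _ (R.e2 _))

end Pool.Agent.SWT36
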