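import Mathlib
import Pool.Agent.SWT36.HId
import Pool.Agent.SWT84.Loop

/-!
# The position of the hub does not matter: final form
-/

set_option autoImplicit false

namespace Pool.Agent.SWT36

/-- **M5.** -/
theorem s_hi (M : Type) [AddCommGroup M] (hM : ∀ m : M, m + m + m = 0) : SWT65.S_hi M :=
  m5 hM (SWT84.ext M hM) (SWT84.uniq M)

end Pool.Agent.SWT36
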