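import Mathlib
import Pool.Agent.SWT36.HIb

/-!
# The slide of a hair at the hub: the disconnected case
-/

set_option autoImplicit false

namespace Pool.Agent.SWT36

open Pool.Agent.SWT49 hiding GConn Cherry
open Equiv Pool.Agent.SWT80 Pool.Agent.SWT93 Pool.Agent.SWT84 Pool.Agent.SWT65

variable {V W M : Type} {n : ℕ} [AddCommGroup M]

/-- A hair is moved from the end at `u` to the end at `b`: connectedness. -/
theorem gconn_shift {m : ℕ} {R R' : Gr V m} {x y w u b l : V} (he : R'.e = R.e)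
    (hxy : R.e x = y) (hwl : R.e w = l)
    (hall : ∀ S : Set V, Cld R S → ∀ v ∈ S, (v = x ∨ v = y ∨ v = w ∨ v = l) → u ∈ S)
    (hall' : ∀ S : Set V, Cld R S → u ∈ S → x ∈ S ∧ y ∈ S ∧ w ∈ S ∧ l ∈ S)
    (hZ : ∀ v, (v = x ∨ v = y ∨ v = w ∨ v = l) →
      (R'.r v = x ∨ R'.r v = y ∨ R'.r v = w ∨ R'.r v = l) ∨ R'.r v = b)
    (hb : R'.r b = x ∨ R'.r b = y ∨ R'.r b = w ∨ R'.r b = l)
    (ho : ∀ v, ¬ (v = x ∨ v = y ∨ v = w ∨ v = l) → v ≠ b → R'.r v = R.r v ∨ R'.r v = v)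
    (hu : ¬ (u = x ∨ u = y ∨ u = w ∨ u = l)) (hbZ : ¬ (b = x ∨ b = y ∨ b = w ∨ b = l))
    (hG : GConn R') : GConn R := by
  intro S hS hne
  have hyx : R.e y = x := by rw [← hxy, R.e2]
  have hlw : R.e l = w := by rw [← hwl, R.e2]
  have heZ : ∀ v, (v = x ∨ v = y ∨ v = w ∨ v = l) →
      (R.e v = x ∨ R.e v = y ∨ R.e v = w ∨ R.e v = l) := by
    rintro v (rfl | rfl | rfl | rfl)
    · exact Or.inr (Or.inl hxy)
    · exact Or.inl hyx
    · exact Or.inr (Or.inr (Or.inr hwl))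
    · exact Or.inr (Or.inr (Or.inl hlw))
  have huniv : {v | ((v = x ∨ v = y ∨ v = w ∨ v = l) ∧ b ∈ S) ∨
      (¬ (v = x ∨ v = y ∨ v = w ∨ v = l) ∧ v ∈ S)} = Set.univ := by
    apply hG
    · constructor
      · rintro v (⟨hv, hbS⟩ | ⟨hv, hvS⟩)
        · left
          rw [he]
          exact ⟨heZ v hv, hbS⟩
        · right
          rw [he]
          refine ⟨fun h' => hv ?_, hS.e v hvS⟩
          have h1 := heZ _ h'
          rw [R.e2] at h1
          exact h1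
      · rintro v (⟨hv, hbS⟩ | ⟨hv, hvS⟩)
        · rcases hZ v hv with h1 | h1
          · exact Or.inl ⟨h1, hbS⟩
          · right
            rw [h1]
            exact ⟨hbZ, hbS⟩
        · by_cases hvb : v = b
          · left
            rw [hvb] at hvS ⊢
            exact ⟨hb, hvS⟩
          · rcases ho v hv hvb with h1 | h1
            · right
              refine ⟨fun h' => ?_, by rw [h1]; exact hS.r v hvS⟩
              have h3 : R'.r (R'.r (R'.r v)) = v := R'.r3 v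
              rcases hZ _ h' with h4 | h4
              · rcases hZ _ h4 with h5 | h5
                · rw [h3] at h5
                  exact hv h5
                · rw [h3] at h5
                  exact hvb h5
              · rw [h4] at h3
                rw [h3] at hb
                exact hv hb
            · right
              rw [h1]
              exact ⟨hv, hvS⟩
    · obtain ⟨v, hv⟩ := hne
      by_cases h1 : v = x ∨ v = y ∨ v = w ∨ v = l
      · exact ⟨u, Or.inr ⟨hu, hall S hS v hv h1⟩⟩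
      · exact ⟨v, Or.inr ⟨h1, hv⟩⟩
  have hmem : ∀ v, ((v = x ∨ v = y ∨ v = w ∨ v = l) ∧ b ∈ S) ∨
      (¬ (v = x ∨ v = y ∨ v = w ∨ v = l) ∧ v ∈ S) := by
    intro v
    have h1 : v ∈ {v | ((v = x ∨ v = y ∨ v = w ∨ v = l) ∧ b ∈ S) ∨
      (¬ (v = x ∨ v = y ∨ v = w ∨ v = l) ∧ v ∈ S)} := by
      rw [huniv]
      trivial
    exact h1
  have huS : u ∈ S := by
    rcases hmem u with h1 | h1
    · exact absurd h1.1 hu
    · exact h1.2
  obtain ⟨h1, h2, h3, h4⟩ := hall' S hS huS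
  ext v
  refine ⟨fun _ => trivial, fun _ => ?_⟩
  rcases hmem v with ⟨h5, _⟩ | ⟨_, h5⟩
  · rcases h5 with rfl | rfl | rfl | rfl
    exacts [h1, h2, h3, h4]
  · exact h5

section Frame

variable {r0 : V → V} {D : V → Prop} {e0 : Perm V} {l0 : Fin n → V} {x y a b c d p t : V}
  {I G : Gr V n}

/-- The six half-edges are different (in the form used below). -/
theorem Sh.ne (h : Sh r0 D e0 l0 x y G p c d t) : (x ≠ y ∧ x ≠ p ∧ x ≠ c ∧ x ≠ d ∧ x ≠ t) ∧
    (y ≠ p ∧ y ≠ c ∧ y ≠ d ∧ y ≠ t) ∧ (p ≠ c ∧ p ≠ d ∧ p ≠ t) ∧ (c ≠ d ∧ c ≠ t) ∧ d ≠ t := by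
  have := h.nd
  simp only [List.nodup_cons, List.mem_cons, List.not_mem_nil, or_false, not_or,
    not_false_eq_true, and_true, List.nodup_nil] at this
  exact this

/-- The union of the components of the cut graph at the vertex of `y`. -/
theorem cut_vertex (h : Sh r0 D e0 l0 x y I a b c d) (hxy : e0 x = y) (hx : I.r x ≠ x)
    {S : Set V} (hS : Cld (I.cut x hx) S) :
    (x ∈ S → y ∈ S) ∧ (y ∈ S → x ∈ S) ∧ (y ∈ S → c ∈ S) ∧ (c ∈ S → d ∈ S) ∧ (d ∈ S → y ∈ S) := by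
  obtain ⟨⟨n1, n2, n3, n4, n5⟩, ⟨n6, n7, n8, n9⟩, ⟨n10, n11, n12⟩, ⟨n13, n14⟩, n15⟩ := h.ne
  have hv : ∀ v, I.vt x v ↔ (v = x ∨ v = a ∨ v = b) := by
    intro v
    unfold Gr.vt
    rw [h.h1, h.h2]
  have e1 : I.e x = y := by rw [h.e, hxy]
  refine ⟨fun h1 => ?_, fun h1 => ?_, fun h1 => ?_, fun h1 => ?_, fun h1 => ?_⟩
  · have h2 := hS.e _ h1
    rw [Gr.cut_e, e1] at h2
    exact h2
  · have h2 := hS.e _ h1
    rw [Gr.cut_e, ← e1, I.e2] at h2
    exact h2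
  · have h2 := hS.r _ h1
    rw [Gr.cut_r_o _ _ (by rw [hv]; tauto), h.h3] at h2
    exact h2
  · have h2 := hS.r _ h1
    have h3 : ¬ I.vt x c := by
      rw [hv]
      rintro (h' | h' | h')
      exacts [n4 h'.symm, n11 h'.symm, n13 h'.symm]
    rw [Gr.cut_r_o _ _ h3, h.h4] at h2
    exact h2
  · have h2 := hS.r _ h1
    rw [Gr.cut_r_o _ _ (by rw [hv]; tauto), h.h6] at h2
    exact h2

/-- The hair is `c`: if the graph is connected with the hub at `d` then also with the hub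
at `x`. -/
theorem gconn_slide1 (h : Sh r0 D e0 l0 x y I a b c d) (h' : Sh r0 D e0 l0 x y G p c d t)
    (hxy : e0 x = y) {i : Fin n} (hi : e0 c = l0 i) (hx : I.r x ≠ x) (hd : G.r d ≠ d)
    (hG : GConn (G.cut d hd)) : GConn (I.cut x hx) := by
  obtain ⟨⟨n1, n2, n3, n4, n5⟩, ⟨n6, n7, n8, n9⟩, ⟨n10, n11, n12⟩, ⟨n13, n14⟩, n15⟩ := h'.ne
  have hvI : ∀ v, I.vt x v ↔ (v = x ∨ v = a ∨ v = b) := by
    intro v
    unfold Gr.vt
    rw [h.h1, h.h2]
  have hvG : ∀ v, G.vt d v ↔ (v = d ∨ v = t ∨ v = y) := by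
    intro v
    unfold Gr.vt
    rw [h'.h4, h'.h6]
  have hin : ∀ v, D v → v ≠ l0 i := by
    intro v hv h1
    apply h'.r_ne hv
    rw [h1, ← h'.l, G.r_leg]
  have Dx : D x := (h'.m x).2 (Or.inl rfl)
  have Dp : D p := (h'.m p).2 (Or.inr (Or.inr (Or.inl rfl)))
  have Dd : D d := (h'.m d).2 (Or.inr (Or.inr (Or.inr (Or.inr (Or.inl rfl)))))
  have hcl : ∀ v, (v = x ∨ v = a ∨ v = b) → D v := by
    rintro v (rfl | rfl | rfl)
    · exact (h.m _).2 (Or.inl rfl)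
    · exact (h.m _).2 (Or.inr (Or.inr (Or.inl rfl)))
    · exact (h.m _).2 (Or.inr (Or.inr (Or.inr (Or.inl rfl))))
  have hll : ∀ S : Set V, Cld (I.cut x hx) S → (l0 i ∈ S → c ∈ S) ∧ (c ∈ S → l0 i ∈ S) := by
    intro S hS
    refine ⟨fun h1 => ?_, fun h1 => ?_⟩
    · have h2 := hS.e _ h1
      rw [Gr.cut_e, ← hi, ← h.e, I.e2] at h2
      exact h2
    · have h2 := hS.e _ h1
      rw [Gr.cut_e, h.e, hi] at h2
      exact h2
  refine gconn_shift (R := I.cut x hx) (R' := G.cut d hd) (x := x) (y := y) (w := c) (u := d)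
    (b := p) (l := l0 i) ?_ ?_ ?_ ?_ ?_ ?_ ?_ ?_ ?_ ?_ hG
  · rw [Gr.cut_e, Gr.cut_e, h.e, h'.e]
  · rw [Gr.cut_e, h.e, hxy]
  · rw [Gr.cut_e, h.e, hi]
  · intro S hS v hv h1
    obtain ⟨s1, s2, s3, s4, s5⟩ := cut_vertex h hxy hx hS
    rcases h1 with rfl | rfl | rfl | rfl
    · exact s4 (s3 (s1 hv))
    · exact s4 (s3 hv)
    · exact s4 hv
    · exact s4 ((hll S hS).1 hv)
  · intro S hS hv
    obtain ⟨s1, s2, s3, s4, s5⟩ := cut_vertex h hxy hx hS
    have t1 := s5 hv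
    exact ⟨s2 t1, t1, s3 t1, (hll S hS).2 (s3 t1)⟩
  · rintro v (rfl | rfl | rfl | rfl)
    · right
      rw [Gr.cut_r_o _ _ (by rw [hvG]; rintro (h1 | h1 | h1); exacts [n4 h1, n5 h1, n1 h1]), h'.h1]
    · left
      rw [Gr.cut_r_in _ _ (by rw [hvG]; exact Or.inr (Or.inr rfl))]
      exact Or.inr (Or.inl rfl)
    · left
      rw [Gr.cut_r_o _ _ (by rw [hvG]; rintro (h1 | h1 | h1); exacts [n13 h1, n14 h1, n7 h1.symm]),
        h'.h5]
      exact Or.inl rfl
    · left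
      have h1 : G.r (l0 i) = l0 i := by
        rw [← h'.l, G.r_leg]
      rw [Gr.cut_r_o _ _ (by rw [← h'.l]; exact G.leg_not_vt hd i), h1]
      exact Or.inr (Or.inr (Or.inr rfl))
  · rw [Gr.cut_r_o _ _ (by rw [hvG]; rintro (h1 | h1 | h1); exacts [n11 h1, n12 h1, n6 h1.symm]),
      h'.h2]
    exact Or.inr (Or.inr (Or.inl rfl))
  · intro v hv hvp
    by_cases h1 : G.vt d v
    · right
      exact Gr.cut_r_in _ _ h1
    · left
      have hD : ¬ D v := by
        intro h2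
        rcases (h'.m v).1 h2 with h3 | h3 | h3 | h3 | h3 | h3
        · exact hv (Or.inl h3)
        · exact hv (Or.inr (Or.inl h3))
        · exact hvp h3
        · exact hv (Or.inr (Or.inr (Or.inl h3)))
        · exact h1 ((hvG v).2 (Or.inl h3))
        · exact h1 ((hvG v).2 (Or.inr (Or.inl h3)))
      rw [Gr.cut_r_o _ _ h1, Gr.cut_r_o _ _ (fun h2 => hD (hcl v ((hvI v).1 h2))), h'.o v hD,
        h.o v hD]
  · rintro (h1 | h1 | h1 | h1)
    exacts [n4 h1.symm, n8 h1.symm, n13 h1.symm, hin d Dd h1]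
  · rintro (h1 | h1 | h1 | h1)
    exacts [n2 h1.symm, n6 h1.symm, n10 h1, hin p Dp h1]

/-- The hair is `d`: if the graph is connected with the hub at `c` then also with the hub
at `x`. -/
theorem gconn_slide2 (h : Sh r0 D e0 l0 x y I a b c d) (h' : Sh r0 D e0 l0 x y G p c d t)
    (hxy : e0 x = y) {i : Fin n} (hi : e0 d = l0 i) (hx : I.r x ≠ x) (hc : G.r c ≠ c)
    (hG : GConn (G.cut c hc)) : GConn (I.cut x hx) := by
  obtain ⟨⟨n1, n2, n3, n4, n5⟩, ⟨n6, n7, n8, n9⟩, ⟨n10, n11, n12⟩, ⟨n13, n14⟩, n15⟩ := h'.ne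
  have hvI : ∀ v, I.vt x v ↔ (v = x ∨ v = a ∨ v = b) := by
    intro v
    unfold Gr.vt
    rw [h.h1, h.h2]
  have hvG : ∀ v, G.vt c v ↔ (v = c ∨ v = x ∨ v = p) := by
    intro v
    unfold Gr.vt
    rw [h'.h5, h'.h1]
  have hin : ∀ v, D v → v ≠ l0 i := by
    intro v hv h1
    apply h'.r_ne hv
    rw [h1, ← h'.l, G.r_leg]
  have Dc : D c := (h'.m c).2 (Or.inr (Or.inr (Or.inr (Or.inl rfl))))
  have Dt : D t := (h'.m t).2 (Or.inr (Or.inr (Or.inr (Or.inr (Or.inr rfl)))))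
  have hcl : ∀ v, (v = x ∨ v = a ∨ v = b) → D v := by
    rintro v (rfl | rfl | rfl)
    · exact (h.m _).2 (Or.inl rfl)
    · exact (h.m _).2 (Or.inr (Or.inr (Or.inl rfl)))
    · exact (h.m _).2 (Or.inr (Or.inr (Or.inr (Or.inl rfl))))
  have hll : ∀ S : Set V, Cld (I.cut x hx) S → (l0 i ∈ S → d ∈ S) ∧ (d ∈ S → l0 i ∈ S) := by
    intro S hS
    refine ⟨fun h1 => ?_, fun h1 => ?_⟩
    · have h2 := hS.e _ h1
      rw [Gr.cut_e, ← hi, ← h.e, I.e2] at h2
      exact h2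
    · have h2 := hS.e _ h1
      rw [Gr.cut_e, h.e, hi] at h2
      exact h2
  refine gconn_shift (R := I.cut x hx) (R' := G.cut c hc) (x := x) (y := y) (w := d) (u := c)
    (b := t) (l := l0 i) ?_ ?_ ?_ ?_ ?_ ?_ ?_ ?_ ?_ ?_ hG
  · rw [Gr.cut_e, Gr.cut_e, h.e, h'.e]
  · rw [Gr.cut_e, h.e, hxy]
  · rw [Gr.cut_e, h.e, hi]
  · intro S hS v hv h1
    obtain ⟨s1, s2, s3, s4, s5⟩ := cut_vertex h hxy hx hS
    rcases h1 with rfl | rfl | rfl | rfl
    · exact s3 (s1 hv)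
    · exact s3 hv
    · exact s3 (s5 hv)
    · exact s3 (s5 ((hll S hS).1 hv))
  · intro S hS hv
    obtain ⟨s1, s2, s3, s4, s5⟩ := cut_vertex h hxy hx hS
    have t1 := s4 hv
    exact ⟨s2 (s5 t1), s5 t1, t1, (hll S hS).2 t1⟩
  · rintro v (rfl | rfl | rfl | rfl)
    · left
      rw [Gr.cut_r_in _ _ (by rw [hvG]; exact Or.inr (Or.inl rfl))]
      exact Or.inl rfl
    · left
      rw [Gr.cut_r_o _ _ (by rw [hvG]; rintro (h1 | h1 | h1); exacts [n7 h1, n1 h1.symm, n6 h1]),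
        h'.h3]
      exact Or.inr (Or.inr (Or.inl rfl))
    · right
      have h2 : ¬ G.vt c v := by
        rw [hvG]
        rintro (h1 | h1 | h1)
        exacts [n13 h1.symm, n4 h1.symm, n11 h1.symm]
      rw [Gr.cut_r_o _ _ h2, h'.h4]
    · left
      have h1 : G.r (l0 i) = l0 i := by
        rw [← h'.l, G.r_leg]
      rw [Gr.cut_r_o _ _ (by rw [← h'.l]; exact G.leg_not_vt hc i), h1]
      exact Or.inr (Or.inr (Or.inr rfl))
  · have h2 : ¬ G.vt c t := by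
      rw [hvG]
      rintro (h1 | h1 | h1)
      exacts [n14 h1.symm, n5 h1.symm, n12 h1.symm]
    rw [Gr.cut_r_o _ _ h2, h'.h6]
    exact Or.inr (Or.inl rfl)
  · intro v hv hvp
    by_cases h1 : G.vt c v
    · right
      exact Gr.cut_r_in _ _ h1
    · left
      have hD : ¬ D v := by
        intro h2
        rcases (h'.m v).1 h2 with h3 | h3 | h3 | h3 | h3 | h3
        · exact hv (Or.inl h3)
        · exact hv (Or.inr (Or.inl h3))
        · exact h1 ((hvG v).2 (Or.inr (Or.inr h3)))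
        · exact h1 ((hvG v).2 (Or.inl h3))
        · exact hv (Or.inr (Or.inr (Or.inl h3)))
        · exact hvp h3
      rw [Gr.cut_r_o _ _ h1, Gr.cut_r_o _ _ (fun h2 => hD (hcl v ((hvI v).1 h2))), h'.o v hD,
        h.o v hD]
  · rintro (h1 | h1 | h1 | h1)
    exacts [n3 h1.symm, n7 h1.symm, n13 h1, hin c Dc h1]
  · rintro (h1 | h1 | h1 | h1)
    exacts [n5 h1.symm, n9 h1.symm, n15 h1.symm, hin t Dt h1]

end Frame

/-- **It is enough to prove the slide of a hair for the connected graphs.** -/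
theorem slide_of_one {F : (V : Type) → Gr V (n + 3) → M} (hO : Off F)
    (h1 : ∀ (V : Type) [Finite V] (I J X : Gr V n) (x h h' : V) (i : Fin n), Gr.Loc I J X x →
      (h = I.r (I.e x) ∧ h' = I.r (I.r (I.e x)) ∨ h' = I.r (I.e x) ∧ h = I.r (I.r (I.e x))) →
      I.e h' = I.leg i → (∀ hx : I.r x ≠ x, One (I.cut x hx)) →
      at3 F V I x = at3 F V J h - at3 F V X h) : Slide F := by
  intro V _ I J X x h h' i hL hc hi
  by_cases hone : One (I.cut x hL.ok.ix)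
  · exact h1 V I J X x h h' i hL hc hi (fun _ => hone)
  · have z : ∀ (G : Gr V n), ((hd : G.r h ≠ h) → One (G.cut h hd) → One (I.cut x hL.ok.ix)) →
        at3 F V G h = 0 := by
      intro G hG
      by_cases hd : G.r h = h
      · exact at3_leg G hd
      · rw [at3_in G hd]
        exact hO V _ (fun h' => hone (hG hd h'))
    have hI : at3 F V I x = 0 := by
      rw [at3_in I hL.ok.ix]
      exact hO V _ hone
    have key : at3 F V J h = 0 ∧ at3 F V X h = 0 := by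
      rcases hc with ⟨rfl, rfl⟩ | ⟨rfl, rfl⟩
      · exact ⟨z J fun hd hG => ⟨gconn_slide2 (shI hL.ok) (shJ hL) rfl hi hL.ok.ix hd hG.conn,
          hG.card⟩, z X fun hd hG => ⟨gconn_slide2 (shI hL.ok) (shX hL) rfl hi hL.ok.ix hd hG.conn,
          hG.card⟩⟩
      · exact ⟨z J fun hd hG => ⟨gconn_slide1 (shI hL.ok) (shJ hL) rfl hi hL.ok.ix hd hG.conn,
          hG.card⟩, z X fun hd hG => ⟨gconn_slide1 (shI hL.ok) (shX hL) rfl hi hL.ok.ix hd hG.conn,
          hG.card⟩⟩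
    rw [hI, key.1, key.2, sub_zero]

end Pool.Agent.SWT36
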